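import Pool.Agent.BMP.Defs

/-! BMP Avg: averages over sign vectors. All lemmas are elementary finite sums over `T → Bool`.
Hints: for `Ex_sg` and `Ex_sg_mul` flip the sign at `a` (involution `s ↦ Function.update s a (!(s a))`,
`Finset.sum_involution`, or `Equiv.sum_comp` with that involution: `S = -S`). For the fourth moment expand the four sums;
`Ex (sg s_i sg s_j sg s_k sg s_l) = [i=j][k=l] + [i=k][j=l] + [i=l][j=k] - 2 [i=j=k=l]`
(e.g. prove it first by flipping at an index that occurs an odd number of times). -/

namespace BMP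

open Finset

variable {T : Type} [Fintype T] [DecidableEq T]

theorem sg_mul_self (s : Bool) : sg s * sg s = 1 := by
  cases s <;> simp [sg]

theorem abs_sg (s : Bool) : |sg s| = 1 := by
  cases s <;> simp [sg]

theorem Ex_const (a : ℝ) : Ex (fun _ : T → Bool => a) = a := by
  unfold Ex
  rw [Finset.sum_const, Finset.card_univ, Fintype.card_fun, Fintype.card_bool, nsmul_eq_mul]
  push_cast
  field_simp

theorem Ex_add (F G : (T → Bool) → ℝ) : Ex (fun s => F s + G s) = Ex F + Ex G := by
  unfold Ex
  rw [Finset.sum_add_distrib, add_div]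

theorem Ex_sub (F G : (T → Bool) → ℝ) : Ex (fun s => F s - G s) = Ex F - Ex G := by
  unfold Ex
  rw [Finset.sum_sub_distrib, sub_div]

theorem Ex_mul_left (a : ℝ) (F : (T → Bool) → ℝ) : Ex (fun s => a * F s) = a * Ex F := by
  unfold Ex
  rw [← Finset.mul_sum, mul_div_assoc]

theorem Ex_sum {K : Type} (S : Finset K) (F : K → (T → Bool) → ℝ) :
    Ex (fun s => ∑ k ∈ S, F k s) = ∑ k ∈ S, Ex (F k) := by
  unfold Ex
  rw [Finset.sum_comm, Finset.sum_div]

theorem Ex_mono (F G : (T → Bool) → ℝ) (h : ∀ s, F s ≤ G s) : Ex F ≤ Ex G := by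
  unfold Ex
  exact div_le_div_of_nonneg_right (Finset.sum_le_sum fun s _ => h s) (by positivity)

private theorem avg_flip (a : T) (F : (T → Bool) → ℝ)
    (h : ∀ s, F (Function.update s a (!(s a))) = -F s) : Ex F = 0 := by
  have hinv : Function.Involutive fun s : T → Bool => Function.update s a (!(s a)) := by
    intro s
    funext b
    rcases eq_or_ne b a with rfl | hb
    · simp
    · simp [Function.update_of_ne hb]
  have h1 : ∑ s : T → Bool, F s = ∑ s : T → Bool, F (Function.update s a (!(s a))) :=
    (Equiv.sum_comp hinv.toPerm F).symm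
  have h2 : ∑ s : T → Bool, F (Function.update s a (!(s a))) = -∑ s : T → Bool, F s := by
    rw [← Finset.sum_neg_distrib]
    exact Finset.sum_congr rfl fun s _ => h s
  unfold Ex
  have h3 : ∑ s : T → Bool, F s = 0 := by linarith
  rw [h3, zero_div]

private theorem avg_sg_not (s : Bool) : sg (!s) = -sg s := by
  cases s <;> simp [sg]

theorem Ex_sg (a : T) : Ex (fun s : T → Bool => sg (s a)) = 0 := by
  apply avg_flip a
  intro s
  rw [Function.update_self, avg_sg_not]

theorem Ex_sg_mul (a b : T) : Ex (fun s : T → Bool => sg (s a) * sg (s b)) = if a = b then 1 else 0 := by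
  by_cases hab : a = b
  · subst hab
    rw [if_pos rfl]
    have : (fun s : T → Bool => sg (s a) * sg (s a)) = fun _ => (1 : ℝ) := by
      funext s; exact sg_mul_self _
    rw [this, Ex_const]
  · rw [if_neg hab]
    apply avg_flip a
    intro s
    rw [Function.update_self, Function.update_of_ne (Ne.symm hab), avg_sg_not]
    ring

theorem Ex_dt_sq (a : T → ℝ) : Ex (fun s => dt a s ^ 2) = n2 a := by
  have h1 : (fun s : T → Bool => dt a s ^ 2) =
      fun s => ∑ i, ∑ j, (a i * a j) * (sg (s i) * sg (s j)) := by
    funext s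
    unfold dt
    rw [sq, Finset.sum_mul_sum]
    refine Finset.sum_congr rfl fun i _ => Finset.sum_congr rfl fun j _ => ?_
    ring
  rw [h1, Ex_sum]
  unfold n2
  refine Finset.sum_congr rfl fun i _ => ?_
  rw [Ex_sum]
  have h2 : ∀ j ∈ Finset.univ, Ex (fun s : T → Bool => (a i * a j) * (sg (s i) * sg (s j))) =
      if i = j then a i * a j else 0 := by
    intro j _
    rw [Ex_mul_left, Ex_sg_mul, mul_ite, mul_one, mul_zero]
  rw [Finset.sum_congr rfl h2, Finset.sum_ite_eq, if_pos (Finset.mem_univ i), sq]

private theorem avg_four (i j k l : T) :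
    Ex (fun s : T → Bool => sg (s i) * sg (s j) * (sg (s k) * sg (s l))) =
      (if i = j then 1 else 0) * (if k = l then 1 else 0) +
      (if i = k then 1 else 0) * (if j = l then 1 else 0) +
      (if i = l then 1 else 0) * (if j = k then 1 else 0) -
      2 * ((if i = j then 1 else 0) * ((if i = k then 1 else 0) * (if i = l then 1 else 0))) := by
  by_cases hij : i = j
  · subst hij
    have : (fun s : T → Bool => sg (s i) * sg (s i) * (sg (s k) * sg (s l))) =
        fun s => sg (s k) * sg (s l) := by
      funext s; rw [sg_mul_self, one_mul]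
    rw [this, Ex_sg_mul, if_pos rfl]
    ring
  · rw [if_neg hij]
    by_cases hkl : k = l
    · subst hkl
      have : (fun s : T → Bool => sg (s i) * sg (s j) * (sg (s k) * sg (s k))) =
          fun s => sg (s i) * sg (s j) := by
        funext s; rw [sg_mul_self, mul_one]
      rw [this, Ex_sg_mul, if_neg hij]
      by_cases hik : i = k
      · subst hik
        rw [if_neg (Ne.symm hij)]
        ring
      · rw [if_neg hik]
        ring
    · by_cases hik : i = k
      · subst hik
        have : (fun s : T → Bool => sg (s i) * sg (s j) * (sg (s i) * sg (s l))) =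
            fun s => sg (s j) * sg (s l) := by
          funext s
          have := sg_mul_self (s i)
          linear_combination (sg (s j) * sg (s l)) * this
        rw [this, Ex_sg_mul, if_neg hkl, if_pos rfl]
        ring
      · by_cases hil : i = l
        · subst hil
          have : (fun s : T → Bool => sg (s i) * sg (s j) * (sg (s k) * sg (s i))) =
              fun s => sg (s j) * sg (s k) := by
            funext s
            have := sg_mul_self (s i)
            linear_combination (sg (s j) * sg (s k)) * this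
          rw [this, Ex_sg_mul, if_neg hik, if_pos rfl]
          ring
        · rw [if_neg hik, if_neg hil]
          have h0 : Ex (fun s : T → Bool => sg (s i) * sg (s j) * (sg (s k) * sg (s l))) = 0 := by
            apply avg_flip i
            intro s
            rw [Function.update_self, Function.update_of_ne (Ne.symm hij),
              Function.update_of_ne (Ne.symm hik), Function.update_of_ne (Ne.symm hil), avg_sg_not]
            ring
          rw [h0]
          ring

/-- the fourth moment -/
theorem Ex_dt_sq_mul (a g : T → ℝ) : Ex (fun s => dt a s ^ 2 * dt g s ^ 2) =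
    n2 a * n2 g + 2 * ((∑ i, a i * g i) ^ 2 - ∑ i, a i ^ 2 * g i ^ 2) := by
  have h1 : (fun s : T → Bool => dt a s ^ 2 * dt g s ^ 2) =
      fun s => ∑ i, ∑ j, ∑ k, ∑ l, (a i * a j * (g k * g l)) *
        (sg (s i) * sg (s j) * (sg (s k) * sg (s l))) := by
    funext s
    unfold dt
    rw [sq, sq, Finset.sum_mul_sum, Finset.sum_mul_sum, Finset.sum_mul]
    refine Finset.sum_congr rfl fun i _ => ?_
    rw [Finset.sum_mul]
    refine Finset.sum_congr rfl fun j _ => ?_
    rw [Finset.mul_sum]
    refine Finset.sum_congr rfl fun k _ => ?_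
    rw [Finset.mul_sum]
    refine Finset.sum_congr rfl fun l _ => ?_
    ring
  rw [h1]
  have h2 : Ex (fun s : T → Bool => ∑ i, ∑ j, ∑ k, ∑ l, (a i * a j * (g k * g l)) *
        (sg (s i) * sg (s j) * (sg (s k) * sg (s l)))) =
      ∑ i, ∑ j, ∑ k, ∑ l, (a i * a j * (g k * g l)) *
        ((if i = j then 1 else 0) * (if k = l then 1 else 0) +
        (if i = k then 1 else 0) * (if j = l then 1 else 0) +
        (if i = l then 1 else 0) * (if j = k then 1 else 0) -
        2 * ((if i = j then 1 else 0) * ((if i = k then 1 else 0) * (if i = l then 1 else 0)))) := by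
    rw [Ex_sum]
    refine Finset.sum_congr rfl fun i _ => ?_
    rw [Ex_sum]
    refine Finset.sum_congr rfl fun j _ => ?_
    rw [Ex_sum]
    refine Finset.sum_congr rfl fun k _ => ?_
    rw [Ex_sum]
    refine Finset.sum_congr rfl fun l _ => ?_
    rw [Ex_mul_left, avg_four]
  rw [h2]
  have s1 : ∑ i, ∑ j, ∑ k, ∑ l, (a i * a j * (g k * g l)) *
      ((if i = j then (1 : ℝ) else 0) * (if k = l then 1 else 0)) = n2 a * n2 g := by
    unfold n2
    rw [Finset.sum_mul_sum]
    refine Finset.sum_congr rfl fun i _ => ?_
    simp only [mul_ite, mul_one, mul_zero, Finset.sum_ite_eq, Finset.mem_univ, if_true]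
    rw [Finset.sum_comm]
    refine Finset.sum_congr rfl fun k _ => ?_
    simp only [Finset.sum_ite_eq, Finset.mem_univ, if_true]
    ring
  have s2 : ∑ i, ∑ j, ∑ k, ∑ l, (a i * a j * (g k * g l)) *
      ((if i = k then (1 : ℝ) else 0) * (if j = l then 1 else 0)) = (∑ i, a i * g i) ^ 2 := by
    rw [sq, Finset.sum_mul_sum]
    refine Finset.sum_congr rfl fun i _ => Finset.sum_congr rfl fun j _ => ?_
    simp only [mul_ite, mul_one, mul_zero, Finset.sum_ite_eq, Finset.mem_univ, if_true]
    ring
  have s3 : ∑ i, ∑ j, ∑ k, ∑ l, (a i * a j * (g k * g l)) *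
      ((if i = l then (1 : ℝ) else 0) * (if j = k then 1 else 0)) = (∑ i, a i * g i) ^ 2 := by
    rw [sq, Finset.sum_mul_sum]
    refine Finset.sum_congr rfl fun i _ => Finset.sum_congr rfl fun j _ => ?_
    rw [Finset.sum_comm]
    simp only [mul_ite, mul_one, mul_zero, Finset.sum_ite_eq, Finset.mem_univ, if_true]
    ring
  have s4 : ∑ i, ∑ j, ∑ k, ∑ l, (a i * a j * (g k * g l)) *
      ((if i = j then (1 : ℝ) else 0) * ((if i = k then 1 else 0) * (if i = l then 1 else 0))) =
      ∑ i, a i ^ 2 * g i ^ 2 := by
    refine Finset.sum_congr rfl fun i _ => ?_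
    simp only [mul_ite, mul_one, mul_zero, Finset.sum_ite_eq, Finset.mem_univ, if_true]
    ring
  have e : ∑ i, ∑ j, ∑ k, ∑ l, (a i * a j * (g k * g l)) *
        ((if i = j then (1 : ℝ) else 0) * (if k = l then 1 else 0) +
        (if i = k then 1 else 0) * (if j = l then 1 else 0) +
        (if i = l then 1 else 0) * (if j = k then 1 else 0) -
        2 * ((if i = j then 1 else 0) * ((if i = k then 1 else 0) * (if i = l then 1 else 0)))) =
      ∑ i, ∑ j, ∑ k, ∑ l, (a i * a j * (g k * g l)) *
      ((if i = j then (1 : ℝ) else 0) * (if k = l then 1 else 0)) +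
      ∑ i, ∑ j, ∑ k, ∑ l, (a i * a j * (g k * g l)) *
      ((if i = k then (1 : ℝ) else 0) * (if j = l then 1 else 0)) +
      ∑ i, ∑ j, ∑ k, ∑ l, (a i * a j * (g k * g l)) *
      ((if i = l then (1 : ℝ) else 0) * (if j = k then 1 else 0)) -
      2 * ∑ i, ∑ j, ∑ k, ∑ l, (a i * a j * (g k * g l)) *
      ((if i = j then (1 : ℝ) else 0) * ((if i = k then 1 else 0) * (if i = l then 1 else 0))) := by
    simp only [Finset.mul_sum, ← Finset.sum_add_distrib, ← Finset.sum_sub_distrib]
    refine Finset.sum_congr rfl fun i _ => Finset.sum_congr rfl fun j _ =>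
      Finset.sum_congr rfl fun k _ => Finset.sum_congr rfl fun l _ => ?_
    ring
  rw [e, s1, s2, s3, s4]
  ring

/-- some sign vector realises the l1 norm -/
theorem exists_dt_eq (a : T → ℝ) : ∃ s : T → Bool, dt a s = ∑ i, |a i| := by
  classical
  refine ⟨fun i => decide (0 ≤ a i), ?_⟩
  unfold dt
  refine Finset.sum_congr rfl fun i _ => ?_
  by_cases h : 0 ≤ a i
  · simp [sg, h, abs_of_nonneg h]
  · push Not at h
    simp [sg, not_le.2 h, abs_of_neg h]

end BMP
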