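import Pool.Agent.BMP.Etype

/-! BMP Base: three independent facts used in the induction.

`base` (t = 1 block): `LL = (1/2) ∑_B W_B log(1 + W_B/θ)` (C = ∅ gives 0, C = univ gives `DD c C B = W_B = c_B^2` because
`B' b = B b` means `B' = B`), `≥ (1/2) [V log(1/θ) - 2 ∑_B c_B^2 log(1/|c_B|)]` and, by concavity of log with the weights `c_B^2/V`,
`∑ (c_B^2/V) log(1/|c_B|) ≤ log(∑ |c_B| / V) ≤ log(1/V)`, since `∑_B |c_B| ≤ 1` (choose the signs: `Bdd`, `exists_dt_eq`).
An elementary way: for every `a > 0` and every `r > 0`: `log a ≤ log r + a/r - 1`; use `a = 1/|c_B|`, `r = 1/V` :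
`c_B^2 log(1/|c_B|) ≤ c_B^2 (log(1/V) - 1) + V |c_B|`, and sum: `≤ V log(1/V) - V + V * 1`. If `V = 0` everything is `0`.
`Ex_jensen`: for `F, V ≥ 0`, `V = Ex F > 0`: `F log(1/F) ≤ F log(1/V) + V - F` (`log x ≤ x - 1` with `x = V/F`); average. `V = 0`: all `F = 0`.
`LL_le`: `DD_le` gives `LC θ c C ≤ VV c * log(1 + t M/θ)` for every `C` (log monotone, `DD_nonneg`); average over the `2^t` sets `C`. -/

namespace BMP

open Finset

private lemma sum_abs_le (ι X : Type) [Fintype ι] [DecidableEq ι] [Fintype X] [DecidableEq X]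
    (h1 : Fintype.card ι = 1) (c : (ι → X) → ℝ) (hc : Bdd c) : ∑ B : ι → X, |c B| ≤ 1 := by
  classical
  obtain ⟨b₀, hb₀⟩ := Fintype.card_eq_one_iff.1 h1
  let s : ι → X → Bool := fun _ x => decide (0 ≤ c (fun _ => x))
  have h2 : ev c s = ∑ B : ι → X, |c B| := by
    unfold ev
    refine Finset.sum_congr rfl fun B _ => ?_
    have h3 : ∏ b, sg (s b (B b)) = sg (s b₀ (B b₀)) := by
      have h4 : (Finset.univ : Finset ι) = {b₀} := by
        ext b
        simp [hb₀ b]
      rw [h4, Finset.prod_singleton]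
    have h5 : (fun _ => B b₀) = B := by
      funext b
      rw [hb₀ b]
    rw [h3]
    change c B * sg (decide (0 ≤ c (fun _ => B b₀))) = |c B|
    rw [h5]
    unfold sg
    by_cases h6 : 0 ≤ c B
    · simp [h6, abs_of_nonneg h6]
    · rw [abs_of_neg (not_le.1 h6)]
      simp [h6]
  rw [← h2]
  exact (le_abs_self _).trans (hc s)

private lemma ent_le (a V : ℝ) (hV : 0 < V) :
    a ^ 2 * Real.log (1 / |a|) ≤ a ^ 2 * (Real.log (1 / V) - 1) + V * |a| := by
  by_cases ha : a = 0
  · subst ha
    simp
  · have ha' : 0 < |a| := abs_pos.2 ha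
    have h1 : Real.log (V / |a|) ≤ V / |a| - 1 := Real.log_le_sub_one_of_pos (by positivity)
    have h2 : Real.log (1 / |a|) = Real.log (1 / V) + Real.log (V / |a|) := by
      rw [Real.log_div hV.ne' ha'.ne', Real.log_div one_ne_zero ha'.ne',
        Real.log_div one_ne_zero hV.ne', Real.log_one]
      ring
    rw [h2]
    have h3 : a ^ 2 = |a| * |a| := by rw [← sq, sq_abs]
    have h4 : a ^ 2 * (V / |a|) = V * |a| := by
      rw [h3]
      field_simp
    have h5 := mul_le_mul_of_nonneg_left h1 (sq_nonneg a)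
    rw [mul_sub, h4] at h5
    nlinarith

/-- base case: one block -/
theorem base (ι X : Type) [Fintype ι] [DecidableEq ι] [Fintype X] [DecidableEq X] (h1 : Fintype.card ι = 1)
    (c : (ι → X) → ℝ) (hc : Bdd c) (θ : ℝ) (hθ : 0 < θ) :
    (1 / 2) * (VV c * Real.log (1 / θ)) - VV c * Real.log (1 / VV c) ≤ LL θ c := by
  classical
  obtain ⟨b₀, hb₀⟩ := Fintype.card_eq_one_iff.1 h1
  have hsum : ∑ C : Finset ι, LC θ c C = LC θ c ∅ + LC θ c univ := by
    have h2 : (Finset.univ : Finset (Finset ι)) = {∅, univ} := by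
      ext C
      simp only [Finset.mem_univ, Finset.mem_insert, Finset.mem_singleton, true_iff]
      rcases C.eq_empty_or_nonempty with h | ⟨b, hb⟩
      · exact Or.inl h
      · right
        ext b'
        simp only [Finset.mem_univ, iff_true]
        rw [hb₀ b', ← hb₀ b]
        exact hb
    have h3 : (∅ : Finset ι) ≠ univ := by
      intro h
      have : b₀ ∈ (∅ : Finset ι) := by rw [h]; exact Finset.mem_univ _
      simp at this
    rw [h2, Finset.sum_pair h3]
  have hempty : LC θ c ∅ = 0 := by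
    unfold LC DD
    simp
  have hLL : LL θ c = LC θ c univ / 2 := by
    unfold LL
    rw [hsum, hempty, h1]
    simp
  have hlow : ∀ B : ι → X, c B ^ 2 * Real.log (1 / θ) - 2 * (c B ^ 2 * Real.log (1 / |c B|)) ≤
      c B ^ 2 * Real.log (1 + DD c univ B / θ) := by
    intro B
    by_cases hB : c B = 0
    · rw [hB]
      simp
    · have hB' : 0 < |c B| := abs_pos.2 hB
      have hsq : 0 < c B ^ 2 := by positivity
      have hD : c B ^ 2 ≤ DD c univ B := by
        unfold DD
        have h3 : (if (∃ b ∈ (univ : Finset ι), B b = B b) then c B ^ 2 else 0) = c B ^ 2 :=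
          if_pos ⟨b₀, Finset.mem_univ _, rfl⟩
        rw [← h3]
        refine Finset.single_le_sum (f := fun B' : ι → X =>
          if (∃ b ∈ (univ : Finset ι), B' b = B b) then c B' ^ 2 else 0) (fun B' _ => ?_)
          (Finset.mem_univ B)
        split_ifs
        · positivity
        · exact le_rfl
      have h4 : c B ^ 2 / θ ≤ 1 + DD c univ B / θ := by
        have := div_le_div_of_nonneg_right hD hθ.le
        linarith
      have h5 : Real.log (c B ^ 2 / θ) ≤ Real.log (1 + DD c univ B / θ) :=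
        Real.log_le_log (by positivity) h4
      have h6 : Real.log (c B ^ 2 / θ) = Real.log (1 / θ) - 2 * Real.log (1 / |c B|) := by
        rw [Real.log_div hsq.ne' hθ.ne', Real.log_div one_ne_zero hθ.ne',
          Real.log_div one_ne_zero hB'.ne', Real.log_one, Real.log_pow, Real.log_abs]
        push_cast
        ring
      rw [h6] at h5
      have h7 := mul_le_mul_of_nonneg_left h5 hsq.le
      linarith
  have hLC : VV c * Real.log (1 / θ) - 2 * ∑ B : ι → X, c B ^ 2 * Real.log (1 / |c B|) ≤
      LC θ c univ := by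
    have h8 := Finset.sum_le_sum fun (B : ι → X) (_ : B ∈ Finset.univ) => hlow B
    rw [Finset.sum_sub_distrib, ← Finset.sum_mul, ← Finset.mul_sum] at h8
    exact h8
  have hV0 : 0 ≤ VV c := Finset.sum_nonneg fun B _ => sq_nonneg _
  have hent : ∑ B : ι → X, c B ^ 2 * Real.log (1 / |c B|) ≤ VV c * Real.log (1 / VV c) := by
    rcases hV0.eq_or_lt with h0 | hV
    · have h9 : ∀ B : ι → X, c B ^ 2 = 0 := by
        intro B
        exact (Finset.sum_eq_zero_iff_of_nonneg (fun B _ => sq_nonneg (c B))).1 h0.symm B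
          (Finset.mem_univ B)
      rw [← h0]
      simp [h9]
    · have h9 := Finset.sum_le_sum fun (B : ι → X) (_ : B ∈ Finset.univ) => ent_le (c B) (VV c) hV
      rw [Finset.sum_add_distrib, ← Finset.sum_mul, ← Finset.mul_sum] at h9
      have h10 := mul_le_mul_of_nonneg_left (sum_abs_le ι X h1 c hc) hV.le
      have h11 : ∑ B : ι → X, c B ^ 2 = VV c := rfl
      rw [h11] at h9
      linarith
  rw [hLL]
  linarith

private lemma Ex_const {T : Type} [Fintype T] [DecidableEq T] (V : ℝ) :
    Ex (fun _ : T → Bool => V) = V := by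
  unfold Ex
  rw [Finset.sum_const, Finset.card_univ, Fintype.card_fun, Fintype.card_bool, nsmul_eq_mul]
  push_cast
  field_simp

/-- Jensen for the concave functions `V log (1/V)` -/
theorem Ex_jensen {T : Type} [Fintype T] [DecidableEq T] (F : (T → Bool) → ℝ) (h0 : ∀ s, 0 ≤ F s) :
    Ex (fun s => F s * Real.log (1 / F s)) ≤ Ex F * Real.log (1 / Ex F) := by
  have hV0 : 0 ≤ Ex F := div_nonneg (Finset.sum_nonneg fun s _ => h0 s) (by positivity)
  rcases hV0.eq_or_lt with hV | hV
  · have h1 : ∑ s, F s = 0 := by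
      have h2 : (∑ s, F s) / 2 ^ (Fintype.card T) = 0 := hV.symm
      rcases div_eq_zero_iff.1 h2 with h | h
      · exact h
      · exact absurd h (by positivity)
    have h3 : ∀ s, F s = 0 := fun s =>
      (Finset.sum_eq_zero_iff_of_nonneg (fun s _ => h0 s)).1 h1 s (Finset.mem_univ s)
    rw [← hV]
    unfold Ex
    simp [h3]
  · have hpt : ∀ s, F s * Real.log (1 / F s) ≤ F s * (Real.log (1 / Ex F) - 1) + Ex F := by
      intro s
      rcases (h0 s).eq_or_lt with h | h
      · rw [← h]
        simpa using hV.le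
      · have h1 : Real.log (Ex F / F s) ≤ Ex F / F s - 1 :=
          Real.log_le_sub_one_of_pos (by positivity)
        have h2 : Real.log (1 / F s) = Real.log (1 / Ex F) + Real.log (Ex F / F s) := by
          rw [Real.log_div hV.ne' h.ne', Real.log_div one_ne_zero h.ne',
            Real.log_div one_ne_zero hV.ne', Real.log_one]
          ring
        have h3 := mul_le_mul_of_nonneg_left h1 h.le
        have h4 : F s * (Ex F / F s) = Ex F := by field_simp
        rw [mul_sub, h4] at h3
        rw [h2]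
        linarith
    have h5 : Ex (fun s => F s * Real.log (1 / F s)) ≤
        Ex (fun s => F s * (Real.log (1 / Ex F) - 1) + Ex F) := by
      unfold Ex
      refine div_le_div_of_nonneg_right (Finset.sum_le_sum fun s _ => hpt s) (by positivity)
    refine h5.trans (le_of_eq ?_)
    have h6 : Ex (fun s => F s * (Real.log (1 / Ex F) - 1) + Ex F) =
        Ex F * (Real.log (1 / Ex F) - 1) + Ex (fun _ : T → Bool => Ex F) := by
      obtain ⟨L, hL⟩ : ∃ L, L = Real.log (1 / Ex F) - 1 := ⟨_, rfl⟩
      obtain ⟨V, hVe⟩ : ∃ V, V = Ex F := ⟨_, rfl⟩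
      rw [← hL, ← hVe]
      rw [show V * L = (∑ s, F s) / 2 ^ (Fintype.card T) * L by rw [hVe]; rfl]
      unfold Ex
      rw [Finset.sum_add_distrib, ← Finset.sum_mul]
      ring
    rw [h6, Ex_const]
    ring

theorem LL_le (ι X : Type) [Fintype ι] [DecidableEq ι] [Fintype X] [DecidableEq X]
    (c : (ι → X) → ℝ) (θ M : ℝ) (hθ : 0 < θ) (hM : ∀ b i, infl c b i ≤ M) :
    LL θ c ≤ VV c * Real.log (1 + Fintype.card ι * M / θ) := by
  have hLC : ∀ C : Finset ι, LC θ c C ≤ VV c * Real.log (1 + Fintype.card ι * M / θ) := by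
    intro C
    unfold LC VV
    rw [Finset.sum_mul]
    refine Finset.sum_le_sum fun B _ => ?_
    refine mul_le_mul_of_nonneg_left ?_ (sq_nonneg _)
    have h1 := DD_nonneg c C B
    have h2 := DD_le c M hM C B
    refine Real.log_le_log (by positivity) ?_
    have h3 := div_le_div_of_nonneg_right h2 hθ.le
    linarith
  unfold LL
  rw [div_le_iff₀ (by positivity)]
  refine (Finset.sum_le_sum fun C _ => hLC C).trans (le_of_eq ?_)
  rw [Finset.sum_const, Finset.card_univ, Fintype.card_finset, nsmul_eq_mul]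
  push_cast
  ring

end BMP
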