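import Mathlib

/-!
# Project BMP (helper94): polynomial Aaronson-Ambainis theorem for block-multilinear forms

Definitions.  Paper proof: /team-store/aa_bm2_helper94.md (and plog MP_f992e4_an).
All types are in `Type`.  `ι` = set of blocks, `X` = variables of one block (same for all blocks).
-/

namespace BMP

open Finset

/-- sign of a Boolean -/
def sg (s : Bool) : ℝ := if s then 1 else -1

/-- uniform average over the sign vectors indexed by `T` -/
noncomputable def Ex {T : Type} [Fintype T] [DecidableEq T] (F : (T → Bool) → ℝ) : ℝ :=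
  (∑ s : T → Bool, F s) / 2 ^ (Fintype.card T)

/-- scalar product of a real vector with a sign vector -/
def dt {T : Type} [Fintype T] (a : T → ℝ) (s : T → Bool) : ℝ := ∑ i, a i * sg (s i)

/-- squared Euclidean norm -/
def n2 {T : Type} [Fintype T] (a : T → ℝ) : ℝ := ∑ i, a i ^ 2

/-- the off-diagonal part of a matrix -/
def off {T : Type} [DecidableEq T] (N : Matrix T T ℝ) : Matrix T T ℝ :=
  fun i j => if i = j then 0 else N i j

/-- application of a matrix to a vector -/
def ap {T : Type} [Fintype T] (M : Matrix T T ℝ) (x : T → ℝ) : T → ℝ := fun i => ∑ j, M i j * x j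

/-- the quadratic form `⟨x, M x⟩` -/
def qd {T : Type} [Fintype T] (M : Matrix T T ℝ) (x : T → ℝ) : ℝ := ∑ i, ∑ j, x i * M i j * x j

section tensor

variable {ι X : Type} [Fintype ι] [DecidableEq ι] [Fintype X] [DecidableEq X]

/-- value of the block-multilinear form with coefficients `c` at the sign vector `s` -/
def ev (c : (ι → X) → ℝ) (s : ι → X → Bool) : ℝ := ∑ B : ι → X, c B * ∏ b, sg (s b (B b))

/-- the form is bounded by one on the cube -/
def Bdd (c : (ι → X) → ℝ) : Prop := ∀ s : ι → X → Bool, |ev c s| ≤ 1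

/-- variance `V = ∑ c_B^2` -/
def VV (c : (ι → X) → ℝ) : ℝ := ∑ B : ι → X, c B ^ 2

/-- influence of the variable `i` of block `b` -/
def infl (c : (ι → X) → ℝ) (b : ι) (i : X) : ℝ := ∑ B : ι → X, if B b = i then c B ^ 2 else 0

/-- mass of the monomials which share with `B` a variable of a block of `C` -/
def DD (c : (ι → X) → ℝ) (C : Finset ι) (B : ι → X) : ℝ :=
  ∑ B' : ι → X, if (∃ b ∈ C, B' b = B b) then c B' ^ 2 else 0

/-- mass of the monomials which share with `B` the variable of block `b` and no variable of a block of `C` -/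
def UU (c : (ι → X) → ℝ) (C : Finset ι) (b : ι) (B : ι → X) : ℝ :=
  ∑ B' : ι → X, if (B' b = B b ∧ ∀ j ∈ C, B' j ≠ B j) then c B' ^ 2 else 0

/-- log-popularity measured on the blocks of `C` -/
noncomputable def LC (θ : ℝ) (c : (ι → X) → ℝ) (C : Finset ι) : ℝ :=
  ∑ B : ι → X, c B ^ 2 * Real.log (1 + DD c C B / θ)

/-- the potential: average over all sets `C` of blocks -/
noncomputable def LL (θ : ℝ) (c : (ι → X) → ℝ) : ℝ :=
  (∑ C : Finset ι, LC θ c C) / 2 ^ (Fintype.card ι)

/-- insert the variable `i` in block `b` -/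
def ins (b : ι) (i : X) (A : {j // j ≠ b} → X) : ι → X := fun j => if h : j = b then i else A ⟨j, h⟩

/-- the vector `v_A = (c_{A+i})_i` of block `b` -/
def vA (c : (ι → X) → ℝ) (b : ι) (A : {j // j ≠ b} → X) : X → ℝ := fun i => c (ins b i A)

/-- the form after the variables of block `b` have been fixed to the signs `s` -/
def rev (c : (ι → X) → ℝ) (b : ι) (s : X → Bool) : ({j // j ≠ b} → X) → ℝ :=
  fun A => dt (vA c b A) s

/-- `A'` meets `A` in a block of `C` -/
def hitR (C : Finset ι) (b : ι) (A A' : {j // j ≠ b} → X) : Prop := ∃ j : {j // j ≠ b}, j.1 ∈ C ∧ A' j = A j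

instance (C : Finset ι) (b : ι) (A A' : {j // j ≠ b} → X) : Decidable (hitR C b A A') := by
  unfold hitR; infer_instance

/-- `1/(θ + D_C(B))` as a function of `B` -/
noncomputable def kp (θ : ℝ) (c : (ι → X) → ℝ) (C : Finset ι) (B : ι → X) : ℝ := 1 / (θ + DD c C B)

/-- the same number as a function of `A` (the coordinates of `B` outside block `b`), for `b ∉ C` -/
noncomputable def kA (θ : ℝ) (c : (ι → X) → ℝ) (C : Finset ι) (b : ι) (A : {j // j ≠ b} → X) : ℝ :=
  1 / (θ + ∑ A' : {j // j ≠ b} → X, if hitR C b A A' then n2 (vA c b A') else 0)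

/-- the quadratic form of the tensor product of the matrices `S b` -/
def QQ (S : ι → Matrix X X ℝ) (u : (ι → X) → ℝ) : ℝ :=
  ∑ B : ι → X, ∑ B' : ι → X, u B * u B' * ∏ b, S b (B b) (B' b)

end tensor

section corr

variable {X : Type} [Fintype X] [DecidableEq X]

/-- correlation matrix of a random sign vector -/
def IsCorr (S : Matrix X X ℝ) : Prop :=
  ∃ w : (X → Bool) → ℝ, (∀ s, 0 ≤ w s) ∧ ∑ s, w s = 1 ∧ ∀ i j, S i j = ∑ s, w s * (sg (s i) * sg (s j))

/-- limit of correlation matrices of random sign vectors -/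
def IsCorrLim (S : Matrix X X ℝ) : Prop :=
  ∃ Sm : ℕ → Matrix X X ℝ, (∀ m, IsCorr (Sm m)) ∧
    ∀ i j, Filter.Tendsto (fun m => Sm m i j) Filter.atTop (nhds (S i j))

end corr

/-! ### one block: a finite family `v A` of vectors and weights `κ A > 0` -/
section oneblock

variable {α X : Type} [Fintype α] [Fintype X] [DecidableEq X]

/-- the diagonal `P_i` -/
def PB (v : α → X → ℝ) (i : X) : ℝ := ∑ A, v A i ^ 2

/-- level of a coordinate: `4^(-m-1) < P_i ≤ 4^(-m)` -/
noncomputable def mL (v : α → X → ℝ) (i : X) : ℤ := - Int.clog 4 (PB v i)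

/-- level of a weight: `4^n ≤ k < 4^(n+1)` -/
noncomputable def nL (k : ℝ) : ℤ := Int.log 4 k

/-- Gram (coherence) matrix -/
def Gm (v : α → X → ℝ) : Matrix X X ℝ := fun i j => ∑ A, v A i * v A j

/-- normalised level-diagonal blocks of the coherence matrix -/
noncomputable def Gh (v : α → X → ℝ) : Matrix X X ℝ :=
  fun i j => if mL v i = mL v j then (4 : ℝ) ^ (mL v i) * Gm v i j else 0

/-- `x - R x` -/
def Qa (R : Matrix X X ℝ) (x : X → ℝ) : X → ℝ := fun i => x i - ap R x i

/-- `R` = projection on the large directions of `Gh v` -/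
structure IsClean (v : α → X → ℝ) (R : Matrix X X ℝ) : Prop where
  symm : ∀ i j, R i j = R j i
  idem : ∀ i j, ∑ k, R i k * R k j = R i j
  lev : ∀ i j, mL v i ≠ mL v j → R i j = 0
  big : ∀ x : X → ℝ, 2 * n2 (ap R x) ≤ qd (Gh v) (ap R x)
  small : ∀ x : X → ℝ, qd (Gh v) (Qa R x) ≤ 2 * n2 x
  contr : ∀ x : X → ℝ, qd (Gh v) (Qa R x) ≤ qd (Gh v) x

/-- cold part of `v A` -/
noncomputable def uC (v : α → X → ℝ) (κ : α → ℝ) (A : α) : X → ℝ :=
  fun i => if nL (κ A) ≤ mL v i + 1 then v A i else 0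

/-- cleaned cold part -/
noncomputable def zC (v : α → X → ℝ) (κ : α → ℝ) (R : Matrix X X ℝ) (A : α) : X → ℝ := Qa R (uC v κ A)

/-- mass in the large directions -/
noncomputable def ML (v : α → X → ℝ) (R : Matrix X X ℝ) : ℝ := ∑ A, n2 (ap R (v A))

/-- `∑ w_A κ_A z_A z_A^T` -/
noncomputable def NQ (v : α → X → ℝ) (κ : α → ℝ) (R : Matrix X X ℝ) (w : α → ℝ) : Matrix X X ℝ :=
  fun i j => ∑ A, w A * κ A * (zC v κ R A i * zC v κ R A j)

/-- `N^(n)` -/
noncomputable def NL (v : α → X → ℝ) (κ : α → ℝ) (R : Matrix X X ℝ) (n : ℤ) : Matrix X X ℝ :=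
  fun i j => ∑ A, if nL (κ A) = n then κ A * (zC v κ R A i * zC v κ R A j) else 0

/-- `T^Q` -/
noncomputable def TQ (v : α → X → ℝ) (κ : α → ℝ) (R : Matrix X X ℝ) : ℝ :=
  ∑ A, κ A * qd (off (fun i j => ∑ A', Qa R (v A') i * Qa R (v A') j)) (zC v κ R A)

/-- `q = ∑_n 4^(-n) |off N^(n)|^2` -/
noncomputable def qq (v : α → X → ℝ) (κ : α → ℝ) (R : Matrix X X ℝ) : ℝ :=
  ∑ n ∈ univ.image (fun A => nL (κ A)), (4 : ℝ) ^ (-n) * ∑ i, ∑ j, (off (NL v κ R n) i j) ^ 2

end oneblock

end BMP
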