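import Pool.Agent.BMP.Defs

/-! BMP Etype: for every monomial `B`, `∑_C ∑_{b ∉ C} min(1, U_b(C)/(θ+D(C))) ≤ 2 * 2^t`.

Proof. `D(C) + U_b(C) = D(insert b C)` for `b ∉ C` (split the `B'` with `B' b = B b`). For nonnegative U and positive T:
`min 1 (U/T) ≤ 2 U/(T+U)`. The map `(C,b) ↦ (insert b C, b)` is a bijection from `{(C,b): b ∉ C}` to
`{(C',b): b ∈ C'}` (inverse `C' ↦ C'.erase b`), and for every `C'`:
`∑_{b ∈ C'} U_b(C' \ {b}) ≤ D(C')`, because for every `B'` at most one `b ∈ C'` satisfies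
`B' b = B b ∧ ∀ j ∈ C'.erase b, B' j ≠ B j`, and then `∃ b ∈ C', B' b = B b`.
So the double sum is at most `∑_{C'} 2 D(C')/(θ + D(C')) ≤ 2 * 2^t`. -/

namespace BMP

open Finset

variable {ι X : Type} [Fintype ι] [DecidableEq ι] [Fintype X] [DecidableEq X]

private theorem et_DD_nonneg (c : (ι → X) → ℝ) (C : Finset ι) (B : ι → X) : 0 ≤ DD c C B := by
  refine Finset.sum_nonneg fun B' _ => ?_
  split_ifs
  · exact sq_nonneg _
  · exact le_rfl

private theorem et_UU_nonneg (c : (ι → X) → ℝ) (C : Finset ι) (b : ι) (B : ι → X) :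
    0 ≤ UU c C b B := by
  refine Finset.sum_nonneg fun B' _ => ?_
  split_ifs
  · exact sq_nonneg _
  · exact le_rfl

private theorem et_insert (c : (ι → X) → ℝ) (C : Finset ι) (b : ι) (B : ι → X) (hb : b ∉ C) :
    DD c (insert b C) B = DD c C B + UU c C b B := by
  unfold DD UU
  rw [← Finset.sum_add_distrib]
  refine Finset.sum_congr rfl fun B' _ => ?_
  by_cases h1 : ∃ j ∈ C, B' j = B j
  · have h2 : ¬ (B' b = B b ∧ ∀ j ∈ C, B' j ≠ B j) := by
      rintro ⟨-, h3⟩
      obtain ⟨j, hj, hj'⟩ := h1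
      exact h3 j hj hj'
    have h3 : ∃ j ∈ insert b C, B' j = B j := by
      obtain ⟨j, hj, hj'⟩ := h1
      exact ⟨j, Finset.mem_insert_of_mem hj, hj'⟩
    rw [if_pos h1, if_neg h2, if_pos h3, add_zero]
  · have h1' : ∀ j ∈ C, B' j ≠ B j := fun j hj hj' => h1 ⟨j, hj, hj'⟩
    by_cases h4 : B' b = B b
    · have h5 : ∃ j ∈ insert b C, B' j = B j := ⟨b, Finset.mem_insert_self b C, h4⟩
      have h6 : B' b = B b ∧ ∀ j ∈ C, B' j ≠ B j := ⟨h4, h1'⟩
      rw [if_neg h1, if_pos h5, if_pos h6, zero_add]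
    · have h5 : ¬ ∃ j ∈ insert b C, B' j = B j := by
        rintro ⟨j, hj, hj'⟩
        rcases Finset.mem_insert.1 hj with rfl | hj2
        · exact h4 hj'
        · exact h1' j hj2 hj'
      have h6 : ¬ (B' b = B b ∧ ∀ j ∈ C, B' j ≠ B j) := fun h7 => h4 h7.1
      rw [if_neg h1, if_neg h5, if_neg h6, add_zero]

private theorem et_min {U T : ℝ} (hU : 0 ≤ U) (hT : 0 < T) :
    min 1 (U / T) ≤ 2 * U / (T + U) := by
  have h1 : 0 < T + U := by linarith
  rw [le_div_iff₀ h1]
  rcases le_total T U with h2 | h2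
  · have h3 : min 1 (U / T) ≤ 1 := min_le_left _ _
    nlinarith
  · have h3 : min 1 (U / T) ≤ U / T := min_le_right _ _
    calc min 1 (U / T) * (T + U) ≤ U / T * (T + U) := mul_le_mul_of_nonneg_right h3 h1.le
      _ = U + U * (U / T) := by field_simp
      _ ≤ U + U * 1 := by
          have h4 : U / T ≤ 1 := (div_le_one hT).2 h2
          gcongr
      _ = 2 * U := by ring

private theorem et_reindex (f : Finset ι → ι → ℝ) :
    ∑ C : Finset ι, ∑ b ∈ Cᶜ, f (insert b C) b = ∑ C' : Finset ι, ∑ b ∈ C', f C' b := by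
  rw [Finset.sum_sigma', Finset.sum_sigma']
  refine Finset.sum_bij' (fun x _ => (⟨insert x.2 x.1, x.2⟩ : (_ : Finset ι) × ι))
    (fun x _ => (⟨x.1.erase x.2, x.2⟩ : (_ : Finset ι) × ι)) ?_ ?_ ?_ ?_ ?_
  · rintro ⟨C, b⟩ hx
    simp only [Finset.mem_sigma, Finset.mem_univ, true_and, Finset.mem_compl] at hx ⊢
    exact Finset.mem_insert_self b C
  · rintro ⟨C, b⟩ hx
    simp only [Finset.mem_sigma, Finset.mem_univ, true_and, Finset.mem_compl] at hx ⊢
    exact Finset.notMem_erase b C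
  · rintro ⟨C, b⟩ hx
    simp only [Finset.mem_sigma, Finset.mem_univ, true_and, Finset.mem_compl] at hx ⊢
    rw [Finset.erase_insert hx]
  · rintro ⟨C, b⟩ hx
    simp only [Finset.mem_sigma, Finset.mem_univ, true_and] at hx ⊢
    rw [Finset.insert_erase hx]
  · rintro ⟨C, b⟩ hx
    rfl

private theorem et_sum_UU (c : (ι → X) → ℝ) (C : Finset ι) (B : ι → X) :
    ∑ b ∈ C, UU c (C.erase b) b B ≤ DD c C B := by
  unfold UU
  rw [Finset.sum_comm]
  refine Finset.sum_le_sum fun B' _ => ?_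
  by_cases h : ∃ b ∈ C, (B' b = B b ∧ ∀ j ∈ C.erase b, B' j ≠ B j)
  · obtain ⟨b, hb, hb1, hb2⟩ := h
    have h5 : ∃ j ∈ C, B' j = B j := ⟨b, hb, hb1⟩
    have h6 : B' b = B b ∧ ∀ j ∈ C.erase b, B' j ≠ B j := ⟨hb1, hb2⟩
    rw [Finset.sum_eq_single_of_mem b hb, if_pos h6, if_pos h5]
    intro j hj hjb
    rw [if_neg]
    rintro ⟨h1, -⟩
    exact hb2 j (Finset.mem_erase.2 ⟨hjb, hj⟩) h1
  · rw [Finset.sum_eq_zero]
    · split_ifs
      · exact sq_nonneg _
      · exact le_rfl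
    · intro b hb
      rw [if_neg]
      exact fun h1 => h ⟨b, hb, h1⟩

theorem etype (θ : ℝ) (hθ : 0 < θ) (c : (ι → X) → ℝ) (B : ι → X) :
    ∑ C : Finset ι, ∑ b ∈ Cᶜ, min 1 (UU c C b B / (θ + DD c C B)) ≤ 2 * 2 ^ (Fintype.card ι) := by
  have hmin : ∀ C : Finset ι, ∀ b ∈ Cᶜ, min 1 (UU c C b B / (θ + DD c C B)) ≤
      2 * UU c ((insert b C).erase b) b B / (θ + DD c (insert b C) B) := by
    intro C b hb
    have hbC : b ∉ C := Finset.mem_compl.1 hb
    rw [Finset.erase_insert hbC, et_insert c C b B hbC]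
    exact by
      have h1 := et_min (et_UU_nonneg c C b B)
        (show 0 < θ + DD c C B by have := et_DD_nonneg c C B; linarith)
      rwa [add_assoc] at h1
  calc ∑ C : Finset ι, ∑ b ∈ Cᶜ, min 1 (UU c C b B / (θ + DD c C B))
      ≤ ∑ C : Finset ι, ∑ b ∈ Cᶜ,
        2 * UU c ((insert b C).erase b) b B / (θ + DD c (insert b C) B) :=
        Finset.sum_le_sum fun C _ => Finset.sum_le_sum fun b hb => hmin C b hb
    _ = ∑ C' : Finset ι, ∑ b ∈ C', 2 * UU c (C'.erase b) b B / (θ + DD c C' B) :=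
        et_reindex fun C' b => 2 * UU c (C'.erase b) b B / (θ + DD c C' B)
    _ ≤ ∑ _C' : Finset ι, (2 : ℝ) := by
        refine Finset.sum_le_sum fun C' _ => ?_
        have h1 := et_DD_nonneg c C' B
        have h2 : 0 < θ + DD c C' B := by linarith
        rw [← Finset.sum_div, ← Finset.mul_sum, div_le_iff₀ h2]
        have h3 := et_sum_UU c C' B
        linarith
    _ = 2 * 2 ^ (Fintype.card ι) := by
        rw [Finset.sum_const, Finset.card_univ, Fintype.card_finset, nsmul_eq_mul]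
        push_cast
        ring

/-- used in the corollary: `D_C(B) ≤ t M` -/
theorem DD_le (c : (ι → X) → ℝ) (M : ℝ) (hM : ∀ b i, infl c b i ≤ M) (C : Finset ι) (B : ι → X) :
    DD c C B ≤ Fintype.card ι * M := by
  calc DD c C B ≤ ∑ B' : ι → X, ∑ b, (if B' b = B b then c B' ^ 2 else 0) := by
        refine Finset.sum_le_sum fun B' _ => ?_
        split_ifs with h
        · obtain ⟨b, -, hb⟩ := h
          refine le_trans ?_ (Finset.single_le_sum
            (f := fun b => (if B' b = B b then c B' ^ 2 else 0)) ?_ (Finset.mem_univ b))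
          · simp only [if_pos hb]
            exact le_rfl
          · intro j _
            split_ifs
            · exact sq_nonneg _
            · exact le_rfl
        · refine Finset.sum_nonneg fun j _ => ?_
          split_ifs
          · exact sq_nonneg _
          · exact le_rfl
    _ = ∑ b, infl c b (B b) := Finset.sum_comm
    _ ≤ ∑ _b : ι, M := Finset.sum_le_sum fun b _ => hM b (B b)
    _ = Fintype.card ι * M := by
        rw [Finset.sum_const, Finset.card_univ, nsmul_eq_mul]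

/-- monotonicity in `C` -/
theorem DD_mono (c : (ι → X) → ℝ) (C C' : Finset ι) (h : C ⊆ C') (B : ι → X) :
    DD c C B ≤ DD c C' B := by
  refine Finset.sum_le_sum fun B' _ => ?_
  by_cases h1 : ∃ b ∈ C, B' b = B b
  · obtain ⟨b, hb, hb'⟩ := h1
    rw [if_pos ⟨b, hb, hb'⟩, if_pos ⟨b, h hb, hb'⟩]
  · rw [if_neg h1]
    split_ifs
    · exact sq_nonneg _
    · exact le_rfl

theorem DD_nonneg (c : (ι → X) → ℝ) (C : Finset ι) (B : ι → X) : 0 ≤ DD c C B := by
  exact et_DD_nonneg c C B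

theorem LC_mono (θ : ℝ) (hθ : 0 < θ) (c : (ι → X) → ℝ) (C C' : Finset ι) (h : C ⊆ C') :
    LC θ c C ≤ LC θ c C' := by
  refine Finset.sum_le_sum fun B _ => mul_le_mul_of_nonneg_left ?_ (sq_nonneg _)
  have h1 := DD_nonneg c C B
  have h2 := DD_mono c C C' h B
  refine Real.log_le_log (by positivity) ?_
  gcongr

end BMP
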