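import Pool.Agent.BMP.FactsA

/-! BMP Facts: elementary consequences of `IsClean v R` (one block), part B. `Q x = Qa R x = x - R x`.

* `qd_Gh_level`: if `x` lives on level `l` then `⟨x, Gh x⟩ = 4^l ∑_A ⟨x, v_A⟩^2`.
* `F3`: `∑_A (Q v_A)(i)^2 = ∑_A ⟨Q e_i, v_A⟩^2 = 4^(-m) ⟨Q e_i, Gh Q e_i⟩ ≤ 4^(-m) ⟨e_i, Gh e_i⟩ = P_i` (contr; `Q e_i` lives on level `m = mL v i`).
* `F2`: x on level l: `∑_A ⟨x, Q v_A⟩^2 = ∑_A ⟨Q x, v_A⟩^2 = 4^(-l) ⟨Qx, Gh Qx⟩ ≤ 4^(-l) 2 |x|^2` (small).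
* `F1`: `R_ii = |R e_i|^2 ≤ (1/2) ⟨R e_i, Gh R e_i⟩ = (1/2) 4^m ∑_A ⟨R e_i, v_A⟩^2 = (1/2) 4^m ∑_A (R v_A)(i)^2`; multiply by `4^(-m)`, sum over i.
* `cross`: `⟨x,Ox⟩ = ⟨Qx,OQx⟩ + 2⟨Rx,Ox⟩ - ⟨Rx,ORx⟩`, `2 rho η |Rx||Ox| ≤ (1/2) η^2 |Ox|^2 + 2 |Rx|^2`, `rho η |⟨Rx,ORx⟩| ≤ η K |Rx|^2 ≤ |Rx|^2`.
* `norm_of_qd`: polarization: `4⟨Ox,y⟩ = ⟨x+y,O(x+y)⟩ - ⟨x-y,O(x-y)⟩ ≤ 2K(|x|^2+|y|^2)`, take `y = t O x`. -/

namespace BMP

open Finset

variable {α X : Type} [Fintype α] [Fintype X] [DecidableEq X]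

variable (v : α → X → ℝ) (R : Matrix X X ℝ) (hR : IsClean v R)

include hR

omit hR in
theorem qd_Gh_level (l : ℤ) (x : X → ℝ) (hx : ∀ i, mL v i ≠ l → x i = 0) :
    qd (Gh v) x = (4 : ℝ) ^ l * ∑ A, (∑ i, x i * v A i) ^ 2 := by
  have h1 : ∀ i j, x i * Gh v i j * x j = (4 : ℝ) ^ l * ∑ A, (x i * v A i) * (x j * v A j) := by
    intro i j
    by_cases hi : mL v i = l
    · by_cases hj : mL v j = l
      · have : Gh v i j = (4 : ℝ) ^ l * ∑ A, v A i * v A j := by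
          simp [Gh, hi, hj, Gm]
        rw [this, Finset.mul_sum, Finset.mul_sum, Finset.mul_sum, Finset.sum_mul]
        refine Finset.sum_congr rfl fun A _ => by ring
      · simp [hx j hj]
    · simp [hx i hi]
  unfold qd
  simp only [h1]
  have h2 : ∀ A, (∑ i, x i * v A i) ^ 2 = ∑ i, ∑ j, (x i * v A i) * (x j * v A j) := by
    intro A
    rw [sq, Finset.sum_mul_sum]
  have e1 : ∀ i : X, ∑ j : X, ∑ A : α, (x i * v A i) * (x j * v A j) =
      ∑ A : α, ∑ j : X, (x i * v A i) * (x j * v A j) := by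
    intro i
    rw [Finset.sum_comm]
  have e2 : ∑ i : X, ∑ j : X, (4 : ℝ) ^ l * ∑ A : α, (x i * v A i) * (x j * v A j) =
      (4 : ℝ) ^ l * ∑ i : X, ∑ j : X, ∑ A : α, (x i * v A i) * (x j * v A j) := by
    rw [Finset.mul_sum]
    refine Finset.sum_congr rfl fun i _ => ?_
    rw [Finset.mul_sum]
  rw [e2]
  congr 1
  rw [Finset.sum_congr rfl fun i _ => e1 i, Finset.sum_comm]
  exact Finset.sum_congr rfl fun A _ => (h2 A).symm

omit [Fintype α] hR in
private theorem sum_single_mul (i : X) (y : X → ℝ) : ∑ j, (Pi.single i (1 : ℝ) : X → ℝ) j * y j = y i := by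
  rw [Finset.sum_eq_single i]
  · simp
  · intro b _ hb
    simp [Pi.single_eq_of_ne hb]
  · intro h
    exact absurd (Finset.mem_univ i) h

omit [Fintype α] hR in
private theorem ap_single (i j : X) : ap R (Pi.single i (1 : ℝ)) j = R j i := by
  unfold ap
  rw [Finset.sum_eq_single i]
  · simp
  · intro b _ hb
    simp [Pi.single_eq_of_ne hb]
  · intro h
    exact absurd (Finset.mem_univ i) h

private theorem Qa_level (l : ℤ) (x : X → ℝ) (hx : ∀ i, mL v i ≠ l → x i = 0) :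
    ∀ i, mL v i ≠ l → Qa R x i = 0 := by
  intro i hi
  have h1 : ap R x i = 0 := by
    unfold ap
    refine Finset.sum_eq_zero fun j _ => ?_
    by_cases hj : mL v j = l
    · rw [hR.lev i j (by rw [hj]; exact hi)]; ring
    · rw [hx j hj]; ring
  simp [Qa, hx i hi, h1]

omit hR in
private theorem single_level (i : X) : ∀ j, mL v j ≠ mL v i → (Pi.single i (1 : ℝ) : X → ℝ) j = 0 := by
  intro j hj
  have : j ≠ i := by rintro rfl; exact hj rfl
  simp [Pi.single_eq_of_ne this]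

theorem F3 (i : X) : ∑ A, Qa R (v A) i ^ 2 ≤ PB v i := by
  have hpos : (0 : ℝ) < (4 : ℝ) ^ (mL v i) := by positivity
  have e1 : ∀ A, Qa R (v A) i = ∑ j, Qa R (Pi.single i (1 : ℝ)) j * v A j := by
    intro A
    rw [← Qa_symm v R hR, sum_single_mul]
  have e2 := qd_Gh_level v (mL v i) (Qa R (Pi.single i (1 : ℝ)))
    (Qa_level v R hR (mL v i) _ (single_level v i))
  have e3 := qd_Gh_level v (mL v i) (Pi.single i (1 : ℝ)) (single_level v i)
  have e4 := hR.contr (Pi.single i (1 : ℝ))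
  rw [e2, e3] at e4
  have e5 := le_of_mul_le_mul_left e4 hpos
  simp only [sum_single_mul] at e5
  simp only [e1]
  exact e5

theorem F2 (l : ℤ) (x : X → ℝ) (hx : ∀ i, mL v i ≠ l → x i = 0) :
    (4 : ℝ) ^ l * ∑ A, (∑ i, x i * Qa R (v A) i) ^ 2 ≤ 2 * n2 x := by
  have e1 : ∀ A, ∑ i, x i * Qa R (v A) i = ∑ i, Qa R x i * v A i := fun A => Qa_symm v R hR x (v A)
  simp only [e1]
  rw [← qd_Gh_level v l (Qa R x) (Qa_level v R hR l x hx)]
  exact hR.small x

theorem R_diag (i : X) : R i i = ∑ j, R i j ^ 2 := by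
  rw [← hR.idem i i]
  refine Finset.sum_congr rfl fun j _ => ?_
  rw [hR.symm j i, sq]

theorem R_diag_le (i : X) : R i i ≤ 1 := by
  have h1 := R_diag v R hR i
  have h2 : R i i ^ 2 ≤ ∑ j, R i j ^ 2 :=
    Finset.single_le_sum (f := fun j => R i j ^ 2) (fun j _ => sq_nonneg _) (Finset.mem_univ i)
  rw [← h1] at h2
  by_contra hc
  push Not at hc
  nlinarith

theorem R_psd : R.PosSemidef := by
  have h1 : R = R.conjTranspose * R := by
    ext i j
    rw [Matrix.mul_apply]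
    simp only [Matrix.conjTranspose_apply, star_trivial]
    rw [← hR.idem i j]
    refine Finset.sum_congr rfl fun k _ => ?_
    rw [hR.symm i k]
  rw [h1]
  exact Matrix.posSemidef_conjTranspose_mul_self R

theorem F1 : ∑ i, (4 : ℝ) ^ (- mL v i) * R i i ≤ (1 / 2) * ML v R := by
  have h1 : ∀ i, (4 : ℝ) ^ (- mL v i) * R i i ≤ (1 / 2) * ∑ A, ap R (v A) i ^ 2 := by
    intro i
    have hpos : (0 : ℝ) < (4 : ℝ) ^ (mL v i) := by positivity
    have hl : ∀ j, mL v j ≠ mL v i → ap R (Pi.single i (1 : ℝ)) j = 0 := by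
      intro j hj
      rw [ap_single]
      exact hR.lev j i hj
    have e1 := hR.big (Pi.single i (1 : ℝ))
    rw [qd_Gh_level v (mL v i) _ hl] at e1
    have e2 : n2 (ap R (Pi.single i (1 : ℝ))) = R i i := by
      rw [R_diag v R hR i]
      unfold n2
      refine Finset.sum_congr rfl fun j _ => ?_
      rw [ap_single, hR.symm j i]
    have e3 : ∀ A, ∑ j, ap R (Pi.single i (1 : ℝ)) j * v A j = ap R (v A) i := by
      intro A
      rw [← sum_ap R hR.symm, sum_single_mul]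
    simp only [e2, e3] at e1
    have e4 : (4 : ℝ) ^ (- mL v i) * (4 : ℝ) ^ (mL v i) = 1 := by
      rw [← zpow_add₀ (by norm_num : (4 : ℝ) ≠ 0)]; simp
    have hpos' : (0 : ℝ) < (4 : ℝ) ^ (- mL v i) := by positivity
    have e5 := mul_le_mul_of_nonneg_left e1 hpos'.le
    rw [← mul_assoc ((4 : ℝ) ^ (- mL v i)) ((4 : ℝ) ^ (mL v i)), e4, one_mul] at e5
    linarith
  calc ∑ i, (4 : ℝ) ^ (- mL v i) * R i i ≤ ∑ i, (1 / 2) * ∑ A, ap R (v A) i ^ 2 :=
        Finset.sum_le_sum fun i _ => h1 i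
    _ = (1 / 2) * ML v R := by
        rw [← Finset.mul_sum]
        unfold ML n2
        rw [Finset.sum_comm]

omit [Fintype α] hR in
private theorem qd_eq_ap (O : Matrix X X ℝ) (x : X → ℝ) : qd O x = ∑ i, x i * ap O x i := by
  unfold qd ap
  refine Finset.sum_congr rfl fun i _ => ?_
  rw [Finset.mul_sum]
  refine Finset.sum_congr rfl fun j _ => by ring

omit [Fintype α] hR in
private theorem ap_comb (O : Matrix X X ℝ) (x y : X → ℝ) (t : ℝ) (i : X) :
    ap O (fun j => x j + t * y j) i = ap O x i + t * ap O y i := by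
  unfold ap
  rw [Finset.mul_sum, ← Finset.sum_add_distrib]
  refine Finset.sum_congr rfl fun j _ => by ring

omit [Fintype α] hR in
private theorem qd_comb (O : Matrix X X ℝ) (hO : ∀ i j, O i j = O j i) (x y : X → ℝ) (t : ℝ) :
    qd O (fun j => x j + t * y j) = qd O x + 2 * t * (∑ i, y i * ap O x i) + t ^ 2 * qd O y := by
  have h1 : ∑ i, x i * ap O y i = ∑ i, y i * ap O x i := by
    rw [sum_ap O hO]
    refine Finset.sum_congr rfl fun j _ => by ring
  rw [qd_eq_ap, qd_eq_ap, qd_eq_ap]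
  simp only [ap_comb]
  have h2 : ∑ i, (x i + t * y i) * (ap O x i + t * ap O y i) =
      ∑ i, x i * ap O x i + t * (∑ i, x i * ap O y i) + t * (∑ i, y i * ap O x i)
        + t ^ 2 * ∑ i, y i * ap O y i := by
    rw [Finset.mul_sum, Finset.mul_sum, Finset.mul_sum, ← Finset.sum_add_distrib,
      ← Finset.sum_add_distrib, ← Finset.sum_add_distrib]
    refine Finset.sum_congr rfl fun j _ => by ring
  rw [h2, h1]
  ring

omit [Fintype α] hR in
private theorem n2_comb (x y : X → ℝ) (t : ℝ) :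
    n2 (fun j => x j + t * y j) = n2 x + 2 * t * (∑ i, x i * y i) + t ^ 2 * n2 y := by
  unfold n2
  rw [Finset.mul_sum, Finset.mul_sum, ← Finset.sum_add_distrib, ← Finset.sum_add_distrib]
  refine Finset.sum_congr rfl fun j _ => by ring

omit [Fintype α] hR in
private theorem n2_nonneg' (x : X → ℝ) : 0 ≤ n2 x := Finset.sum_nonneg fun _ _ => sq_nonneg _

omit hR in
theorem norm_of_qd (O : Matrix X X ℝ) (hO : ∀ i j, O i j = O j i) (K : ℝ) (hK : 0 ≤ K)
    (h1 : ∀ x : X → ℝ, qd O x ≤ K * n2 x) (h2 : ∀ x : X → ℝ, - (K * n2 x) ≤ qd O x) (x : X → ℝ) :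
    n2 (ap O x) ≤ K ^ 2 * n2 x := by
  have key : ∀ t : ℝ, 4 * t * n2 (ap O x) ≤ 2 * K * (n2 x + t ^ 2 * n2 (ap O x)) := by
    intro t
    have a1 := h1 (fun j => x j + t * ap O x j)
    have a2 := h2 (fun j => x j + (-t) * ap O x j)
    rw [qd_comb O hO, n2_comb] at a1
    rw [qd_comb O hO, n2_comb] at a2
    have e : ∑ i, ap O x i * ap O x i = n2 (ap O x) := by
      unfold n2
      refine Finset.sum_congr rfl fun j _ => by ring
    rw [e] at a1 a2
    nlinarith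
  rcases hK.eq_or_lt with h0 | hpos
  · have := key 1
    rw [← h0] at this ⊢
    have := n2_nonneg' (ap O x)
    nlinarith
  · have k1 := key (1 / K)
    have k2 : 4 * (1 / K) * n2 (ap O x) * K = 4 * n2 (ap O x) := by field_simp
    have k3 : 2 * K * (n2 x + (1 / K) ^ 2 * n2 (ap O x)) * K = 2 * K ^ 2 * n2 x + 2 * n2 (ap O x) := by
      field_simp
    have k4 := mul_le_mul_of_nonneg_right k1 hpos.le
    rw [k2, k3] at k4
    linarith

theorem cross (O : Matrix X X ℝ) (hO : ∀ i j, O i j = O j i) (ρ η K : ℝ) (hρ0 : 0 ≤ ρ) (hρ1 : ρ ≤ 1)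
    (hη : 0 ≤ η) (hK0 : 0 ≤ K) (hηK : η * K ≤ 1) (hK : ∀ x : X → ℝ, n2 (ap O x) ≤ K ^ 2 * n2 x)
    (x : X → ℝ) :
    ρ * η * qd O (Qa R x) - 3 * n2 (ap R x) ≤ ρ * η * qd O x + (1 / 2) * η ^ 2 * n2 (ap O x) := by
  have e1 : qd O (Qa R x) = qd O x - 2 * (∑ i, ap R x i * ap O x i) + qd O (ap R x) := by
    have : Qa R x = fun j => x j + (-1) * ap R x j := by
      funext j; simp [Qa]; ring
    rw [this, qd_comb O hO]
    ring
  have e2 : qd O (ap R x) ≤ K * n2 (ap R x) := by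
    rw [qd_eq_ap]
    have c1 := Finset.sum_mul_sq_le_sq_mul_sq Finset.univ (ap R x) (ap O (ap R x))
    have c2 := hK (ap R x)
    have c3 := n2_nonneg' (ap R x)
    have c4 : (∑ i, ap R x i * ap O (ap R x) i) ^ 2 ≤ (K * n2 (ap R x)) ^ 2 := by
      refine c1.trans ?_
      have : (∑ i, ap R x i ^ 2) * (∑ i, ap O (ap R x) i ^ 2) ≤ n2 (ap R x) * (K ^ 2 * n2 (ap R x)) :=
        mul_le_mul_of_nonneg_left c2 c3
      refine this.trans (le_of_eq (by ring))
    exact le_of_abs_le (abs_le_of_sq_le_sq c4 (by positivity)) 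
  have e3 : -(2 * ρ * η * (∑ i, ap R x i * ap O x i)) ≤ 2 * n2 (ap R x) + (1 / 2) * η ^ 2 * n2 (ap O x) := by
    unfold n2
    rw [Finset.mul_sum, Finset.mul_sum, Finset.mul_sum, ← Finset.sum_neg_distrib, ← Finset.sum_add_distrib]
    refine Finset.sum_le_sum fun i _ => ?_
    have q1 : 0 ≤ (2 * ap R x i + η * ap O x i) ^ 2 := sq_nonneg _
    have q2 : 0 ≤ (2 * ap R x i - η * ap O x i) ^ 2 := sq_nonneg _
    have q3 : |η * (ap R x i * ap O x i)| ≤ ap R x i ^ 2 + (1 / 4) * η ^ 2 * ap O x i ^ 2 := by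
      rw [abs_le]; constructor <;> nlinarith
    have q4 : -(2 * ρ * η * (ap R x i * ap O x i)) ≤ 2 * (ρ * |η * (ap R x i * ap O x i)|) := by
      have := neg_abs_le (η * (ap R x i * ap O x i))
      nlinarith
    have q5 : ρ * |η * (ap R x i * ap O x i)| ≤ |η * (ap R x i * ap O x i)| := by
      have := abs_nonneg (η * (ap R x i * ap O x i))
      nlinarith
    linarith
  have e4 : ρ * η * qd O (ap R x) ≤ n2 (ap R x) := by
    have c3 := n2_nonneg' (ap R x)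
    have hρη : 0 ≤ ρ * η := mul_nonneg hρ0 hη
    calc ρ * η * qd O (ap R x) ≤ ρ * η * (K * n2 (ap R x)) := mul_le_mul_of_nonneg_left e2 hρη
      _ = ρ * ((η * K) * n2 (ap R x)) := by ring
      _ ≤ 1 * (1 * n2 (ap R x)) := by
          apply mul_le_mul hρ1 (mul_le_mul_of_nonneg_right hηK c3) (by positivity) (by norm_num)
      _ = n2 (ap R x) := by ring
  rw [e1]
  nlinarith

end BMP
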