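import Pool.Agent.BMP.Defs

/-! BMP FactsA: elementary consequences of `IsClean v R` (one block), part A. `Q x = Qa R x = x - R x`.

* levels: `PB_le`, `PB_gt` from `Int.self_le_zpow_clog`, `Int.zpow_pred_clog_lt_self`; `nL_le`, `lt_nL` from `Int.zpow_log_le_self`,
  `Int.lt_zpow_succ_log_self`.
* `Qa_symm`, `Qa_idem`, `ap_Qa` (R Q = 0), `n2_split`: R symmetric idempotent.
* `Qa_trunc`, `ap_trunc`: `R` does not mix levels, so `Q` and `R` commute with the restriction to a set of levels. Consequence `zC_eq`. -/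

namespace BMP

open Finset

variable {α X : Type} [Fintype α] [Fintype X] [DecidableEq X]

theorem nL_le (k : ℝ) (hk : 0 < k) : (4 : ℝ) ^ (nL k) ≤ k := by
  have h := Int.zpow_log_le_self (b := 4) (r := k) (by norm_num) hk
  simpa [nL] using h

theorem lt_nL (k : ℝ) : k < (4 : ℝ) ^ (nL k + 1) := by
  have h := Int.lt_zpow_succ_log_self (b := 4) (by norm_num) k
  simpa [nL] using h

theorem PB_le (v : α → X → ℝ) (i : X) : PB v i ≤ (4 : ℝ) ^ (- mL v i) := by
  have h := Int.self_le_zpow_clog (b := 4) (by norm_num) (PB v i)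
  simpa [mL] using h

theorem PB_gt (v : α → X → ℝ) (i : X) (h : 0 < PB v i) : (4 : ℝ) ^ (- mL v i - 1) < PB v i := by
  have h' := Int.zpow_pred_clog_lt_self (b := 4) (r := PB v i) (by norm_num) h
  simpa [mL] using h'

theorem PB_nonneg (v : α → X → ℝ) (i : X) : 0 ≤ PB v i := by
  exact Finset.sum_nonneg fun A _ => sq_nonneg _

theorem sum_ap (R : Matrix X X ℝ) (hs : ∀ i j, R i j = R j i) (x y : X → ℝ) :
    ∑ i, x i * ap R y i = ∑ i, ap R x i * y i := by
  simp only [ap, Finset.mul_sum, Finset.sum_mul]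
  rw [Finset.sum_comm]
  refine Finset.sum_congr rfl fun j _ => Finset.sum_congr rfl fun i _ => ?_
  rw [hs i j]
  ring

variable (v : α → X → ℝ) (R : Matrix X X ℝ) (hR : IsClean v R)

include hR

theorem ap_ap (x : X → ℝ) : ap R (ap R x) = ap R x := by
  funext i
  simp only [ap, Finset.mul_sum]
  rw [Finset.sum_comm]
  refine Finset.sum_congr rfl fun k _ => ?_
  rw [← hR.idem i k, Finset.sum_mul]
  refine Finset.sum_congr rfl fun j _ => ?_
  ring

theorem ap_Qa (x : X → ℝ) : ap R (Qa R x) = 0 := by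
  have h := congrFun (ap_ap v R hR x)
  funext i
  have h1 := h i
  simp only [ap, Qa, mul_sub, Finset.sum_sub_distrib, Pi.zero_apply] at h1 ⊢
  rw [h1, sub_self]

theorem Qa_idem (x : X → ℝ) : Qa R (Qa R x) = Qa R x := by
  have h := ap_Qa v R hR x
  funext i
  have h1 := congrFun h i
  rw [Pi.zero_apply] at h1
  change Qa R x i - ap R (Qa R x) i = Qa R x i
  rw [h1, sub_zero]

theorem Qa_symm (x y : X → ℝ) : ∑ i, x i * Qa R y i = ∑ i, Qa R x i * y i := by
  have h := sum_ap R hR.symm x y
  simp only [Qa, mul_sub, sub_mul, Finset.sum_sub_distrib]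
  rw [h]

theorem n2_split (x : X → ℝ) : n2 x = n2 (ap R x) + n2 (Qa R x) := by
  have h := sum_ap R hR.symm (Qa R x) x
  rw [ap_Qa v R hR x] at h
  simp only [Pi.zero_apply, zero_mul, Finset.sum_const_zero] at h
  have h2 : n2 x = n2 (ap R x) + n2 (Qa R x) + 2 * ∑ i, Qa R x i * ap R x i := by
    unfold n2
    rw [Finset.mul_sum, ← Finset.sum_add_distrib, ← Finset.sum_add_distrib]
    refine Finset.sum_congr rfl fun i _ => ?_
    unfold Qa
    ring
  rw [h2, h]
  ring

theorem Qa_trunc (p : ℤ → Prop) [DecidablePred p] (x : X → ℝ) (i : X) :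
    Qa R (fun j => if p (mL v j) then x j else 0) i = if p (mL v i) then Qa R x i else 0 := by
  have h : ∀ j, R i j * (if p (mL v j) then x j else 0) =
      if p (mL v i) then R i j * x j else 0 := by
    intro j
    by_cases hl : mL v i = mL v j
    · rw [hl]
      split_ifs <;> simp
    · rw [hR.lev i j hl]
      simp
  simp only [Qa, ap]
  rw [Finset.sum_congr rfl fun j _ => h j]
  split_ifs <;> simp

theorem ap_trunc (p : ℤ → Prop) [DecidablePred p] (x : X → ℝ) (i : X) :
    ap R (fun j => if p (mL v j) then x j else 0) i = if p (mL v i) then ap R x i else 0 := by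
  have h : ∀ j, R i j * (if p (mL v j) then x j else 0) =
      if p (mL v i) then R i j * x j else 0 := by
    intro j
    by_cases hl : mL v i = mL v j
    · rw [hl]
      split_ifs <;> simp
    · rw [hR.lev i j hl]
      simp
  simp only [ap]
  rw [Finset.sum_congr rfl fun j _ => h j]
  split_ifs <;> simp

theorem zC_eq (κ : α → ℝ) (A : α) (i : X) :
    zC v κ R A i = if nL (κ A) ≤ mL v i + 1 then Qa R (v A) i else 0 := by
  exact Qa_trunc v R hR (fun m => nL (κ A) ≤ m + 1) (v A) i

end BMP
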