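import Pool.Agent.BMP.Prop2
import Pool.Agent.BMP.Base

/-! BMP Ind: the induction on the number of blocks (Theorem 1) and the corollary.

`theorem1`: induction on `n`; `n = 0` is `base` (`HH 1 = 0`). Step, `t = n + 2` blocks: `prop2` gives
`LL θ c ≥ (1/t) ∑_b Ex LL θ (rev c b s) - (20000000/t) V (1+v)`; the induction hypothesis for `{j // j ≠ b}` (`n + 1` elements) and
`Bdd_rev`; `rev_avg`; `Ex_jensen` for `F s = VV (rev c b s)`, and `HH (n+2) = HH (n+1) + 1/(n+2)`.
`corollary`: `LL_le` with `θ = t M`: `LL ≤ V log 2`; divide `theorem1` by `V > 0`. -/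

namespace BMP

open Finset

/-- `H_t = ∑_{s=2}^t 1/s` -/
noncomputable def HH (t : ℕ) : ℝ := ∑ s ∈ Finset.Icc 2 t, 1 / (s : ℝ)

theorem HH_nonneg (t : ℕ) : 0 ≤ HH t :=
  Finset.sum_nonneg fun _ _ => by positivity

theorem HH_succ (n : ℕ) : HH (n + 2) = HH (n + 1) + 1 / ((n : ℝ) + 2) := by
  unfold HH
  rw [Finset.sum_Icc_succ_top (by omega)]
  push_cast
  ring

theorem theorem1 (n : ℕ) (X : Type) [Fintype X] [DecidableEq X] : ∀ (ι : Type) [Fintype ι] [DecidableEq ι],
    Fintype.card ι = n + 1 → ∀ (c : (ι → X) → ℝ), Bdd c → ∀ θ : ℝ, 0 < θ →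
    (1 / 2) * (VV c * Real.log (1 / θ)) - VV c * Real.log (1 / VV c)
      - 20000000 * HH (n + 1) * (VV c * (1 + Real.log (1 / VV c))) ≤ LL θ c := by
  induction n with
  | zero =>
    intro ι _ _ hι c hc θ hθ
    have h1 := base ι X hι c hc θ hθ
    have h2 : HH (0 + 1) = 0 := by simp [HH]
    rw [h2, mul_zero, zero_mul, sub_zero]
    exact h1
  | succ n ih =>
    intro ι _ _ hι c hc θ hθ
    set H := HH (n + 1) with hH
    have hH0 : 0 ≤ H := HH_nonneg _
    set V := VV c with hV
    set L := Real.log (1 / θ) with hL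
    have hb : ∀ b : ι, (1 / 2) * (V * L) - V * Real.log (1 / V)
        - 20000000 * H * (V * (1 + Real.log (1 / V))) ≤ Ex (fun s => LL θ (rev c b s)) := by
      intro b
      have hcard : Fintype.card {j // j ≠ b} = n + 1 := by
        rw [Fintype.card_subtype_compl, Fintype.card_subtype_eq, hι]
        omega
      have h1 : ∀ s : X → Bool, (1 / 2 * L - 20000000 * H) * VV (rev c b s) -
          (1 + 20000000 * H) * (VV (rev c b s) * Real.log (1 / VV (rev c b s))) ≤
          LL θ (rev c b s) := by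
        intro s
        have h2 := ih {j // j ≠ b} hcard (rev c b s) (Bdd_rev c hc b s) θ hθ
        refine le_trans (le_of_eq ?_) h2
        ring
      have h3 := Ex_mono _ _ h1
      rw [Ex_sub (fun s => (1 / 2 * L - 20000000 * H) * VV (rev c b s))
        (fun s => (1 + 20000000 * H) * (VV (rev c b s) * Real.log (1 / VV (rev c b s)))),
        Ex_mul_left _ (fun s => VV (rev c b s)),
        Ex_mul_left _ (fun s => VV (rev c b s) * Real.log (1 / VV (rev c b s))), rev_avg] at h3
      have h4 := Ex_jensen (fun s => VV (rev c b s)) (fun s =>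
        Finset.sum_nonneg fun _ _ => sq_nonneg _)
      rw [rev_avg] at h4
      have h5 : (1 + 20000000 * H) * Ex (fun s => VV (rev c b s) * Real.log (1 / VV (rev c b s))) ≤
          (1 + 20000000 * H) * (V * Real.log (1 / V)) := by
        apply mul_le_mul_of_nonneg_left h4
        positivity
      refine le_trans ?_ h3
      rw [← hV]
      linarith
    have h6 := prop2 c hc θ hθ
    rw [← hV, Finset.sum_sub_distrib, Finset.sum_const, Finset.card_univ, hι, nsmul_eq_mul] at h6
    have h7 : ((n + 1 + 1 : ℕ) : ℝ) * ((1 / 2) * (V * L) - V * Real.log (1 / V)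
        - 20000000 * H * (V * (1 + Real.log (1 / V)))) ≤ ∑ b, Ex (fun s => LL θ (rev c b s)) := by
      have h8 := Finset.sum_le_sum (s := (univ : Finset ι)) fun b _ => hb b
      rw [Finset.sum_const, Finset.card_univ, hι, nsmul_eq_mul] at h8
      exact h8
    have ht : (0 : ℝ) < ((n + 1 + 1 : ℕ) : ℝ) := by positivity
    have h9 : ((n + 1 + 1 : ℕ) : ℝ) * ((1 / 2) * (V * L) - V * Real.log (1 / V)
        - 20000000 * HH (n + 1 + 1) * (V * (1 + Real.log (1 / V)))) ≤
        ((n + 1 + 1 : ℕ) : ℝ) * LL θ c := by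
      have h10 : HH (n + 1 + 1) = H + 1 / ((n : ℝ) + 2) := HH_succ n
      have h11 : ((n + 1 + 1 : ℕ) : ℝ) = (n : ℝ) + 2 := by
        push_cast
        ring
      rw [h10]
      rw [h11] at h6 h7 ht ⊢
      have h12 : ((n : ℝ) + 2) * (1 / 2 * (V * L) - V * Real.log (1 / V) -
          20000000 * (H + 1 / ((n : ℝ) + 2)) * (V * (1 + Real.log (1 / V)))) =
          ((n : ℝ) + 2) * (1 / 2 * (V * L) - V * Real.log (1 / V) -
          20000000 * H * (V * (1 + Real.log (1 / V)))) -
          20000000 * (V * (1 + Real.log (1 / V))) := by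
        field_simp
        ring
      rw [h12]
      linarith
    exact le_of_mul_le_mul_left h9 ht

/-- COROLLARY: `log (1/M) ≤ log t + 2 log 2 + 2 v + 2 C0 H_t (1+v)` for `M ≥` all influences -/
theorem corollary (ι X : Type) [Fintype ι] [DecidableEq ι] [Fintype X] [DecidableEq X] (hι : 0 < Fintype.card ι)
    (c : (ι → X) → ℝ) (hc : Bdd c) (hV : 0 < VV c) (M : ℝ) (hM0 : 0 < M) (hM : ∀ b i, infl c b i ≤ M) :
    Real.log (1 / M) ≤ Real.log (Fintype.card ι) + 2 * Real.log 2 + 2 * Real.log (1 / VV c)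
      + 40000000 * HH (Fintype.card ι) * (1 + Real.log (1 / VV c)) := by
  obtain ⟨n, hn⟩ : ∃ n, Fintype.card ι = n + 1 := ⟨Fintype.card ι - 1, by omega⟩
  have ht : (0 : ℝ) < (Fintype.card ι : ℝ) := by exact_mod_cast hι
  have hθ : 0 < (Fintype.card ι : ℝ) * M := mul_pos ht hM0
  have h1 := theorem1 n X ι hn c hc _ hθ
  have h2 := LL_le ι X c _ M hθ hM
  rw [← hn] at h1
  have h3 : Real.log (1 + (Fintype.card ι : ℝ) * M / ((Fintype.card ι : ℝ) * M)) = Real.log 2 := by
    rw [div_self hθ.ne']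
    norm_num
  rw [h3] at h2
  have h4 : Real.log (1 / ((Fintype.card ι : ℝ) * M)) =
      Real.log (1 / M) - Real.log (Fintype.card ι) := by
    rw [one_div, one_div, Real.log_inv, Real.log_inv, Real.log_mul ht.ne' hM0.ne']
    ring
  rw [h4] at h1
  set V := VV c
  set H := HH (Fintype.card ι)
  set v := Real.log (1 / V)
  have h5 : V * ((1 / 2) * (Real.log (1 / M) - Real.log (Fintype.card ι)) - v -
      20000000 * H * (1 + v)) ≤ V * Real.log 2 := by
    refine le_trans (le_of_eq ?_) (h1.trans h2)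
    ring
  have h6 := le_of_mul_le_mul_left h5 hV
  linarith

end BMP
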