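import Pool.Agent.BMP.Avg

/-! BMP Ins: splitting off one block. Purely combinatorial.
`sum_ins`: the map `(A,i) ↦ ins b i A` is a bijection `({j // j ≠ b} → X) × X ≃ (ι → X)` (compare `Equiv.funSplitAt`).
`DD_ins`: for `b ∉ C`, `∃ j ∈ C, (ins b i' A') j = (ins b i A) j ↔ hitR C b A A'`; then sum over `i'`.
`rev_avg`: `VV (rev c b s) = ∑ A, dt (vA c b A) s ^ 2` and `Ex_dt_sq`, `sum_ins`.
`Bdd_rev`: `ev (rev c b s) s' = ev c s''` with `s'' b = s`, `s'' j = s' ⟨j, _⟩` (product over `ι` = factor at `b` times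
product over `{j // j ≠ b}`, e.g. `Fintype.prod_eq_mul_prod_subtype_ne`). -/

namespace BMP

open Finset

variable {ι X : Type} [Fintype ι] [DecidableEq ι] [Fintype X] [DecidableEq X]

theorem ins_same (b : ι) (i : X) (A : {j // j ≠ b} → X) : ins b i A b = i := by
  simp [ins]

theorem ins_ne (b : ι) (i : X) (A : {j // j ≠ b} → X) (j : {j // j ≠ b}) : ins b i A j.1 = A j := by
  unfold ins
  rw [dif_neg j.2]

theorem sum_ins (b : ι) (F : (ι → X) → ℝ) :
    ∑ B : ι → X, F B = ∑ A : {j // j ≠ b} → X, ∑ i : X, F (ins b i A) := by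
  have h1 : ∀ x : X × ({j // j ≠ b} → X), (Equiv.funSplitAt b X).symm x = ins b x.1 x.2 := by
    intro x
    rw [Equiv.symm_apply_eq]
    refine Prod.ext (ins_same b _ _).symm ?_
    funext j
    exact (ins_ne b _ _ j).symm
  rw [← Equiv.sum_comp (Equiv.funSplitAt b X).symm F, Fintype.sum_prod_type, Finset.sum_comm]
  exact Finset.sum_congr rfl fun A _ => Finset.sum_congr rfl fun i _ => by rw [h1]


private theorem ins_hit (C : Finset ι) (b : ι) (hb : b ∉ C) (i i' : X) (A A' : {j // j ≠ b} → X) :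
    (∃ j ∈ C, ins b i' A' j = ins b i A j) ↔ hitR C b A A' := by
  constructor
  · rintro ⟨j, hj, h⟩
    have hjb : j ≠ b := fun e => hb (e ▸ hj)
    refine ⟨⟨j, hjb⟩, hj, ?_⟩
    have h1 := ins_ne b i A ⟨j, hjb⟩
    have h2 := ins_ne b i' A' ⟨j, hjb⟩
    simp only at h1 h2
    rw [← h1, ← h2, h]
  · rintro ⟨j, hj, h⟩
    exact ⟨j.1, hj, by rw [ins_ne, ins_ne, h]⟩

theorem DD_ins (c : (ι → X) → ℝ) (C : Finset ι) (b : ι) (hb : b ∉ C) (i : X) (A : {j // j ≠ b} → X) :
    DD c C (ins b i A) = ∑ A' : {j // j ≠ b} → X, if hitR C b A A' then n2 (vA c b A') else 0 := by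
  unfold DD
  rw [sum_ins b]
  refine Finset.sum_congr rfl fun A' _ => ?_
  by_cases h : hitR C b A A'
  · rw [if_pos h]
    refine Finset.sum_congr rfl fun i' _ => ?_
    rw [if_pos ((ins_hit C b hb i i' A A').2 h)]
    rfl
  · rw [if_neg h]
    refine Finset.sum_eq_zero fun i' _ => ?_
    rw [if_neg fun h' => h ((ins_hit C b hb i i' A A').1 h')]

theorem kp_ins (θ : ℝ) (c : (ι → X) → ℝ) (C : Finset ι) (b : ι) (hb : b ∉ C) (i : X)
    (A : {j // j ≠ b} → X) : kp θ c C (ins b i A) = kA θ c C b A := by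
  unfold kp kA
  rw [DD_ins c C b hb i A]

theorem UU_ins (c : (ι → X) → ℝ) (C : Finset ι) (b : ι) (hb : b ∉ C) (i : X) (A : {j // j ≠ b} → X) :
    UU c C b (ins b i A) = ∑ A' : {j // j ≠ b} → X, if hitR C b A A' then 0 else vA c b A' i ^ 2 := by
  unfold UU
  rw [sum_ins b]
  refine Finset.sum_congr rfl fun A' _ => ?_
  by_cases h : hitR C b A A'
  · rw [if_pos h]
    refine Finset.sum_eq_zero fun i' _ => ?_
    rw [if_neg]
    rintro ⟨-, h2⟩
    obtain ⟨j, hj, h3⟩ := (ins_hit C b hb i i' A A').2 h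
    exact h2 j hj h3
  · rw [if_neg h, Finset.sum_eq_single i]
    · rw [if_pos]
      · rfl
      · refine ⟨by rw [ins_same, ins_same], fun j hj h3 => h ?_⟩
        exact (ins_hit C b hb i i A A').1 ⟨j, hj, h3⟩
    · intro i' _ hi'
      rw [if_neg]
      rintro ⟨h1, -⟩
      rw [ins_same, ins_same] at h1
      exact hi' h1
    · intro h1
      exact absurd (Finset.mem_univ i) h1

theorem VV_eq (c : (ι → X) → ℝ) (b : ι) : VV c = ∑ A : {j // j ≠ b} → X, n2 (vA c b A) := by
  unfold VV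
  rw [sum_ins b]
  rfl

theorem VV_rev (c : (ι → X) → ℝ) (b : ι) (s : X → Bool) :
    VV (rev c b s) = ∑ A : {j // j ≠ b} → X, dt (vA c b A) s ^ 2 := by
  rfl

theorem rev_avg (c : (ι → X) → ℝ) (b : ι) : Ex (fun s => VV (rev c b s)) = VV c := by
  rw [VV_eq c b]
  have h1 : (fun s => VV (rev c b s)) =
      fun s => ∑ A : {j // j ≠ b} → X, dt (vA c b A) s ^ 2 := by
    funext s
    exact VV_rev c b s
  rw [h1, Ex_sum]
  exact Finset.sum_congr rfl fun A _ => Ex_dt_sq _

theorem Bdd_rev (c : (ι → X) → ℝ) (hc : Bdd c) (b : ι) (s : X → Bool) : Bdd (rev c b s) := by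
  intro s'
  have h1 : ev (rev c b s) s' = ev c (fun j => if h : j = b then s else s' ⟨j, h⟩) := by
    unfold ev
    rw [sum_ins b]
    refine Finset.sum_congr rfl fun A _ => ?_
    show dt (vA c b A) s * _ = _
    unfold dt vA
    rw [Finset.sum_mul]
    refine Finset.sum_congr rfl fun i _ => ?_
    rw [Fintype.prod_eq_mul_prod_subtype_ne _ b]
    beta_reduce
    rw [dif_pos rfl, ins_same, mul_assoc]
    congr 2
    refine Finset.prod_congr rfl fun j _ => ?_
    rw [dif_neg j.2, ins_ne]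
  rw [h1]
  exact hc _

/-- influences in terms of the vectors of block `b` -/
theorem infl_eq (c : (ι → X) → ℝ) (b : ι) (i : X) : infl c b i = PB (vA c b) i := by
  unfold infl PB
  rw [sum_ins b]
  refine Finset.sum_congr rfl fun A _ => ?_
  rw [Finset.sum_eq_single i]
  · rw [if_pos (ins_same b i A)]
    rfl
  · intro i' _ hi'
    rw [if_neg]
    rw [ins_same]
    exact hi'
  · intro h1
    exact absurd (Finset.mem_univ i) h1

end BMP
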