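import Pool.Agent.BMP.JenA

/-! BMP Jen: operator Jensen inequality in the product eigenbasis.

Let `Y b = S b - 1`. `S b` is symmetric: spectral theorem (`Matrix.IsHermitian.spectral_theorem`, real case):
`S b i j = ∑ k, U b i k * s b k * U b j k`, `∑ k, U b i k * U b j k = if i = j then 1 else 0`
and `∑ i, U b i k * U b i l = if k = l then 1 else 0`.
`hY` gives `(s b k - 1)^2 ≤ 1/4` for every eigenvalue (apply it to the eigenvector), so `1/2 ≤ s b k`, hence
`log (s b k) ≥ (s b k - 1) - (s b k - 1)^2` (true for `s ≥ 1/2`).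
`QQ_expand` (module JenA) with `uh_J = ∑_B u_B ∏_b U b (B b) (J b)`: (1) `t = 1`: `VV u = ∑_J uh_J^2` (`QQ (fun _ => 1) u = VV u`, direct).
(2) `t = s`: `QQ S u = ∑_J (∏ s) uh_J^2`. (3) `t b' = 1` for `b' ≠ b`, `t b = g`, with `QQ_single`:
`∑_A qd (T b) (vA u b A) = ∑_J g (J b) uh_J^2`, `T b i j = ∑ k, U b i k * g k * U b j k`.
With `l_J = ∑_b log (s b (J b))` and `m = (∑_J uh_J^2 l_J)/VV u` : `exp l_J ≥ exp m * (1 + l_J - m)`, so
`1 ≥ QQ S u = ∑_J uh_J^2 exp l_J ≥ VV u * exp m`, i.e. `VV u * m ≤ VV u * log (1/VV u)`; and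
`VV u * m = ∑_b ∑_J uh_J^2 log (s b (J b)) ≥ ∑_b ∑_A (qd (Y b) v_A - n2 (ap (Y b) v_A))` by (3) with `g = (s-1) - (s-1)^2`.
If `VV u = 0` then `u = 0` and everything vanishes. -/

namespace BMP

open Finset

variable {ι X : Type} [Fintype ι] [DecidableEq ι] [Fintype X] [DecidableEq X]

private theorem log_low (s : ℝ) (hs : 1 / 2 ≤ s) : (s - 1) - (s - 1) ^ 2 ≤ Real.log s := by
  rcases le_or_gt 1 s with h1 | h1
  · have h0 : 0 < s := by linarith
    have h2 := Real.one_sub_inv_le_log_of_pos h0
    have h3 : (s - 1) - (s - 1) ^ 2 ≤ 1 - s⁻¹ := by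
      have h4 : 1 - s⁻¹ = (s - 1) / s := by field_simp
      rw [h4, le_div_iff₀ h0]
      nlinarith [mul_nonneg (sub_nonneg.2 h1) (sq_nonneg (s - 1))]
    linarith
  · set x : ℝ := 1 - s with hx
    have hx0 : 0 < x := by linarith
    have hx1 : x ≤ 1 / 2 := by linarith
    have habs : |x| < 1 := by rw [abs_of_pos hx0]; linarith
    have h2 := Real.abs_log_sub_add_sum_range_le habs 4
    have h3 := (abs_le.1 h2).1
    rw [abs_of_pos hx0] at h3
    simp only [Finset.sum_range_succ, Finset.sum_range_zero] at h3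
    have e1 : 1 - x = s := by rw [hx]; ring
    rw [e1] at h3
    have h5 : x ^ (4 + 1) / s ≤ 2 * x ^ 5 := by
      rw [div_le_iff₀ (by linarith)]
      have h5a : 0 < x ^ 5 := by positivity
      have h5b : x ^ (4 + 1) = x ^ 5 := by norm_num
      rw [h5b]
      nlinarith [mul_nonneg h5a.le (sub_nonneg.2 hs)]
    have h6 : x ^ 3 / 3 + x ^ 4 / 4 + 2 * x ^ 5 ≤ x ^ 2 / 2 := by
      have h7 : x / 3 + x ^ 2 / 4 + 2 * x ^ 3 ≤ 1 / 2 := by
        have h8 : x ^ 2 ≤ 1 / 4 := by nlinarith
        have h9 : x ^ 3 ≤ 1 / 8 := by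
          have : x ^ 3 = x * x ^ 2 := by ring
          rw [this]
          nlinarith
        linarith
      have h10 : 0 < x ^ 2 := by positivity
      nlinarith
    have e2 : (s - 1) - (s - 1) ^ 2 = -x - x ^ 2 := by rw [hx]; ring
    rw [e2]
    norm_num at h3
    linarith

private theorem spec_real (S : Matrix X X ℝ) (hsym : ∀ i j, S i j = S j i) :
    ∃ (U : Matrix X X ℝ) (s : X → ℝ), (∀ i j, S i j = ∑ k, U i k * s k * U j k) ∧
      (∀ i j, ∑ k, U i k * U j k = if i = j then 1 else 0) ∧
      (∀ k l, ∑ i, U i k * U i l = if k = l then 1 else 0) := by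
  have hH : S.IsHermitian := by
    ext i j
    simp [Matrix.conjTranspose_apply, hsym i j]
  refine ⟨(hH.eigenvectorUnitary : Matrix X X ℝ), hH.eigenvalues, ?_, ?_, ?_⟩
  · intro i j
    have h := hH.spectral_theorem
    rw [Unitary.conjStarAlgAut_apply] at h
    have h2 := congrFun (congrFun h i) j
    rw [h2, Matrix.mul_apply]
    refine Finset.sum_congr rfl fun k _ => ?_
    rw [Matrix.mul_diagonal, Matrix.star_apply]
    simp
  · intro i j
    have h := Unitary.mul_star_self hH.eigenvectorUnitary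
    have h1 : (hH.eigenvectorUnitary : Matrix X X ℝ) * star (hH.eigenvectorUnitary : Matrix X X ℝ) = 1 :=
      Unitary.coe_mul_star_self _
    have h2 := congrFun (congrFun h1 i) j
    rw [Matrix.mul_apply, Matrix.one_apply] at h2
    rw [← h2]
    refine Finset.sum_congr rfl fun k _ => ?_
    rw [Matrix.star_apply]
    simp
  · intro k l
    have h1 : star (hH.eigenvectorUnitary : Matrix X X ℝ) * (hH.eigenvectorUnitary : Matrix X X ℝ) = 1 :=
      Unitary.coe_star_mul_self _
    have h2 := congrFun (congrFun h1 k) l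
    rw [Matrix.mul_apply, Matrix.one_apply] at h2
    rw [← h2]
    refine Finset.sum_congr rfl fun i _ => ?_
    rw [Matrix.star_apply]
    simp

private theorem ap_sub_col (S U : Matrix X X ℝ) (s : X → ℝ)
    (h1 : ∀ i j, S i j = ∑ k, U i k * s k * U j k)
    (h3 : ∀ k l, ∑ i, U i k * U i l = if k = l then 1 else 0) (k : X) (i : X) :
    ap (S - 1) (fun j => U j k) i = (s k - 1) * U i k := by
  unfold ap
  have e1 : ∀ j, (S - 1) i j * U j k = (∑ l, U i l * s l * (U j l * U j k)) - (1 : Matrix X X ℝ) i j * U j k := by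
    intro j
    rw [Matrix.sub_apply, h1, sub_mul, Finset.sum_mul]
    congr 1
    exact Finset.sum_congr rfl fun l _ => by ring
  simp_rw [e1]
  rw [Finset.sum_sub_distrib, Finset.sum_comm]
  have e2 : ∀ l, ∑ j, U i l * s l * (U j l * U j k) = U i l * s l * (if l = k then 1 else 0) := by
    intro l
    rw [← Finset.mul_sum, h3]
  simp_rw [e2]
  simp [Matrix.one_apply]
  ring

private theorem eig_low (S U : Matrix X X ℝ) (s : X → ℝ)
    (hY : ∀ (x : X → ℝ), n2 (ap (S - 1) x) ≤ (1 / 4) * n2 x)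
    (h1 : ∀ i j, S i j = ∑ k, U i k * s k * U j k)
    (h3 : ∀ k l, ∑ i, U i k * U i l = if k = l then 1 else 0) (k : X) : 1 / 2 ≤ s k := by
  have h := hY (fun j => U j k)
  have e1 : n2 (fun j => U j k) = 1 := by
    unfold n2
    have := h3 k k
    rw [if_pos rfl] at this
    rw [← this]
    exact Finset.sum_congr rfl fun i _ => by ring
  have e2 : n2 (ap (S - 1) (fun j => U j k)) = (s k - 1) ^ 2 := by
    have e3 : ap (S - 1) (fun j => U j k) = fun i => (s k - 1) * U i k := by
      funext i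
      exact ap_sub_col S U s h1 h3 k i
    rw [e3]
    have : n2 (fun i => (s k - 1) * U i k) = (s k - 1) ^ 2 * n2 (fun j => U j k) := by
      unfold n2
      rw [Finset.mul_sum]
      exact Finset.sum_congr rfl fun i _ => by ring
    rw [this, e1, mul_one]
  rw [e1, e2] at h
  nlinarith

/-- matrix of the function `g` of the eigenvalues -/
private def TU (U : Matrix X X ℝ) (g : X → ℝ) : Matrix X X ℝ := fun i j => ∑ k, U i k * g k * U j k

private theorem qd_TU (U : Matrix X X ℝ) (g : X → ℝ) (x : X → ℝ) :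
    qd (TU U g) x = ∑ k, g k * (∑ i, x i * U i k) ^ 2 := by
  unfold qd TU
  have e1 : ∀ k, g k * (∑ i, x i * U i k) ^ 2 = ∑ i, ∑ j, x i * (U i k * g k * U j k) * x j := by
    intro k
    rw [sq, Finset.sum_mul_sum, Finset.mul_sum]
    refine Finset.sum_congr rfl fun i _ => ?_
    rw [Finset.mul_sum]
    exact Finset.sum_congr rfl fun j _ => by ring
  simp_rw [e1]
  calc ∑ i, ∑ j, x i * (∑ k, U i k * g k * U j k) * x j
      = ∑ i, ∑ j, ∑ k, x i * (U i k * g k * U j k) * x j := by
        refine Finset.sum_congr rfl fun i _ => Finset.sum_congr rfl fun j _ => ?_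
        rw [Finset.mul_sum, Finset.sum_mul]
    _ = ∑ i, ∑ k, ∑ j, x i * (U i k * g k * U j k) * x j :=
        Finset.sum_congr rfl fun i _ => Finset.sum_comm
    _ = ∑ k, ∑ i, ∑ j, x i * (U i k * g k * U j k) * x j := Finset.sum_comm

private theorem qd_sub_n2 (S U : Matrix X X ℝ) (s : X → ℝ)
    (h1 : ∀ i j, S i j = ∑ k, U i k * s k * U j k)
    (h2 : ∀ i j, ∑ k, U i k * U j k = if i = j then 1 else 0)
    (h3 : ∀ k l, ∑ i, U i k * U i l = if k = l then 1 else 0) (x : X → ℝ) :
    qd (S - 1) x - n2 (ap (S - 1) x) = qd (TU U (fun k => (s k - 1) - (s k - 1) ^ 2)) x := by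
  have eS : S - 1 = TU U (fun k => s k - 1) := by
    ext i j
    rw [Matrix.sub_apply, h1, Matrix.one_apply, ← h2 i j, ← Finset.sum_sub_distrib]
    unfold TU
    exact Finset.sum_congr rfl fun k _ => by ring
  have eA : ∀ i, ap (S - 1) x i = ∑ k, U i k * ((s k - 1) * ∑ j, x j * U j k) := by
    intro i
    rw [eS]
    unfold ap TU
    simp_rw [Finset.sum_mul]
    rw [Finset.sum_comm]
    refine Finset.sum_congr rfl fun k _ => ?_
    rw [Finset.mul_sum, Finset.mul_sum]
    exact Finset.sum_congr rfl fun j _ => by ring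
  have eN : n2 (ap (S - 1) x) = ∑ k, (s k - 1) ^ 2 * (∑ j, x j * U j k) ^ 2 := by
    unfold n2
    simp_rw [eA]
    have e4 : ∀ i, (∑ k, U i k * ((s k - 1) * ∑ j, x j * U j k)) ^ 2 =
        ∑ k, ∑ l, ((s k - 1) * ∑ j, x j * U j k) * ((s l - 1) * ∑ j, x j * U j l) * (U i k * U i l) := by
      intro i
      rw [sq, Finset.sum_mul_sum]
      exact Finset.sum_congr rfl fun k _ => Finset.sum_congr rfl fun l _ => by ring
    simp_rw [e4]
    rw [Finset.sum_comm]
    refine Finset.sum_congr rfl fun k _ => ?_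
    rw [Finset.sum_comm]
    have e5 : ∀ l, ∑ i, ((s k - 1) * ∑ j, x j * U j k) * ((s l - 1) * ∑ j, x j * U j l) * (U i k * U i l) =
        ((s k - 1) * ∑ j, x j * U j k) * ((s l - 1) * ∑ j, x j * U j l) * (if k = l then 1 else 0) := by
      intro l
      rw [← Finset.mul_sum, h3]
    simp_rw [e5]
    simp only [mul_ite, mul_one, mul_zero, Finset.sum_ite_eq, Finset.mem_univ, if_true]
    ring
  rw [eN]
  conv_lhs => rw [eS]
  rw [qd_TU, qd_TU, ← Finset.sum_sub_distrib]
  exact Finset.sum_congr rfl fun k _ => by ring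

theorem jensen (S : ι → Matrix X X ℝ) (hsym : ∀ b i j, S b i j = S b j i)
    (hY : ∀ b (x : X → ℝ), n2 (ap (S b - 1) x) ≤ (1 / 4) * n2 x)
    (u : (ι → X) → ℝ) (hQ : QQ S u ≤ 1) :
    ∑ b, ∑ A : {j // j ≠ b} → X, (qd (S b - 1) (vA u b A) - n2 (ap (S b - 1) (vA u b A))) ≤
      VV u * Real.log (1 / VV u) := by
  choose U s h1 h2 h3 using fun b => spec_real (S b) (hsym b)
  have hs : ∀ b k, 1 / 2 ≤ s b k := fun b k => eig_low (S b) (U b) (s b) (hY b) (h1 b) (h3 b) k
  set w : (ι → X) → ℝ := fun J => (∑ B : ι → X, u B * ∏ b, U b (B b) (J b)) ^ 2 with hw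
  have hw0 : ∀ J, 0 ≤ w J := fun J => sq_nonneg _
  -- total mass
  have hW : ∑ J, w J = VV u := by
    have e1 := QQ_expand U (fun _ _ => 1) (fun _ => 1) (fun b i j => by
      rw [Matrix.one_apply, ← h2 b i j]
      exact Finset.sum_congr rfl fun k _ => by ring) u
    have e2 : QQ (fun _ => (1 : Matrix X X ℝ)) u = VV u := by
      unfold QQ VV
      refine Finset.sum_congr rfl fun B _ => ?_
      rw [Finset.sum_eq_single B]
      · simp [sq]
      · intro B' _ hB
        obtain ⟨j, hj⟩ := Function.ne_iff.mp hB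
        rw [Finset.prod_eq_zero (Finset.mem_univ j), mul_zero]
        show (1 : Matrix X X ℝ) (B j) (B' j) = 0
        rw [Matrix.one_apply, if_neg (Ne.symm hj)]
      · intro h
        exact absurd (Finset.mem_univ B) h
    rw [← e2, e1]
    refine Finset.sum_congr rfl fun J _ => ?_
    simp [hw]
  have hQs : ∑ J, (∏ b, s b (J b)) * w J ≤ 1 := by
    have e1 := QQ_expand U s S h1 u
    rw [e1] at hQ
    exact hQ
  -- one block
  have hone : ∀ b, ∑ A : {j // j ≠ b} → X, (qd (S b - 1) (vA u b A) - n2 (ap (S b - 1) (vA u b A))) =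
      ∑ J, ((s b (J b) - 1) - (s b (J b) - 1) ^ 2) * w J := by
    intro b
    set g : X → ℝ := fun k => (s b k - 1) - (s b k - 1) ^ 2 with hg
    have e1 := QQ_expand U (fun b' => if b' = b then g else fun _ => 1)
      (fun b' => if b' = b then TU (U b) g else 1) (by
        intro b' i j
        by_cases hb : b' = b
        · subst hb
          simp only [if_pos]
          rfl
        · simp only [if_neg hb]
          rw [Matrix.one_apply, ← h2 b' i j]
          exact Finset.sum_congr rfl fun k _ => by ring) u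
    have e2 := QQ_single b (fun b' => if b' = b then TU (U b) g else 1)
      (fun b' hb' => by simp only [if_neg hb']) u
    rw [e2] at e1
    simp only [if_pos] at e1
    have e3 : ∀ A : {j // j ≠ b} → X, qd (S b - 1) (vA u b A) - n2 (ap (S b - 1) (vA u b A)) =
        qd (TU (U b) g) (vA u b A) := fun A =>
      qd_sub_n2 (S b) (U b) (s b) (h1 b) (h2 b) (h3 b) (vA u b A)
    simp_rw [e3]
    rw [e1]
    refine Finset.sum_congr rfl fun J _ => ?_
    have e4 : ∏ b', (if b' = b then g else fun _ => 1) (J b') = g (J b) := by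
      rw [Finset.prod_eq_single b]
      · simp
      · intro b' _ hb'
        simp [hb']
      · intro h
        exact absurd (Finset.mem_univ b) h
    rw [e4]
  simp_rw [hone]
  rw [Finset.sum_comm]
  set l : (ι → X) → ℝ := fun J => ∑ b, Real.log (s b (J b)) with hl
  have hstep : ∑ J, ∑ b, ((s b (J b) - 1) - (s b (J b) - 1) ^ 2) * w J ≤ ∑ J, w J * l J := by
    refine Finset.sum_le_sum fun J _ => ?_
    rw [← Finset.sum_mul, mul_comm]
    refine mul_le_mul_of_nonneg_left ?_ (hw0 J)
    exact Finset.sum_le_sum fun b _ => log_low _ (hs b (J b))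
  refine hstep.trans ?_
  have hexp : ∀ J, Real.exp (l J) = ∏ b, s b (J b) := by
    intro J
    rw [hl, Real.exp_sum]
    exact Finset.prod_congr rfl fun b _ => Real.exp_log (by linarith [hs b (J b)])
  rcases (Finset.sum_nonneg fun J _ => hw0 J : 0 ≤ ∑ J, w J).eq_or_lt with h0 | hpos
  · have hz : ∀ J, w J = 0 := by
      intro J
      have := (Finset.sum_eq_zero_iff_of_nonneg fun J _ => hw0 J).1 h0.symm J (Finset.mem_univ J)
      exact this
    rw [← hW, ← h0]
    simp [hz]
  · set W := ∑ J, w J with hWd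
    set m := (∑ J, w J * l J) / W with hm
    have hmW : ∑ J, w J * l J = W * m := by rw [hm]; field_simp
    have h5 : W * Real.exp m ≤ 1 := by
      calc W * Real.exp m = Real.exp m * (W + (∑ J, w J * l J) - m * W) := by rw [hmW]; ring
        _ = ∑ J, (Real.exp m * (1 + l J - m)) * w J := by
          rw [hWd, mul_comm m, Finset.sum_mul, ← Finset.sum_add_distrib, ← Finset.sum_sub_distrib,
            Finset.mul_sum]
          exact Finset.sum_congr rfl fun J _ => by ring
        _ ≤ ∑ J, (∏ b, s b (J b)) * w J := by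
          refine Finset.sum_le_sum fun J _ => mul_le_mul_of_nonneg_right ?_ (hw0 J)
          rw [← hexp J]
          have h6 : Real.exp (l J) = Real.exp m * Real.exp (l J - m) := by
            rw [← Real.exp_add]; congr 1; ring
          rw [h6]
          refine mul_le_mul_of_nonneg_left ?_ (Real.exp_pos m).le
          have := Real.add_one_le_exp (l J - m)
          linarith
        _ ≤ 1 := hQs
    have h7 : m ≤ Real.log (1 / W) := by
      rw [Real.le_log_iff_exp_le (by positivity)]
      rw [le_div_iff₀ hpos]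
      linarith [mul_comm W (Real.exp m)]
    rw [hmW, ← hW]
    exact mul_le_mul_of_nonneg_left h7 hpos.le

end BMP
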