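import Pool.Agent.BMP.Ins

/-! BMP JenA: expansion of the tensor quadratic form in a product basis.

`QQ_expand`: if `T b i j = ∑ k, U b i k * t b k * U b j k` then `QQ T u = ∑_J (∏_b t b (J b)) * uh_J^2` with
`uh_J = ∑_B u_B ∏_b U b (B b) (J b)` (`Finset.prod_univ_sum` / `Fintype.piFinset_univ` for `∏_b ∑_k`, exchange sums, `Finset.prod_mul_distrib`).
No orthogonality needed.
`QQ_single`: if `T b' = 1` for `b' ≠ b` then `QQ T u = ∑_A qd (T b) (vA u b A)` (`sum_ins` for both sums; the product over the other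
blocks is `1` if `A = A'` and `0` otherwise; `ins_same`, `ins_ne`, `Fintype.prod_eq_mul_prod_subtype_ne` or similar). -/

namespace BMP

open Finset

variable {ι X : Type} [Fintype ι] [DecidableEq ι] [Fintype X] [DecidableEq X]

theorem QQ_expand (U : ι → Matrix X X ℝ) (t : ι → X → ℝ) (T : ι → Matrix X X ℝ)
    (hT : ∀ b i j, T b i j = ∑ k, U b i k * t b k * U b j k) (u : (ι → X) → ℝ) :
    QQ T u = ∑ J : ι → X, (∏ b, t b (J b)) * (∑ B : ι → X, u B * ∏ b, U b (B b) (J b)) ^ 2 := by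
  have h1 : ∀ B B' : ι → X, ∏ b, T b (B b) (B' b) =
      ∑ J : ι → X, ∏ b, (U b (B b) (J b) * t b (J b) * U b (B' b) (J b)) := by
    intro B B'
    simp_rw [hT]
    rw [Finset.prod_univ_sum, Fintype.piFinset_univ]
  have h2 : QQ T u = ∑ B : ι → X, ∑ B' : ι → X, ∑ J : ι → X,
      (∏ b, t b (J b)) * ((u B * ∏ b, U b (B b) (J b)) * (u B' * ∏ b, U b (B' b) (J b))) := by
    unfold QQ
    refine Finset.sum_congr rfl fun B _ => Finset.sum_congr rfl fun B' _ => ?_
    rw [h1, Finset.mul_sum]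
    refine Finset.sum_congr rfl fun J _ => ?_
    rw [Finset.prod_mul_distrib, Finset.prod_mul_distrib]
    ring
  rw [h2]
  have h3 : ∀ B : ι → X, ∑ B' : ι → X, ∑ J : ι → X,
      (∏ b, t b (J b)) * ((u B * ∏ b, U b (B b) (J b)) * (u B' * ∏ b, U b (B' b) (J b))) =
      ∑ J : ι → X, ∑ B' : ι → X,
      (∏ b, t b (J b)) * ((u B * ∏ b, U b (B b) (J b)) * (u B' * ∏ b, U b (B' b) (J b))) :=
    fun B => Finset.sum_comm
  simp_rw [h3]
  rw [Finset.sum_comm]
  refine Finset.sum_congr rfl fun J _ => ?_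
  rw [sq, Finset.sum_mul_sum, Finset.mul_sum]
  refine Finset.sum_congr rfl fun B _ => ?_
  rw [Finset.mul_sum]

theorem QQ_single (b : ι) (T : ι → Matrix X X ℝ) (hT : ∀ b', b' ≠ b → T b' = 1) (u : (ι → X) → ℝ) :
    QQ T u = ∑ A : {j // j ≠ b} → X, qd (T b) (vA u b A) := by
  have hp : ∀ (A A' : {j // j ≠ b} → X) (i i' : X),
      ∏ j, T j (ins b i A j) (ins b i' A' j) = if A = A' then T b i i' else 0 := by
    intro A A' i i'
    rw [Fintype.prod_eq_mul_prod_subtype_ne _ b, ins_same, ins_same]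
    have h1 : ∀ j : {j // j ≠ b}, T j.1 (ins b i A j.1) (ins b i' A' j.1) =
        if A j = A' j then 1 else 0 := by
      intro j
      rw [hT j.1 j.2, ins_ne, ins_ne, Matrix.one_apply]
    simp_rw [h1]
    by_cases h : A = A'
    · subst h
      simp
    · rw [if_neg h]
      obtain ⟨j, hj⟩ := Function.ne_iff.mp h
      rw [Finset.prod_eq_zero (Finset.mem_univ j) (if_neg hj), mul_zero]
  unfold QQ
  rw [sum_ins b]
  refine Finset.sum_congr rfl fun A _ => ?_
  unfold qd
  refine Finset.sum_congr rfl fun i _ => ?_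
  rw [sum_ins b]
  simp_rw [hp]
  rw [Finset.sum_eq_single A]
  · refine Finset.sum_congr rfl fun i' _ => ?_
    rw [if_pos rfl]
    simp only [vA]
    ring
  · intro A' _ hA
    refine Finset.sum_eq_zero fun i' _ => ?_
    rw [if_neg (Ne.symm hA), mul_zero]
  · intro h
    exact absurd (Finset.mem_univ A) h

end BMP
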