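import Pool.Agent.BMP.Avg

/-! BMP Key: the pointwise inequality of helper46 and the drift of one block.

`key`: with `a = log R`: `z^2 (e^a - 1 - a) - 2 a z y + y^2 (6 + e^a - a) ≥ 0`, which follows from
`a^2 ≤ (e^a - 1 - a)(6 + e^a - a)` (discriminant): a ≥ 0: `e^a - 1 - a ≥ a^2/2` and `6 + e^a - a ≥ 7`;
`-1 ≤ a < 0`: `e^a - 1 - a ≥ a^2/3` and `6 + e^a - a ≥ 6`; `a < -1`: `e^a > 0`, and for `-1.2 ≤ a`, `e^a ≥ 0.3`.

`drift_one`: put `G s = ∑ k, dt (g k) s ^ 2`, `R = κ (θ + G)`, `κ = 1/(θ+τ)`, `τ = ∑ n2 (g k) = Ex G`.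
`dt (v) s = dt z s + dt y s`. By `key` the left side is at most
`Ex (dt z^2 (R - 1)) + 6 Ex (dt y^2) + Ex (dt y^2 R)`; by `Ex_dt_sq_mul`:
`Ex (dt z ^2 (R-1)) = 2 κ ∑ k ((∑ z g_k)^2 - ∑ z^2 g_k^2)` and
`Ex (dt y^2 R) = n2 y + 2 κ ∑ k ((∑ y g_k)^2 - ∑ y^2 g_k^2) ≤ n2 y + 2 κ τ n2 y ≤ 3 n2 y` (Cauchy-Schwarz). -/

namespace BMP

open Finset

private theorem sq_le_PS (a : ℝ) :
    a ^ 2 ≤ (Real.exp a - 1 - a) * (6 + Real.exp a - a) := by
  have hP0 : a + 1 ≤ Real.exp a := Real.add_one_le_exp a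
  rcases le_or_gt (-2) a with h | h
  · have h1 : a / 2 + 1 ≤ Real.exp (a / 2) := Real.add_one_le_exp (a / 2)
    have h2 : 0 ≤ a / 2 + 1 := by linarith
    have h3 : (a / 2 + 1) ^ 2 ≤ Real.exp (a / 2) ^ 2 := pow_le_pow_left₀ h2 h1 2
    have h4 : Real.exp (a / 2) ^ 2 = Real.exp a := by
      rw [← Real.exp_nat_mul]
      congr 1
      push_cast
      ring
    rw [h4] at h3
    have hP : a ^ 2 / 4 ≤ Real.exp a - 1 - a := by nlinarith
    have hP1 : 0 ≤ Real.exp a - 1 - a := by linarith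
    have h5 : (Real.exp a - 1 - a) * (6 + Real.exp a - a) =
        (Real.exp a - 1 - a) ^ 2 + 7 * (Real.exp a - 1 - a) := by ring
    rw [h5]
    nlinarith [sq_nonneg (Real.exp a - 1 - a), sq_nonneg a]
  · have hE : 0 < Real.exp a := Real.exp_pos a
    have h1 : -a - 1 ≤ Real.exp a - 1 - a := by linarith
    have h2 : 6 - a ≤ 6 + Real.exp a - a := by linarith
    have h3 : (-a - 1) * (6 - a) ≤ (Real.exp a - 1 - a) * (6 + Real.exp a - a) :=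
      mul_le_mul h1 h2 (by linarith) (by linarith)
    refine le_trans ?_ h3
    nlinarith

theorem key (R z y : ℝ) (hR : 0 < R) :
    (z + y) ^ 2 * Real.log R ≤ z ^ 2 * (R - 1) + 6 * y ^ 2 + y ^ 2 * R := by
  have hRe : Real.exp (Real.log R) = R := Real.exp_log hR
  have hd := sq_le_PS (Real.log R)
  have hS : 0 < 6 + R - Real.log R := by
    have := Real.add_one_le_exp (Real.log R)
    rw [hRe] at this
    linarith
  rw [hRe] at hd
  set a := Real.log R with ha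
  have h1 : (6 + R - a) * (z ^ 2 * (R - 1 - a) - 2 * a * z * y + y ^ 2 * (6 + R - a)) =
      ((6 + R - a) * y - a * z) ^ 2 + ((R - 1 - a) * (6 + R - a) - a ^ 2) * z ^ 2 := by ring
  have h2 : 0 ≤ (6 + R - a) * (z ^ 2 * (R - 1 - a) - 2 * a * z * y + y ^ 2 * (6 + R - a)) := by
    rw [h1]
    have h3 : 0 ≤ (R - 1 - a) * (6 + R - a) - a ^ 2 := by linarith
    positivity
  have h3 : 0 ≤ z ^ 2 * (R - 1 - a) - 2 * a * z * y + y ^ 2 * (6 + R - a) :=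
    nonneg_of_mul_nonneg_right h2 hS
  nlinarith

variable {K X : Type} [Fintype K] [Fintype X] [DecidableEq X]

private theorem n2_nonneg' (a : X → ℝ) : 0 ≤ n2 a := by
  unfold n2
  exact Finset.sum_nonneg fun i _ => sq_nonneg _

private theorem Ex_dt_sq_G (g : K → X → ℝ) (a : X → ℝ) :
    Ex (fun s => dt a s ^ 2 * ∑ k, dt (g k) s ^ 2) =
      ∑ k, (n2 a * n2 (g k) + 2 * ((∑ i, a i * g k i) ^ 2 - ∑ i, a i ^ 2 * g k i ^ 2)) := by
  have h1 : (fun s => dt a s ^ 2 * ∑ k, dt (g k) s ^ 2) =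
      (fun s => ∑ k ∈ (Finset.univ : Finset K), dt a s ^ 2 * dt (g k) s ^ 2) := by
    funext s
    rw [Finset.mul_sum]
  rw [h1, Ex_sum (Finset.univ : Finset K) (fun k s => dt a s ^ 2 * dt (g k) s ^ 2)]
  refine Finset.sum_congr rfl fun k _ => ?_
  exact Ex_dt_sq_mul a (g k)

theorem drift_one (g : K → X → ℝ) (θ : ℝ) (hθ : 0 < θ) (v z y : X → ℝ) (hv : ∀ i, v i = z i + y i) :
    Ex (fun s => dt v s ^ 2 * Real.log (1 / (θ + ∑ k, n2 (g k)) * (θ + ∑ k, dt (g k) s ^ 2))) ≤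
      2 * (1 / (θ + ∑ k, n2 (g k))) *
        ∑ k, ((∑ i, z i * g k i) ^ 2 - ∑ i, z i ^ 2 * g k i ^ 2) + 9 * n2 y := by
  have hτ : 0 ≤ ∑ k, n2 (g k) := Finset.sum_nonneg fun k _ => n2_nonneg' (g k)
  have hpos : 0 < θ + ∑ k, n2 (g k) := by linarith
  set τ := ∑ k, n2 (g k) with hτd
  set κ := 1 / (θ + τ) with hκ
  have hκ0 : 0 < κ := by rw [hκ]; positivity
  have hκ1 : κ * (θ + τ) = 1 := by rw [hκ]; field_simp
  have hdt : ∀ s, dt v s = dt z s + dt y s := by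
    intro s
    unfold dt
    rw [← Finset.sum_add_distrib]
    refine Finset.sum_congr rfl fun i _ => ?_
    rw [hv i]
    ring
  -- pointwise bound
  have hpt : ∀ s : X → Bool,
      dt v s ^ 2 * Real.log (κ * (θ + ∑ k, dt (g k) s ^ 2)) ≤
        κ * (dt z s ^ 2 * ∑ k, dt (g k) s ^ 2) - κ * τ * dt z s ^ 2 + (6 + κ * θ) * dt y s ^ 2 +
          κ * (dt y s ^ 2 * ∑ k, dt (g k) s ^ 2) := by
    intro s
    have hG : 0 ≤ ∑ k, dt (g k) s ^ 2 := Finset.sum_nonneg fun k _ => sq_nonneg _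
    have hR : 0 < κ * (θ + ∑ k, dt (g k) s ^ 2) := by positivity
    have hk := key (κ * (θ + ∑ k, dt (g k) s ^ 2)) (dt z s) (dt y s) hR
    rw [hdt s]
    refine hk.trans (le_of_eq ?_)
    have h1 : κ * θ = 1 - κ * τ := by linarith
    calc dt z s ^ 2 * (κ * (θ + ∑ k, dt (g k) s ^ 2) - 1) + 6 * dt y s ^ 2 +
          dt y s ^ 2 * (κ * (θ + ∑ k, dt (g k) s ^ 2))
        = dt z s ^ 2 * (κ * θ - 1) + κ * (dt z s ^ 2 * ∑ k, dt (g k) s ^ 2) + 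
          (6 + κ * θ) * dt y s ^ 2 + κ * (dt y s ^ 2 * ∑ k, dt (g k) s ^ 2) := by ring
      _ = _ := by rw [h1]; ring
  refine (Ex_mono _ _ hpt).trans ?_
  rw [Ex_add, Ex_add, Ex_sub, Ex_mul_left, Ex_mul_left, Ex_mul_left, Ex_mul_left, Ex_dt_sq_G,
    Ex_dt_sq_G, Ex_dt_sq, Ex_dt_sq]
  have hz : ∑ k, (n2 z * n2 (g k) + 2 * ((∑ i, z i * g k i) ^ 2 - ∑ i, z i ^ 2 * g k i ^ 2)) =
      n2 z * τ + 2 * ∑ k, ((∑ i, z i * g k i) ^ 2 - ∑ i, z i ^ 2 * g k i ^ 2) := by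
    rw [Finset.sum_add_distrib, ← Finset.mul_sum, ← Finset.mul_sum]
  have hy : ∑ k, (n2 y * n2 (g k) + 2 * ((∑ i, y i * g k i) ^ 2 - ∑ i, y i ^ 2 * g k i ^ 2)) ≤
      3 * (n2 y * τ) := by
    rw [hτd, Finset.mul_sum, Finset.mul_sum]
    refine Finset.sum_le_sum fun k _ => ?_
    have hcs : (∑ i, y i * g k i) ^ 2 ≤ n2 y * n2 (g k) := by
      unfold n2
      exact Finset.sum_mul_sq_le_sq_mul_sq Finset.univ y (g k)
    have hp : 0 ≤ ∑ i, y i ^ 2 * g k i ^ 2 := Finset.sum_nonneg fun i _ => by positivity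
    linarith
  rw [hz]
  have hny := n2_nonneg' y
  have h2 : κ * ∑ k, (n2 y * n2 (g k) + 2 * ((∑ i, y i * g k i) ^ 2 - ∑ i, y i ^ 2 * g k i ^ 2)) ≤
      κ * (3 * (n2 y * τ)) := mul_le_mul_of_nonneg_left hy hκ0.le
  have h3 : κ * (3 * (n2 y * τ)) = 3 * n2 y * (κ * τ) := by ring
  have h4 : κ * θ = 1 - κ * τ := by linarith
  have h5 : 0 ≤ κ * τ := by positivity
  have h6 : κ * τ ≤ 1 := by
    have : 0 ≤ κ * θ := by positivity
    linarith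
  have h7 : (6 + κ * θ) * n2 y = 7 * n2 y - (κ * τ) * n2 y := by rw [h4]; ring
  have h8 : (κ * τ) * n2 y ≤ n2 y := by nlinarith
  rw [h7]
  nlinarith

end BMP
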