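import Pool.Agent.BMP.Ins
import Pool.Agent.BMP.Etype

/-! BMP LLD: the drift of the potential `LL` for a fixed block `b`. `t = Fintype.card ι`.

(a) `LL θ c ≥ 2^-(t-1) ∑_{C ∌ b} LC θ c C` (`LC_mono`: pair `C` with `insert b C`).
(b) `LL θ (rev c b s) = 2^-(t-1) ∑_{C' : Finset {j // j ≠ b}} LC θ (rev c b s) C'`, `C'` = `C.subtype (· ≠ b)` for `C ∌ b` (bijection), and
   for `C ∌ b`: `LC θ (rev c b s) C' = ∑_A dt v_A s^2 * log(1 + (∑_A' if hitR C b A A' then dt v_A' s^2 else 0)/θ)`.
(c) for `b ∉ C`: `Ex LC θ (rev c b s) C' - LC θ c C = ∑_A Ex (dt v_A s^2 * log(κ_A (θ + ∑_hit dt v_A'^2)))`, `κ_A = kA θ c C b A`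
   (`log(1 + a/θ) - log(1 + τ/θ) = log((θ+a)/(θ+τ))`, `Ex dt^2 = n2`, `sum_ins`, `DD_ins`). -/

namespace BMP

open Finset

variable {ι X : Type} [Fintype ι] [DecidableEq ι] [Fintype X] [DecidableEq X]

omit [Fintype X] [DecidableEq X] in
private theorem lld_card (b : ι) :
    (2 : ℝ) ^ (Fintype.card ι) = 2 * 2 ^ (Fintype.card {j // j ≠ b}) := by
  have h : Fintype.card ι = Fintype.card {j // j ≠ b} + 1 := by
    rw [Fintype.card_subtype, Finset.filter_ne', Finset.card_erase_of_mem (Finset.mem_univ b),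
      Finset.card_univ, Nat.sub_add_cancel (Fintype.card_pos_iff.2 ⟨b⟩)]
  rw [h, pow_succ, mul_comm]

omit [Fintype X] [DecidableEq X] in
private theorem lld_reindex (b : ι) (g : Finset {j // j ≠ b} → ℝ) :
    ∑ C' : Finset {j // j ≠ b}, g C' =
      ∑ C ∈ (univ : Finset (Finset ι)).filter (fun C => b ∉ C),
        g (C.subtype (fun j => j ≠ b)) := by
  symm
  refine Finset.sum_bij' (fun C _ => C.subtype (fun j => j ≠ b))
    (fun C' _ => C'.map (Function.Embedding.subtype _)) ?_ ?_ ?_ ?_ ?_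
  · intro C _
    exact Finset.mem_univ _
  · intro C' _
    rw [Finset.mem_filter]
    refine ⟨Finset.mem_univ _, fun h => ?_⟩
    obtain ⟨j, -, hj⟩ := Finset.mem_map.1 h
    exact j.2 hj
  · intro C hC
    have hb := (Finset.mem_filter.1 hC).2
    rw [Finset.subtype_map, Finset.filter_eq_self]
    intro j hj hjb
    exact hb (hjb ▸ hj)
  · intro C' _
    ext j
    rw [Finset.mem_subtype, Finset.mem_map]
    constructor
    · rintro ⟨i, hi, hij⟩
      rwa [← Subtype.ext (show i.1 = j.1 from hij)]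
    · intro hj
      exact ⟨j, hj, rfl⟩
  · intro C _
    rfl

omit [Fintype X] [DecidableEq X] in
private theorem lld_split (b : ι) (g : Finset ι → ℝ) (hg : ∀ C, g C ≤ g (insert b C)) :
    2 * ∑ C ∈ (univ : Finset (Finset ι)).filter (fun C => b ∉ C), g C ≤ ∑ C : Finset ι, g C := by
  have h1 := Finset.sum_filter_add_sum_filter_not (univ : Finset (Finset ι)) (fun C => b ∉ C) g
  have h2 : ∑ C ∈ (univ : Finset (Finset ι)).filter (fun C => ¬ b ∉ C), g C =
      ∑ C ∈ (univ : Finset (Finset ι)).filter (fun C => b ∉ C), g (insert b C) := by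
    refine Finset.sum_bij' (fun C _ => C.erase b) (fun C _ => insert b C) ?_ ?_ ?_ ?_ ?_
    · intro C _
      rw [Finset.mem_filter]
      exact ⟨Finset.mem_univ _, Finset.notMem_erase b C⟩
    · intro C _
      rw [Finset.mem_filter]
      exact ⟨Finset.mem_univ _, fun h => h (Finset.mem_insert_self b C)⟩
    · intro C hC
      have hb := (Finset.mem_filter.1 hC).2
      rw [not_not] at hb
      exact Finset.insert_erase hb
    · intro C hC
      exact Finset.erase_insert (Finset.mem_filter.1 hC).2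
    · intro C hC
      have hb := (Finset.mem_filter.1 hC).2
      rw [not_not] at hb
      rw [Finset.insert_erase hb]
  rw [← h1, h2, two_mul]
  exact add_le_add_right (Finset.sum_le_sum fun C _ => hg C) _

private theorem lld_rev (c : (ι → X) → ℝ) (θ : ℝ) (b : ι) (C : Finset ι) (s : X → Bool) :
    LC θ (rev c b s) (C.subtype (fun j => j ≠ b)) =
      ∑ A : {j // j ≠ b} → X, dt (vA c b A) s ^ 2 *
        Real.log (1 + (∑ A' : {j // j ≠ b} → X,
          if hitR C b A A' then dt (vA c b A') s ^ 2 else 0) / θ) := by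
  unfold LC
  refine Finset.sum_congr rfl fun A _ => ?_
  have h1 : DD (rev c b s) (C.subtype (fun j => j ≠ b)) A = ∑ A' : {j // j ≠ b} → X,
      if hitR C b A A' then dt (vA c b A') s ^ 2 else 0 := by
    unfold DD
    refine Finset.sum_congr rfl fun A' _ => ?_
    have h2 : (∃ j ∈ C.subtype (fun j => j ≠ b), A' j = A j) ↔ hitR C b A A' := by
      unfold hitR
      exact exists_congr fun j => by rw [Finset.mem_subtype]
    by_cases h3 : hitR C b A A'
    · rw [if_pos h3, if_pos (h2.2 h3)]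
      rfl
    · rw [if_neg h3, if_neg fun h4 => h3 (h2.1 h4)]
  rw [h1]
  rfl

private theorem lld_LC (c : (ι → X) → ℝ) (θ : ℝ) (b : ι) (C : Finset ι) (hb : b ∉ C) :
    LC θ c C = ∑ A : {j // j ≠ b} → X, n2 (vA c b A) *
        Real.log (1 + (∑ A' : {j // j ≠ b} → X,
          if hitR C b A A' then n2 (vA c b A') else 0) / θ) := by
  unfold LC
  rw [sum_ins b]
  refine Finset.sum_congr rfl fun A _ => ?_
  rw [n2, Finset.sum_mul]
  refine Finset.sum_congr rfl fun i _ => ?_
  rw [DD_ins c C b hb]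
  rfl

private theorem lld_log {θ a τ : ℝ} (hθ : 0 < θ) (ha : 0 ≤ a) (hτ : 0 ≤ τ) :
    Real.log (1 + a / θ) - Real.log (1 + τ / θ) = Real.log (1 / (θ + τ) * (θ + a)) := by
  rw [← Real.log_div (by positivity) (by positivity)]
  congr 1
  field_simp

private theorem lld_drift (c : (ι → X) → ℝ) (θ : ℝ) (hθ : 0 < θ) (b : ι) (C : Finset ι)
    (hb : b ∉ C) :
    Ex (fun s => LC θ (rev c b s) (C.subtype (fun j => j ≠ b))) - LC θ c C =
      ∑ A : {j // j ≠ b} → X, Ex (fun s => dt (vA c b A) s ^ 2 *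
          Real.log (kA θ c C b A * (θ + ∑ A' : {j // j ≠ b} → X,
            if hitR C b A A' then dt (vA c b A') s ^ 2 else 0))) := by
  rw [lld_LC c θ b C hb]
  have h1 : (fun s => LC θ (rev c b s) (C.subtype (fun j => j ≠ b))) = fun s =>
      ∑ A : {j // j ≠ b} → X, dt (vA c b A) s ^ 2 *
        Real.log (1 + (∑ A' : {j // j ≠ b} → X,
          if hitR C b A A' then dt (vA c b A') s ^ 2 else 0) / θ) := by
    funext s
    exact lld_rev c θ b C s
  rw [h1, Ex_sum, ← Finset.sum_sub_distrib]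
  refine Finset.sum_congr rfl fun A _ => ?_
  rw [← Ex_dt_sq (vA c b A), mul_comm (Ex _), ← Ex_mul_left, ← Ex_sub]
  congr 1
  funext s
  have h2 : 0 ≤ ∑ A' : {j // j ≠ b} → X,
      (if hitR C b A A' then dt (vA c b A') s ^ 2 else 0) :=
    Finset.sum_nonneg fun A' _ => by
      split_ifs
      · exact sq_nonneg _
      · exact le_rfl
  have h3 : 0 ≤ ∑ A' : {j // j ≠ b} → X, (if hitR C b A A' then n2 (vA c b A') else 0) :=
    Finset.sum_nonneg fun A' _ => by
      split_ifs
      · exact Finset.sum_nonneg fun i _ => sq_nonneg _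
      · exact le_rfl
  rw [kA, ← lld_log hθ h2 h3]
  ring

/-- (a),(b),(c) for a fixed block -/
theorem LL_drift (c : (ι → X) → ℝ) (θ : ℝ) (hθ : 0 < θ) (b : ι) :
    Ex (fun s => LL θ (rev c b s)) - LL θ c ≤
      (2 / 2 ^ (Fintype.card ι)) * ∑ C ∈ (univ : Finset (Finset ι)).filter (fun C => b ∉ C),
        ∑ A : {j // j ≠ b} → X, Ex (fun s => dt (vA c b A) s ^ 2 *
          Real.log (kA θ c C b A * (θ + ∑ A' : {j // j ≠ b} → X, if hitR C b A A' then dt (vA c b A') s ^ 2 else 0))) := by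
  have h1 : ∑ C ∈ (univ : Finset (Finset ι)).filter (fun C => b ∉ C),
        ∑ A : {j // j ≠ b} → X, Ex (fun s => dt (vA c b A) s ^ 2 *
          Real.log (kA θ c C b A * (θ + ∑ A' : {j // j ≠ b} → X,
            if hitR C b A A' then dt (vA c b A') s ^ 2 else 0))) =
      ∑ C ∈ (univ : Finset (Finset ι)).filter (fun C => b ∉ C),
        Ex (fun s => LC θ (rev c b s) (C.subtype (fun j => j ≠ b))) -
      ∑ C ∈ (univ : Finset (Finset ι)).filter (fun C => b ∉ C), LC θ c C := by
    rw [← Finset.sum_sub_distrib]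
    exact Finset.sum_congr rfl fun C hC =>
      (lld_drift c θ hθ b C (Finset.mem_filter.1 hC).2).symm
  have h2 : Ex (fun s => LL θ (rev c b s)) =
      (∑ C ∈ (univ : Finset (Finset ι)).filter (fun C => b ∉ C),
        Ex (fun s => LC θ (rev c b s) (C.subtype (fun j => j ≠ b)))) /
        2 ^ (Fintype.card {j // j ≠ b}) := by
    rw [← Ex_sum, div_eq_inv_mul, ← Ex_mul_left]
    congr 1
    funext s
    rw [← div_eq_inv_mul, LL, lld_reindex b]
  have h3 := lld_split b (LC θ c) fun C =>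
    LC_mono θ hθ c C (insert b C) (Finset.subset_insert b C)
  have h4 := lld_card b
  rw [h1, h2, LL, h4]
  have h5 : (0 : ℝ) < 2 ^ (Fintype.card {j // j ≠ b}) := by positivity
  have h6 : (2 : ℝ) / (2 * 2 ^ (Fintype.card {j // j ≠ b})) =
      1 / 2 ^ (Fintype.card {j // j ≠ b}) := by
    field_simp
  rw [h6, mul_sub]
  have h7 : 1 / 2 ^ (Fintype.card {j // j ≠ b}) *
      ∑ C ∈ (univ : Finset (Finset ι)).filter (fun C => b ∉ C), LC θ c C ≤
      (∑ C : Finset ι, LC θ c C) / (2 * 2 ^ (Fintype.card {j // j ≠ b})) := by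
    rw [le_div_iff₀ (by positivity)]
    calc _ = 2 * ∑ C ∈ (univ : Finset (Finset ι)).filter (fun C => b ∉ C), LC θ c C := by
          field_simp
      _ ≤ _ := h3
  have h8 : (∑ C ∈ (univ : Finset (Finset ι)).filter (fun C => b ∉ C),
        Ex (fun s => LC θ (rev c b s) (C.subtype (fun j => j ≠ b)))) /
        2 ^ (Fintype.card {j // j ≠ b}) = 1 / 2 ^ (Fintype.card {j // j ≠ b}) *
      (∑ C ∈ (univ : Finset (Finset ι)).filter (fun C => b ∉ C),
        Ex (fun s => LC θ (rev c b s) (C.subtype (fun j => j ≠ b)))) := by ring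
  rw [h8]
  linarith

end BMP
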