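import Pool.Agent.BMP.Tilt
import Pool.Agent.BMP.Facts

/-! BMP MLb: total mass in the large directions.

`tilt` with `C = ∅`, `p = 1`, `pb = 1`, `N b = R b`, `d = K = 1`, `η = 1/21`, `D = 1/21 + 6/441 ≤ 1/10` (`R_psd`, `R_diag_le`, and
`norm_of_qd` with `K = 1`: `0 ≤ qd R x ≤ n2 x` since `qd R x = n2 (ap R x)`, and `0 ≤ ∑ R_ii x_i^2 ≤ n2 x`).
`∑_A qd (off R) v_A = ∑_A n2 (ap R v_A) - ∑_i R_ii P_i ≥ ML - ML/2` (`P_i ≤ 4^(-m_i)` and F1),
`∑_A ∑_i (∑_j off R_ij^2) v_A(i)^2 ≤ ∑_i R_ii P_i ≤ ML/2` (`R_diag`). So for every b the left side of `tilt` is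
`≥ (exp(-D)/42 - 4/441) ML ≥ ML/76`  (`exp(-D) ≥ 1 - D`). -/

namespace BMP

open Finset

variable {ι X : Type} [Fintype ι] [DecidableEq ι] [Fintype X] [DecidableEq X]

section block

variable {α : Type} [Fintype α] (v : α → X → ℝ) (R : Matrix X X ℝ)

omit [Fintype α] [DecidableEq X] in
private theorem mlb_n2_nonneg (x : X → ℝ) : 0 ≤ n2 x := Finset.sum_nonneg fun i _ => sq_nonneg _

private theorem mlb_qd (x : X → ℝ) (hR : IsClean v R) :
    qd (off R) x = n2 (ap R x) - ∑ i, R i i * x i ^ 2 := by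
  have h1 : qd R x = n2 (ap R x) := by
    have h2 := sum_ap R hR.symm x (ap R x)
    have h3 : qd R x = ∑ i, x i * ap R x i := by
      unfold qd ap
      refine Finset.sum_congr rfl fun i _ => ?_
      rw [Finset.mul_sum]
      exact Finset.sum_congr rfl fun j _ => mul_assoc _ _ _
    rw [h3]
    rw [ap_ap v R hR x] at h2
    rw [h2]
    unfold n2
    exact Finset.sum_congr rfl fun i _ => (sq _).symm
  rw [← h1, eq_sub_iff_add_eq]
  unfold qd
  rw [← Finset.sum_add_distrib]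
  refine Finset.sum_congr rfl fun i _ => ?_
  rw [← Finset.add_sum_erase _ _ (Finset.mem_univ i),
    ← Finset.add_sum_erase (f := fun j => x i * R i j * x j) _ (Finset.mem_univ i)]
  have h4 : ∑ j ∈ univ.erase i, x i * off R i j * x j = ∑ j ∈ univ.erase i, x i * R i j * x j := by
    refine Finset.sum_congr rfl fun j hj => ?_
    have hij : i ≠ j := (Finset.ne_of_mem_erase hj).symm
    unfold off
    rw [if_neg hij]
  rw [h4]
  have h5 : off R i i = 0 := by
    unfold off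
    rw [if_pos rfl]
  rw [h5]
  ring

private theorem mlb_diag_nonneg (hR : IsClean v R) (i : X) : 0 ≤ R i i := by
  rw [R_diag v R hR i]
  exact Finset.sum_nonneg fun j _ => sq_nonneg _

private theorem mlb_norm (hR : IsClean v R) (x : X → ℝ) :
    n2 (ap (off R) x) ≤ (1 : ℝ) ^ 2 * n2 x := by
  have hd : ∀ x : X → ℝ, 0 ≤ ∑ i, R i i * x i ^ 2 ∧ ∑ i, R i i * x i ^ 2 ≤ n2 x := by
    intro x
    constructor
    · exact Finset.sum_nonneg fun i _ => mul_nonneg (mlb_diag_nonneg v R hR i) (sq_nonneg _)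
    · refine Finset.sum_le_sum fun i _ => ?_
      have h1 := R_diag_le v R hR i
      nlinarith [sq_nonneg (x i)]
  have hn : ∀ x : X → ℝ, 0 ≤ n2 (ap R x) ∧ n2 (ap R x) ≤ n2 x := by
    intro x
    have h1 := n2_split v R hR x
    have h2 := mlb_n2_nonneg (Qa R x)
    exact ⟨mlb_n2_nonneg _, by linarith⟩
  refine norm_of_qd (off R) (fun i j => ?_) 1 zero_le_one (fun x => ?_) (fun x => ?_) x
  · unfold off
    by_cases h : i = j
    · rw [if_pos h, if_pos h.symm]
    · rw [if_neg h, if_neg (Ne.symm h)]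
      exact hR.symm i j
  · rw [mlb_qd v R x hR]
    linarith [(hd x).1, (hn x).2]
  · rw [mlb_qd v R x hR]
    linarith [(hd x).2, (hn x).1]

private theorem mlb_block (hR : IsClean v R) {E : ℝ} (hE : 414 / 441 ≤ E) :
    ML v R / 76 ≤ ∑ A, (E * (1 / 21) * qd (off R) (v A) +
      (1 / 2) * (1 / 21) ^ 2 * n2 (ap (off R) (v A)) -
      8 * (1 / 21) ^ 2 * ∑ i, (∑ j, off R i j ^ 2) * v A i ^ 2) := by
  have hML : 0 ≤ ML v R := Finset.sum_nonneg fun A _ => mlb_n2_nonneg _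
  obtain ⟨S, hS⟩ : ∃ S, S = ∑ i, R i i * PB v i := ⟨_, rfl⟩
  have hS1 : ∑ A, ∑ i, R i i * v A i ^ 2 = S := by
    rw [hS, Finset.sum_comm]
    refine Finset.sum_congr rfl fun i _ => ?_
    unfold PB
    rw [Finset.mul_sum]
  have hS2 : S ≤ ML v R / 2 := by
    have h1 := F1 v R hR
    have h2 : S ≤ ∑ i, (4 : ℝ) ^ (- mL v i) * R i i := by
      rw [hS]
      refine Finset.sum_le_sum fun i _ => ?_
      rw [mul_comm (R i i)]
      exact mul_le_mul_of_nonneg_right (PB_le v i) (mlb_diag_nonneg v R hR i)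
    linarith
  have h1 : ∑ A, qd (off R) (v A) = ML v R - S := by
    rw [← hS1]
    unfold ML
    rw [← Finset.sum_sub_distrib]
    exact Finset.sum_congr rfl fun A _ => mlb_qd v R (v A) hR
  have h2 : 0 ≤ ∑ A, n2 (ap (off R) (v A)) := Finset.sum_nonneg fun A _ => mlb_n2_nonneg _
  have h3 : ∑ A, ∑ i, (∑ j, off R i j ^ 2) * v A i ^ 2 ≤ S := by
    rw [← hS1]
    refine Finset.sum_le_sum fun A _ => Finset.sum_le_sum fun i _ => ?_
    refine mul_le_mul_of_nonneg_right ?_ (sq_nonneg _)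
    rw [R_diag v R hR i]
    refine Finset.sum_le_sum fun j _ => ?_
    unfold off
    by_cases h : i = j
    · rw [if_pos h]
      have := sq_nonneg (R i j)
      linarith
    · rw [if_neg h]
  rw [Finset.sum_sub_distrib, Finset.sum_add_distrib, ← Finset.mul_sum, ← Finset.mul_sum,
    ← Finset.mul_sum, h1]
  have h4 : 414 / 441 * (ML v R - S) ≤ E * (ML v R - S) :=
    mul_le_mul_of_nonneg_right hE (by linarith)
  nlinarith

end block

theorem ML_sum (c : (ι → X) → ℝ) (hc : Bdd c) (R : ι → Matrix X X ℝ)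
    (hR : ∀ b, IsClean (vA c b) (R b)) :
    ∑ b, ML (vA c b) (R b) ≤ 76 * (VV c * Real.log (1 / VV c)) := by
  obtain ⟨D, hD⟩ : ∃ D : ℝ, D = (1 / 21) * 1 + 6 * (1 / 21) ^ 2 * 1 ^ 2 := ⟨_, rfl⟩
  have hD1 : D = 27 / 441 := by rw [hD]; norm_num
  have h := tilt c hc ∅ (fun _ => 1) (fun _ => zero_le_one) (fun _ => le_refl 1)
    (fun _ _ _ => rfl) (fun _ _ => 1) (fun _ _ => zero_le_one) (fun _ _ _ _ => rfl) R
    (fun b _ => R_psd (vA c b) (R b) (hR b)) (1 / 21) 1 1 D (by norm_num) zero_le_one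
    (by norm_num) hD (by rw [hD1]; norm_num) (fun b _ i => R_diag_le (vA c b) (R b) (hR b) i)
    (fun b _ x => mlb_norm (vA c b) (R b) (hR b) x)
  simp only [one_mul, Finset.compl_empty] at h
  have hE : 414 / 441 ≤ Real.exp (-D) := by
    have := Real.add_one_le_exp (-D)
    rw [hD1] at this ⊢
    linarith
  have h1 : ∑ b, ML (vA c b) (R b) / 76 ≤ ∑ b, ∑ A, (Real.exp (-D) * (1 / 21) *
      qd (off (R b)) (vA c b A) + (1 / 2) * (1 / 21) ^ 2 * n2 (ap (off (R b)) (vA c b A)) -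
      8 * (1 / 21) ^ 2 * ∑ i, (∑ j, off (R b) i j ^ 2) * vA c b A i ^ 2) :=
    Finset.sum_le_sum fun b _ => mlb_block (vA c b) (R b) (hR b) hE
  have h2 : ∑ B, c B ^ 2 = VV c := rfl
  rw [h2] at h
  have h3 := h1.trans h
  rw [← Finset.sum_div] at h3
  linarith

end BMP
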