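import Pool.Agent.BMP.Facts

/-! BMP OB2: diagonal and norm of the matrices `NQ v κ R w = ∑ w_A κ_A z_A z_A^T`, `0 ≤ w ≤ 1`.

`NQ_diag`: `zC_eq`; cold means `nL (κ A) ≤ mL v i + 1`, `κ A < 4^(nL+1) ≤ 4^(m+2)`, then F3 and PB_le: `4^(m+2) P_i ≤ 16`.
`NQ_qd`: `⟨x,N x⟩ = ∑ w κ ⟨x,z_A⟩^2`, `⟨x,z_A⟩ = ∑_{l ≥ n(A)-1} ⟨x_l, Q v_A⟩` with `x_l` = restriction of `x` to the level `l`
(sum over the finite set of levels which occur). Cauchy-Schwarz with weights `2^-(l-n)` (`∑_{l ≥ n-1} 2^-(l-n) ≤ 4`):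
`⟨x,z_A⟩^2 ≤ 4 ∑_{l ≥ n-1} 2^(l-n) ⟨x_l,Q v_A⟩^2`; `κ < 4^(n+1)`; for `l ≥ n-1`: `4^(n+1) * 4 * 2^(l-n) = 16 * 2^(n+l) ≤ 32 * 4^l`
(`2^n ≤ 2 * 2^l`). So `⟨x,Nx⟩ ≤ 32 ∑_l 4^l ∑_A ⟨x_l, Q v_A⟩^2 ≤ 32 * 2 * ∑_l n2 x_l = 64 n2 x` (F2).
`NQ_off`: `off N = N - diag`, so `-16 n2 x ≤ qd (off N) x ≤ 64 n2 x`; `norm_of_qd` with `K = 64`. -/

namespace BMP

open Finset

variable {α X : Type} [Fintype α] [Fintype X] [DecidableEq X]

omit [DecidableEq X] in
/-- the quadratic form of `NQ` -/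
private theorem qd_NQ (v : α → X → ℝ) (κ : α → ℝ) (R : Matrix X X ℝ) (w : α → ℝ) (x : X → ℝ) :
    qd (NQ v κ R w) x = ∑ A, w A * κ A * (∑ i, x i * zC v κ R A i) ^ 2 := by
  unfold qd NQ
  have h1 : ∀ A, w A * κ A * (∑ i, x i * zC v κ R A i) ^ 2 =
      ∑ i, ∑ j, x i * (w A * κ A * (zC v κ R A i * zC v κ R A j)) * x j := by
    intro A
    rw [sq, sum_mul_sum, mul_sum]
    refine sum_congr rfl fun i _ => ?_
    rw [mul_sum]
    exact sum_congr rfl fun j _ => by ring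
  symm
  rw [sum_congr rfl fun A _ => h1 A, sum_comm]
  refine sum_congr rfl fun i _ => ?_
  rw [sum_comm]
  refine sum_congr rfl fun j _ => ?_
  rw [mul_sum, sum_mul]

/-- weighted Cauchy-Schwarz over the levels -/
private theorem lev_cs (L : Finset ℤ) (n : ℤ) (s : ℤ → ℝ) :
    (∑ l ∈ L, if n ≤ l + 1 then s l else 0) ^ 2 ≤
      2 * ∑ l ∈ L, if n ≤ l + 1 then (2 : ℝ) ^ (l + 1 - n).toNat * s l ^ 2 else 0 := by
  classical
  rw [← sum_filter, ← sum_filter]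
  have h1 : ∑ l ∈ L.filter (fun l => n ≤ l + 1), ((1 : ℝ) / 2) ^ (l + 1 - n).toNat ≤ 2 := by
    have h2 : Set.InjOn (fun l : ℤ => (l + 1 - n).toNat)
        (L.filter (fun l => n ≤ l + 1) : Finset ℤ) := by
      intro a ha b hb hab
      simp only [coe_filter, Set.mem_ofPred_eq] at ha hb hab
      omega
    calc ∑ l ∈ L.filter (fun l => n ≤ l + 1), ((1 : ℝ) / 2) ^ (l + 1 - n).toNat
        = ∑ j ∈ (L.filter (fun l => n ≤ l + 1)).image (fun l : ℤ => (l + 1 - n).toNat),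
            ((1 : ℝ) / 2) ^ j := (sum_image h2).symm
      _ ≤ ∑' j : ℕ, ((1 : ℝ) / 2) ^ j :=
          summable_geometric_two.sum_le_tsum _ fun j _ => by positivity
      _ = 2 := tsum_geometric_two
  have h3 := sum_sq_le_sum_mul_sum_of_sq_le_mul (L.filter (fun l => n ≤ l + 1)) (r := s)
    (f := fun l => ((1 : ℝ) / 2) ^ (l + 1 - n).toNat)
    (g := fun l => (2 : ℝ) ^ (l + 1 - n).toNat * s l ^ 2)
    (fun l _ => by positivity) (fun l _ => by positivity) (fun l _ => by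
      rw [← mul_assoc, ← mul_pow]
      norm_num)
  refine h3.trans (mul_le_mul_of_nonneg_right h1 (sum_nonneg fun l _ => by positivity))

omit [DecidableEq X] in
/-- a scalar product as a sum over the levels -/
private theorem sum_levels (v : α → X → ℝ) (x y : X → ℝ) (f : ℤ → Prop) [DecidablePred f] :
    ∑ i, x i * (if f (mL v i) then y i else 0) =
      ∑ l ∈ univ.image (mL v), if f l then ∑ i, (if mL v i = l then x i else 0) * y i else 0 := by
  classical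
  have h1 : ∀ l, (if f l then ∑ i, (if mL v i = l then x i else 0) * y i else 0) =
      ∑ i, if mL v i = l then x i * (if f (mL v i) then y i else 0) else 0 := by
    intro l
    by_cases h : f l
    · rw [if_pos h]
      refine sum_congr rfl fun i _ => ?_
      by_cases hi : mL v i = l
      · rw [if_pos hi, if_pos hi, hi, if_pos h]
      · rw [if_neg hi, if_neg hi, zero_mul]
    · rw [if_neg h]
      symm
      refine sum_eq_zero fun i _ => ?_
      by_cases hi : mL v i = l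
      · rw [if_pos hi, hi, if_neg h, mul_zero]
      · rw [if_neg hi]
  rw [sum_congr rfl fun l _ => h1 l, sum_comm]
  refine sum_congr rfl fun i _ => ?_
  rw [sum_ite_eq, if_pos (mem_image_of_mem _ (mem_univ i))]

/-- the weight of one level -/
private theorem lev_wt {k w : ℝ} (hk : 0 < k) (hw1 : w ≤ 1) {l : ℤ}
    (h : nL k ≤ l + 1) : w * k * (2 * (2 : ℝ) ^ (l + 1 - nL k).toNat) ≤ 32 * (4 : ℝ) ^ l := by
  have h1 : k * (4 : ℝ) ^ (l + 1 - nL k).toNat ≤ 16 * (4 : ℝ) ^ l := by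
    have h2 : (4 : ℝ) ^ (l + 1 - nL k).toNat = (4 : ℝ) ^ (l + 1 - nL k) := by
      rw [← zpow_natCast, Int.toNat_of_nonneg (by omega)]
    have h3 := (lt_nL k).le
    calc k * (4 : ℝ) ^ (l + 1 - nL k).toNat
        ≤ (4 : ℝ) ^ (nL k + 1) * (4 : ℝ) ^ (l + 1 - nL k).toNat :=
          mul_le_mul_of_nonneg_right h3 (by positivity)
      _ = (4 : ℝ) ^ (l + 2) := by
          rw [h2, ← zpow_add₀ (by norm_num)]
          congr 1
          ring
      _ = 16 * (4 : ℝ) ^ l := by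
          rw [zpow_add₀ (by norm_num)]
          norm_num
          ring
  have h4 : (2 : ℝ) ^ (l + 1 - nL k).toNat ≤ (4 : ℝ) ^ (l + 1 - nL k).toNat :=
    pow_le_pow_left₀ (by norm_num) (by norm_num) _
  have h5 : 0 ≤ (2 : ℝ) ^ (l + 1 - nL k).toNat := by positivity
  calc w * k * (2 * (2 : ℝ) ^ (l + 1 - nL k).toNat)
      ≤ 1 * k * (2 * (2 : ℝ) ^ (l + 1 - nL k).toNat) :=
        mul_le_mul_of_nonneg_right (mul_le_mul_of_nonneg_right hw1 hk.le) (by positivity)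
    _ = 2 * (k * (2 : ℝ) ^ (l + 1 - nL k).toNat) := by ring
    _ ≤ 2 * (k * (4 : ℝ) ^ (l + 1 - nL k).toNat) :=
        mul_le_mul_of_nonneg_left (mul_le_mul_of_nonneg_left h4 hk.le) (by norm_num)
    _ ≤ 2 * (16 * (4 : ℝ) ^ l) := mul_le_mul_of_nonneg_left h1 (by norm_num)
    _ = 32 * (4 : ℝ) ^ l := by ring

/-- the quadratic form of the off-diagonal part -/
private theorem qd_off (N : Matrix X X ℝ) (x : X → ℝ) :
    qd (off N) x = qd N x - ∑ i, N i i * x i ^ 2 := by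
  unfold qd off
  rw [← sum_sub_distrib]
  refine sum_congr rfl fun i _ => ?_
  have h1 : N i i * x i ^ 2 = ∑ j, if i = j then x i * N i j * x j else 0 := by
    rw [sum_ite_eq, if_pos (mem_univ i)]
    ring
  rw [h1, ← sum_sub_distrib]
  refine sum_congr rfl fun j _ => ?_
  by_cases h : i = j
  · rw [if_pos h, if_pos h]
    ring
  · rw [if_neg h, if_neg h]
    ring

theorem NQ_symm (v : α → X → ℝ) (κ : α → ℝ) (R : Matrix X X ℝ) (w : α → ℝ) (i j : X) :
    NQ v κ R w i j = NQ v κ R w j i := by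
  unfold NQ
  exact sum_congr rfl fun A _ => by ring

theorem NQ_psd (v : α → X → ℝ) (κ : α → ℝ) (R : Matrix X X ℝ) (w : α → ℝ) (hκ : ∀ A, 0 ≤ κ A)
    (hw : ∀ A, 0 ≤ w A) : (NQ v κ R w).PosSemidef := by
  have h1 : NQ v κ R w = ∑ A, (w A * κ A) • Matrix.vecMulVec (zC v κ R A) (star (zC v κ R A)) := by
    ext i j
    rw [Matrix.sum_apply]
    unfold NQ
    refine sum_congr rfl fun A _ => ?_
    rw [Matrix.smul_apply, Matrix.vecMulVec_apply, smul_eq_mul]
    rfl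
  rw [h1]
  refine Matrix.posSemidef_sum _ fun A _ => ?_
  exact (Matrix.posSemidef_vecMulVec_self_star _).smul (mul_nonneg (hw A) (hκ A))

theorem NQ_diag (v : α → X → ℝ) (κ : α → ℝ) (R : Matrix X X ℝ) (hR : IsClean v R) (w : α → ℝ)
    (hκ : ∀ A, 0 < κ A) (hw : ∀ A, 0 ≤ w A) (hw1 : ∀ A, w A ≤ 1) (i : X) : NQ v κ R w i i ≤ 16 := by
  have h1 : ∀ A, w A * κ A * (zC v κ R A i * zC v κ R A i) ≤
      (4 : ℝ) ^ (mL v i + 2) * Qa R (v A) i ^ 2 := by
    intro A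
    rw [zC_eq v R hR κ A i]
    by_cases h : nL (κ A) ≤ mL v i + 1
    · rw [if_pos h]
      have h2 : κ A ≤ (4 : ℝ) ^ (mL v i + 2) := by
        refine (lt_nL (κ A)).le.trans (zpow_le_zpow_right₀ (by norm_num) (by omega))
      have h3 : w A * κ A ≤ (4 : ℝ) ^ (mL v i + 2) := by
        calc w A * κ A ≤ 1 * κ A := mul_le_mul_of_nonneg_right (hw1 A) (hκ A).le
          _ = κ A := one_mul _
          _ ≤ _ := h2
      rw [← sq]
      exact mul_le_mul_of_nonneg_right h3 (sq_nonneg _)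
    · rw [if_neg h, mul_zero, mul_zero]
      positivity
  calc NQ v κ R w i i = ∑ A, w A * κ A * (zC v κ R A i * zC v κ R A i) := rfl
    _ ≤ ∑ A, (4 : ℝ) ^ (mL v i + 2) * Qa R (v A) i ^ 2 := sum_le_sum fun A _ => h1 A
    _ = (4 : ℝ) ^ (mL v i + 2) * ∑ A, Qa R (v A) i ^ 2 := by rw [mul_sum]
    _ ≤ (4 : ℝ) ^ (mL v i + 2) * PB v i :=
        mul_le_mul_of_nonneg_left (F3 v R hR i) (by positivity)
    _ ≤ (4 : ℝ) ^ (mL v i + 2) * (4 : ℝ) ^ (- mL v i) :=
        mul_le_mul_of_nonneg_left (PB_le v i) (by positivity)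
    _ = 16 := by
        rw [← zpow_add₀ (by norm_num)]
        have h4 : mL v i + 2 + - mL v i = 2 := by ring
        rw [h4]
        norm_num

theorem NQ_qd (v : α → X → ℝ) (κ : α → ℝ) (R : Matrix X X ℝ) (hR : IsClean v R) (w : α → ℝ)
    (hκ : ∀ A, 0 < κ A) (hw : ∀ A, 0 ≤ w A) (hw1 : ∀ A, w A ≤ 1) (x : X → ℝ) :
    qd (NQ v κ R w) x ≤ 64 * n2 x := by
  classical
  rw [qd_NQ]
  obtain ⟨s, hs⟩ : ∃ s : ℤ → α → ℝ, ∀ l A,
      s l A = ∑ i, (if mL v i = l then x i else 0) * Qa R (v A) i := ⟨_, fun _ _ => rfl⟩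
  have h1 : ∀ A, w A * κ A * (∑ i, x i * zC v κ R A i) ^ 2 ≤
      ∑ l ∈ univ.image (mL v), 32 * (4 : ℝ) ^ l * s l A ^ 2 := by
    intro A
    have h2 : ∑ i, x i * zC v κ R A i =
        ∑ l ∈ univ.image (mL v), if nL (κ A) ≤ l + 1 then s l A else 0 := by
      have h3 := sum_levels v x (Qa R (v A)) (fun l => nL (κ A) ≤ l + 1)
      simp only [← hs] at h3
      rw [← h3]
      exact sum_congr rfl fun i _ => by rw [zC_eq v R hR κ A i]
    rw [h2]
    have hwk : 0 ≤ w A * κ A := mul_nonneg (hw A) (hκ A).le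
    refine (mul_le_mul_of_nonneg_left (lev_cs _ (nL (κ A)) (fun l => s l A)) hwk).trans ?_
    rw [← mul_assoc, mul_sum]
    refine sum_le_sum fun l _ => ?_
    by_cases h : nL (κ A) ≤ l + 1
    · rw [if_pos h]
      have h4 := mul_le_mul_of_nonneg_right (lev_wt (hκ A) (hw1 A) h) (sq_nonneg (s l A))
      refine le_trans (le_of_eq ?_) h4
      ring
    · rw [if_neg h, mul_zero]
      positivity
  have h5 : ∀ l, 32 * (4 : ℝ) ^ l * ∑ A, s l A ^ 2 ≤
      64 * n2 (fun i => if mL v i = l then x i else 0) := by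
    intro l
    have h6 := F2 v R hR l (fun i => if mL v i = l then x i else 0) (fun i hi => if_neg hi)
    simp only [← hs] at h6
    linarith
  have h7 : ∑ l ∈ univ.image (mL v), n2 (fun i => if mL v i = l then x i else 0) = n2 x := by
    unfold n2
    rw [sum_comm]
    refine sum_congr rfl fun i _ => ?_
    have h8 : ∀ l, (if mL v i = l then x i else 0) ^ 2 = if mL v i = l then x i ^ 2 else 0 := by
      intro l
      by_cases h : mL v i = l
      · rw [if_pos h, if_pos h]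
      · rw [if_neg h, if_neg h]
        ring
    rw [sum_congr rfl fun l _ => h8 l, sum_ite_eq, if_pos (mem_image_of_mem _ (mem_univ i))]
  calc ∑ A, w A * κ A * (∑ i, x i * zC v κ R A i) ^ 2
      ≤ ∑ A, ∑ l ∈ univ.image (mL v), 32 * (4 : ℝ) ^ l * s l A ^ 2 := sum_le_sum fun A _ => h1 A
    _ = ∑ l ∈ univ.image (mL v), 32 * (4 : ℝ) ^ l * ∑ A, s l A ^ 2 := by
        rw [sum_comm]
        exact sum_congr rfl fun l _ => by rw [mul_sum]
    _ ≤ ∑ l ∈ univ.image (mL v), 64 * n2 (fun i => if mL v i = l then x i else 0) :=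
        sum_le_sum fun l _ => h5 l
    _ = 64 * n2 x := by rw [← mul_sum, h7]

theorem NQ_off (v : α → X → ℝ) (κ : α → ℝ) (R : Matrix X X ℝ) (hR : IsClean v R) (w : α → ℝ)
    (hκ : ∀ A, 0 < κ A) (hw : ∀ A, 0 ≤ w A) (hw1 : ∀ A, w A ≤ 1) (x : X → ℝ) :
    n2 (ap (off (NQ v κ R w)) x) ≤ 64 ^ 2 * n2 x := by
  have hd0 : ∀ i, 0 ≤ NQ v κ R w i i := by
    intro i
    unfold NQ
    refine sum_nonneg fun A _ => mul_nonneg (mul_nonneg (hw A) (hκ A).le) (mul_self_nonneg _)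
  have hqd0 : ∀ y : X → ℝ, 0 ≤ qd (NQ v κ R w) y := by
    intro y
    rw [qd_NQ]
    exact sum_nonneg fun A _ => mul_nonneg (mul_nonneg (hw A) (hκ A).le) (sq_nonneg _)
  refine norm_of_qd (off (NQ v κ R w)) ?_ 64 (by norm_num) ?_ ?_ x
  · intro i j
    unfold off
    by_cases h : i = j
    · rw [if_pos h, if_pos h.symm]
    · rw [if_neg h, if_neg (Ne.symm h), NQ_symm]
  · intro y
    rw [qd_off]
    have h1 := NQ_qd v κ R hR w hκ hw hw1 y
    have h2 : 0 ≤ ∑ i, NQ v κ R w i i * y i ^ 2 :=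
      sum_nonneg fun i _ => mul_nonneg (hd0 i) (sq_nonneg _)
    linarith
  · intro y
    rw [qd_off]
    have h1 := hqd0 y
    have h2 : ∑ i, NQ v κ R w i i * y i ^ 2 ≤ 16 * n2 y := by
      unfold n2
      rw [mul_sum]
      exact sum_le_sum fun i _ =>
        mul_le_mul_of_nonneg_right (NQ_diag v κ R hR w hκ hw hw1 i) (sq_nonneg _)
    have h3 : 0 ≤ n2 y := sum_nonneg fun i _ => sq_nonneg _
    linarith

end BMP
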