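import Pool.Agent.BMP.Facts

/-! BMP OB3: the diagonal second order term is controlled by `qq`.

`N = NQ v κ R (fun A => ω (nL (κ A)))`, `N i j = ∑_{n ∈ image} ω n * NL v κ R n i j`, and `NL v κ R n i j = 0` unless
`n ≤ mL v i + 1` (`zC_eq`). Cauchy-Schwarz with weights `2^n` (`∑_{n ≤ m+1} 2^n ≤ 2^(m+2)`, finite set of integers):
`(N i j)^2 ≤ 2^(m+2) ∑_n 2^(-n) (NL n i j)^2`, `P_i ≤ 4^(-m)`, `4^(-m) 2^(m+2) 2^(-n) = 4 * 2^(-m) 2^(-n) ≤ 8 * 4^(-n)` for `n ≤ m+1`.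
Sum over `j ≠ i` and `i`. -/

namespace BMP

open Finset

variable {α X : Type} [Fintype α] [Fintype X] [DecidableEq X]

theorem qq_nonneg (v : α → X → ℝ) (κ : α → ℝ) (R : Matrix X X ℝ) : 0 ≤ qq v κ R := by
  unfold qq
  refine Finset.sum_nonneg fun n _ => mul_nonneg (zpow_nonneg (by norm_num) _) ?_
  exact Finset.sum_nonneg fun i _ => Finset.sum_nonneg fun j _ => sq_nonneg _

private theorem geo_aux (S : Finset ℤ) : ∀ k : ℤ, (∀ n ∈ S, n ≤ k) → ∑ n ∈ S, (2 : ℝ) ^ n ≤ (2 : ℝ) ^ (k + 1) := by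
  refine Finset.induction_on_max S ?_ ?_
  · intro k _
    rw [Finset.sum_empty]
    positivity
  · intro a s ha ih k hk
    have hnot : a ∉ s := fun h => lt_irrefl a (ha a h)
    rw [Finset.sum_insert hnot]
    have h1 := ih (a - 1) (fun n hn => by have := ha n hn; omega)
    have h2 : a ≤ k := hk a (Finset.mem_insert_self a s)
    have h3 : (2 : ℝ) ^ (a + 1) ≤ (2 : ℝ) ^ (k + 1) := zpow_le_zpow_right₀ (by norm_num) (by omega)
    have h4 : (2 : ℝ) ^ (a + 1) = 2 * (2 : ℝ) ^ a := by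
      rw [zpow_add₀ (by norm_num), zpow_one]; ring
    have h5 : a - 1 + 1 = a := by ring
    rw [h5] at h1
    linarith

private theorem geo_if (S : Finset ℤ) (k : ℤ) :
    ∑ n ∈ S, (if n ≤ k then (2 : ℝ) ^ n else 0) ≤ (2 : ℝ) ^ (k + 1) := by
  rw [← Finset.sum_filter]
  exact geo_aux _ k (fun n hn => (Finset.mem_filter.mp hn).2)

private theorem NL_zero (v : α → X → ℝ) (κ : α → ℝ) (R : Matrix X X ℝ) (hR : IsClean v R)
    (n : ℤ) (i j : X) (h : ¬ n ≤ mL v i + 1) : NL v κ R n i j = 0 := by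
  unfold NL
  refine Finset.sum_eq_zero fun A _ => ?_
  by_cases hA : nL (κ A) = n
  · rw [if_pos hA, zC_eq v R hR κ A i, hA, if_neg h]
    ring
  · rw [if_neg hA]

private theorem NQ_eq (v : α → X → ℝ) (κ : α → ℝ) (R : Matrix X X ℝ) (ω : ℤ → ℝ) (i j : X) :
    NQ v κ R (fun A => ω (nL (κ A))) i j =
      ∑ n ∈ univ.image (fun A => nL (κ A)), ω n * NL v κ R n i j := by
  unfold NQ NL
  simp_rw [Finset.mul_sum]
  rw [Finset.sum_comm]
  refine Finset.sum_congr rfl fun A _ => ?_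
  rw [Finset.sum_eq_single (nL (κ A))]
  · rw [if_pos rfl]; ring
  · intro n _ hn
    rw [if_neg (Ne.symm hn), mul_zero]
  · intro h
    exact absurd (Finset.mem_image_of_mem _ (Finset.mem_univ A)) h

private theorem sq_bound (v : α → X → ℝ) (κ : α → ℝ) (R : Matrix X X ℝ) (hR : IsClean v R)
    (ω : ℤ → ℝ) (h0 : ∀ n, 0 ≤ ω n) (h1 : ∀ n, ω n ≤ 1) (i j : X) :
    PB v i * (NQ v κ R (fun A => ω (nL (κ A))) i j) ^ 2 ≤
      8 * ∑ n ∈ univ.image (fun A => nL (κ A)), (4 : ℝ) ^ (-n) * (NL v κ R n i j) ^ 2 := by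
  rw [NQ_eq]
  set S := univ.image (fun A => nL (κ A)) with hS
  set m := mL v i with hm
  have hCS : (∑ n ∈ S, ω n * NL v κ R n i j) ^ 2 ≤
      (∑ n ∈ S, (if n ≤ m + 1 then (2 : ℝ) ^ n else 0)) *
        ∑ n ∈ S, (2 : ℝ) ^ (-n) * (ω n * NL v κ R n i j) ^ 2 := by
    refine Finset.sum_sq_le_sum_mul_sum_of_sq_eq_mul S ?_ ?_ ?_
    · intro n _
      split_ifs
      · positivity
      · exact le_refl 0
    · intro n _
      positivity
    · intro n _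
      by_cases h : n ≤ m + 1
      · rw [if_pos h, ← mul_assoc, ← zpow_add₀ (by norm_num : (2 : ℝ) ≠ 0)]
        simp
      · rw [if_neg h, NL_zero v κ R hR n i j h]
        simp
  have hG := geo_if S (m + 1)
  have hg0 : 0 ≤ ∑ n ∈ S, (2 : ℝ) ^ (-n) * (ω n * NL v κ R n i j) ^ 2 :=
    Finset.sum_nonneg fun n _ => by positivity
  have hPB : PB v i ≤ (4 : ℝ) ^ (-m) := PB_le v i
  have hPB0 : 0 ≤ PB v i := PB_nonneg v i
  calc PB v i * (∑ n ∈ S, ω n * NL v κ R n i j) ^ 2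
      ≤ (4 : ℝ) ^ (-m) * ((2 : ℝ) ^ (m + 1 + 1) *
          ∑ n ∈ S, (2 : ℝ) ^ (-n) * (ω n * NL v κ R n i j) ^ 2) := by
        refine mul_le_mul hPB (hCS.trans (mul_le_mul_of_nonneg_right hG hg0)) (sq_nonneg _) (by positivity)
    _ = ∑ n ∈ S, ((4 : ℝ) ^ (-m) * (2 : ℝ) ^ (m + 1 + 1) * (2 : ℝ) ^ (-n)) * (ω n * NL v κ R n i j) ^ 2 := by
        rw [Finset.mul_sum, Finset.mul_sum]
        refine Finset.sum_congr rfl fun n _ => by ring
    _ ≤ ∑ n ∈ S, (8 * (4 : ℝ) ^ (-n)) * (NL v κ R n i j) ^ 2 := by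
        refine Finset.sum_le_sum fun n _ => ?_
        by_cases h : n ≤ m + 1
        · have e4 : (4 : ℝ) = 2 * 2 := by norm_num
          have hz : (4 : ℝ) ^ (-m) * (2 : ℝ) ^ (m + 1 + 1) * (2 : ℝ) ^ (-n) ≤ 8 * (4 : ℝ) ^ (-n) := by
            have e1 : (4 : ℝ) ^ (-m) * (2 : ℝ) ^ (m + 1 + 1) = 4 * (2 : ℝ) ^ (-m) := by
              rw [e4, mul_zpow, zpow_add₀ (by norm_num : (2 : ℝ) ≠ 0), zpow_add₀ (by norm_num : (2 : ℝ) ≠ 0)]
              have : (2 : ℝ) ^ (-m) * (2 : ℝ) ^ m = 1 := by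
                rw [← zpow_add₀ (by norm_num : (2 : ℝ) ≠ 0)]; simp
              rw [zpow_one]
              calc (2 : ℝ) ^ (-m) * (2 : ℝ) ^ (-m) * ((2 : ℝ) ^ m * 2 * 2)
                  = ((2 : ℝ) ^ (-m) * (2 : ℝ) ^ m) * (2 : ℝ) ^ (-m) * 4 := by ring
                _ = 2 * 2 * (2 : ℝ) ^ (-m) := by rw [this]; ring
            have e2 : (2 : ℝ) ^ (-m) ≤ 2 * (2 : ℝ) ^ (-n) := by
              have : (2 : ℝ) ^ (-m) ≤ (2 : ℝ) ^ (1 + -n) := zpow_le_zpow_right₀ (by norm_num) (by omega)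
              rwa [zpow_add₀ (by norm_num : (2 : ℝ) ≠ 0), zpow_one] at this
            have e3 : (8 : ℝ) * (4 : ℝ) ^ (-n) = 8 * ((2 : ℝ) ^ (-n) * (2 : ℝ) ^ (-n)) := by
              rw [← mul_zpow]; norm_num
            have e5 : (0 : ℝ) ≤ (2 : ℝ) ^ (-n) := by positivity
            rw [e1, e3]
            nlinarith
          have hw : (ω n * NL v κ R n i j) ^ 2 ≤ (NL v κ R n i j) ^ 2 := by
            rw [mul_pow]
            have : ω n ^ 2 ≤ 1 := by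
              have := h0 n; have := h1 n; nlinarith
            calc ω n ^ 2 * NL v κ R n i j ^ 2 ≤ 1 * NL v κ R n i j ^ 2 :=
                  mul_le_mul_of_nonneg_right this (sq_nonneg _)
              _ = NL v κ R n i j ^ 2 := one_mul _
          exact mul_le_mul hz hw (sq_nonneg _) (by positivity)
        · rw [NL_zero v κ R hR n i j h]
          simp
    _ = 8 * ∑ n ∈ S, (4 : ℝ) ^ (-n) * (NL v κ R n i j) ^ 2 := by
        rw [Finset.mul_sum]
        refine Finset.sum_congr rfl fun n _ => by ring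

theorem D2_le (v : α → X → ℝ) (κ : α → ℝ) (R : Matrix X X ℝ) (hR : IsClean v R) (hκ : ∀ A, 0 < κ A)
    (ω : ℤ → ℝ) (h0 : ∀ n, 0 ≤ ω n) (h1 : ∀ n, ω n ≤ 1) :
    ∑ i, PB v i * ∑ j, off (NQ v κ R (fun A => ω (nL (κ A)))) i j ^ 2 ≤ 8 * qq v κ R := by
  have hqq : qq v κ R = ∑ i, ∑ j, ∑ n ∈ univ.image (fun A => nL (κ A)),
      (4 : ℝ) ^ (-n) * (off (NL v κ R n) i j) ^ 2 := by
    unfold qq
    simp_rw [Finset.mul_sum]
    rw [Finset.sum_comm]
    refine Finset.sum_congr rfl fun i _ => ?_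
    rw [Finset.sum_comm]
  rw [hqq, Finset.mul_sum]
  refine Finset.sum_le_sum fun i _ => ?_
  rw [Finset.mul_sum, Finset.mul_sum]
  refine Finset.sum_le_sum fun j _ => ?_
  by_cases hij : i = j
  · simp [off, hij]
  · have := sq_bound v κ R hR ω h0 h1 i j
    simpa [off, hij] using this

end BMP
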