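import Pool.Agent.BMP.Facts
import Pool.Agent.BMP.Avg

/-! BMP OB4: the first order term, averaged over random signs of the levels, is EXACTLY `TQ/4 + qq/16`.

`Ex (sx n) = 0`, `Ex (sx n * sx n') = [n = n']` for `n, n' ∈ S` (`Ex_sg`, `Ex_sg_mul`), so with `om_A = κ_A 4^(-n(A)-1)`:
`Ex[(1/2 + 1/2 sx_{n(A)} om_A) * (1 + sx_{n(A')})/2] = 1/4 + (1/4) om_A [n(A) = n(A')]`.
The sum is `∑_A ∑_A' (...) κ_A' ∑_{i≠j} z_A'(i) z_A'(j) (Qv_A)(i) (Qv_A)(j)`.
Part `1/4`: exactly `TQ/4`. Part `[n(A) = n(A')]`: if `z_A'(i) ≠ 0` then `n(A') ≤ mL v i + 1`, so `(Qv_A)(i) = z_A(i)` (`zC_eq`);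
hence it is `(1/4) ∑_n 4^(-n-1) ∑_{i≠j} (NL n i j)^2 = qq/16`. -/

namespace BMP

open Finset

/-- sign of the level `n` (0 if `n ∉ S`) -/
def sx (S : Finset ℤ) (ξ : S → Bool) (n : ℤ) : ℝ := if h : n ∈ S then sg (ξ ⟨n, h⟩) else 0

theorem sx_abs (S : Finset ℤ) (ξ : S → Bool) (n : ℤ) : |sx S ξ n| ≤ 1 := by
  unfold sx
  split_ifs with h
  · exact (abs_sg _).le
  · simp

theorem Ex_sx (S : Finset ℤ) (n : ℤ) : Ex (fun ξ : S → Bool => sx S ξ n) = 0 := by
  by_cases h : n ∈ S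
  · have h1 : (fun ξ : S → Bool => sx S ξ n) = fun ξ => sg (ξ ⟨n, h⟩) := by
      funext ξ
      unfold sx
      rw [dif_pos h]
    rw [h1, Ex_sg]
  · have h1 : (fun ξ : S → Bool => sx S ξ n) = fun _ => 0 := by
      funext ξ
      unfold sx
      rw [dif_neg h]
    rw [h1, Ex_const]

theorem Ex_sx_mul (S : Finset ℤ) (n n' : ℤ) (hn : n ∈ S) (hn' : n' ∈ S) :
    Ex (fun ξ : S → Bool => sx S ξ n * sx S ξ n') = if n = n' then 1 else 0 := by
  have h1 : (fun ξ : S → Bool => sx S ξ n * sx S ξ n') =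
      fun ξ => sg (ξ ⟨n, hn⟩) * sg (ξ ⟨n', hn'⟩) := by
    funext ξ
    unfold sx
    rw [dif_pos hn, dif_pos hn']
  rw [h1, Ex_sg_mul]
  simp only [Subtype.mk.injEq]

private theorem ob4_sum4 {I J K L : Type} [Fintype I] [Fintype J] [Fintype K] [Fintype L]
    (F : I → J → K → L → ℝ) :
    ∑ i, ∑ j, ∑ k, ∑ l, F i j k l = ∑ k, ∑ l, ∑ i, ∑ j, F i j k l := by
  have h1 : ∀ i, ∑ j, ∑ k, ∑ l, F i j k l = ∑ k, ∑ l, ∑ j, F i j k l := fun i => by
    rw [Finset.sum_comm]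
    exact Finset.sum_congr rfl fun k _ => Finset.sum_comm
  simp only [h1]
  rw [Finset.sum_comm]
  exact Finset.sum_congr rfl fun k _ => Finset.sum_comm

private theorem ob4_sum3 {I J K : Type} [Fintype I] [Fintype J] [Fintype K]
    (F : I → J → K → ℝ) :
    ∑ i, ∑ j, ∑ k, F i j k = ∑ k, ∑ i, ∑ j, F i j k := by
  have h1 : ∀ i, ∑ j, ∑ k, F i j k = ∑ k, ∑ j, F i j k := fun i => Finset.sum_comm
  simp only [h1]
  exact Finset.sum_comm

variable {α X : Type} [Fintype α] [Fintype X] [DecidableEq X]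

/-- `∑_{i ≠ j} x_i z_i z_j x_j` -/
private noncomputable def ob4_s (z x : X → ℝ) : ℝ :=
  ∑ i, ∑ j, if i = j then 0 else x i * z i * (z j * x j)

private theorem ob4_qd (v : α → X → ℝ) (κ : α → ℝ) (R : Matrix X X ℝ) (w : α → ℝ) (x : X → ℝ) :
    qd (off (NQ v κ R w)) x = ∑ A, w A * (κ A * ob4_s (zC v κ R A) x) := by
  have h1 : ∀ i j, x i * off (NQ v κ R w) i j * x j = ∑ A, w A * (κ A *
      (if i = j then 0 else x i * zC v κ R A i * (zC v κ R A j * x j))) := by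
    intro i j
    unfold off NQ
    split_ifs with h
    · simp
    · rw [Finset.mul_sum, Finset.sum_mul]
      exact Finset.sum_congr rfl fun A _ => by ring
  unfold qd
  simp only [h1]
  rw [ob4_sum3]
  refine Finset.sum_congr rfl fun A _ => ?_
  unfold ob4_s
  simp only [Finset.mul_sum]

private theorem ob4_TQ (v : α → X → ℝ) (κ : α → ℝ) (R : Matrix X X ℝ) :
    TQ v κ R = ∑ A, ∑ A', κ A * ob4_s (zC v κ R A) (Qa R (v A')) := by
  unfold TQ
  refine Finset.sum_congr rfl fun A _ => ?_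
  rw [← Finset.mul_sum]
  congr 1
  have h1 : ∀ i j, zC v κ R A i * off (fun i j => ∑ A', Qa R (v A') i * Qa R (v A') j) i j *
      zC v κ R A j = ∑ A', (if i = j then 0 else
        Qa R (v A') i * zC v κ R A i * (zC v κ R A j * Qa R (v A') j)) := by
    intro i j
    unfold off
    split_ifs with h
    · simp
    · rw [Finset.mul_sum, Finset.sum_mul]
      exact Finset.sum_congr rfl fun A _ => by ring
  unfold qd
  simp only [h1]
  rw [ob4_sum3]
  rfl

private theorem ob4_qq (v : α → X → ℝ) (κ : α → ℝ) (R : Matrix X X ℝ) :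
    qq v κ R = ∑ A, ∑ A', (if nL (κ A) = nL (κ A') then (4 : ℝ) ^ (-nL (κ A)) else 0) *
      (κ A * κ A' * ob4_s (zC v κ R A') (zC v κ R A)) := by
  have h1 : ∀ n, ∑ i, ∑ j, (off (NL v κ R n) i j) ^ 2 = ∑ A, ∑ A',
      (if nL (κ A) = n then (if nL (κ A') = n then (1 : ℝ) else 0) else 0) *
      (κ A * κ A' * ob4_s (zC v κ R A') (zC v κ R A)) := by
    intro n
    have h2 : ∀ i j, (off (NL v κ R n) i j) ^ 2 = ∑ A, ∑ A',
        (if nL (κ A) = n then (if nL (κ A') = n then (1 : ℝ) else 0) else 0) *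
        (κ A * κ A' * (if i = j then 0 else
          zC v κ R A i * zC v κ R A' i * (zC v κ R A' j * zC v κ R A j))) := by
      intro i j
      unfold off NL
      by_cases h : i = j
      · simp [h]
      · simp only [if_neg h]
        rw [sq, Finset.sum_mul_sum]
        refine Finset.sum_congr rfl fun A _ => Finset.sum_congr rfl fun A' _ => ?_
        split_ifs <;> ring
    simp only [h2]
    rw [ob4_sum4]
    refine Finset.sum_congr rfl fun A _ => Finset.sum_congr rfl fun A' _ => ?_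
    unfold ob4_s
    simp only [Finset.mul_sum]
  unfold qq
  simp only [h1]
  have h3 : ∀ n : ℤ, (4 : ℝ) ^ (-n) * ∑ A, ∑ A',
      (if nL (κ A) = n then (if nL (κ A') = n then (1 : ℝ) else 0) else 0) *
      (κ A * κ A' * ob4_s (zC v κ R A') (zC v κ R A)) = ∑ A, ∑ A',
      ((4 : ℝ) ^ (-n) * (if nL (κ A) = n then (if nL (κ A') = n then (1 : ℝ) else 0) else 0)) *
      (κ A * κ A' * ob4_s (zC v κ R A') (zC v κ R A)) := by
    intro n
    simp only [Finset.mul_sum, mul_assoc]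
  simp only [h3]
  rw [Finset.sum_comm]
  refine Finset.sum_congr rfl fun A _ => ?_
  rw [Finset.sum_comm]
  refine Finset.sum_congr rfl fun A' _ => ?_
  rw [← Finset.sum_mul]
  congr 1
  rw [Finset.sum_eq_single (nL (κ A))]
  · rw [if_pos rfl]
    by_cases h : nL (κ A) = nL (κ A')
    · rw [if_pos h, if_pos h.symm, mul_one]
    · rw [if_neg h, if_neg (fun h' => h h'.symm), mul_zero]
  · intro n _ hn
    rw [if_neg (fun h => hn h.symm), mul_zero]
  · intro h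
    exact absurd (Finset.mem_image_of_mem (fun A => nL (κ A)) (Finset.mem_univ A)) h

private theorem ob4_same (v : α → X → ℝ) (κ : α → ℝ) (R : Matrix X X ℝ) (hR : IsClean v R)
    (A A' : α) (h : nL (κ A) = nL (κ A')) :
    ob4_s (zC v κ R A') (Qa R (v A)) = ob4_s (zC v κ R A') (zC v κ R A) := by
  have h1 : ∀ i, Qa R (v A) i * zC v κ R A' i = zC v κ R A i * zC v κ R A' i := by
    intro i
    rw [zC_eq v R hR κ A i, zC_eq v R hR κ A' i, h]
    split_ifs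
    · rfl
    · ring
  unfold ob4_s
  refine Finset.sum_congr rfl fun i _ => Finset.sum_congr rfl fun j _ => ?_
  split_ifs
  · rfl
  · rw [h1 i, mul_comm (zC v κ R A' j) (Qa R (v A) j), h1 j, mul_comm (zC v κ R A j)]

theorem first_order (v : α → X → ℝ) (κ : α → ℝ) (R : Matrix X X ℝ) (hR : IsClean v R)
    (S : Finset ℤ) (hS : ∀ A, nL (κ A) ∈ S) :
    Ex (fun ξ : S → Bool => ∑ A, (1 / 2 + 1 / 2 * (sx S ξ (nL (κ A)) * (κ A * (4 : ℝ) ^ (- nL (κ A) - 1)))) *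
        qd (off (NQ v κ R (fun A' => (1 + sx S ξ (nL (κ A'))) / 2))) (Qa R (v A))) =
      (1 / 4) * TQ v κ R + (1 / 16) * qq v κ R := by
  have hE : ∀ (a b : ℤ) (_ : a ∈ S) (_ : b ∈ S) (om K : ℝ),
      Ex (fun ξ : S → Bool => (1 / 2 + 1 / 2 * (sx S ξ a * om)) * ((1 + sx S ξ b) / 2 * K)) =
        1 / 4 * K + 1 / 4 * ((if a = b then 1 else 0) * (om * K)) := by
    intro a b ha hb om K
    have h1 : (fun ξ : S → Bool => (1 / 2 + 1 / 2 * (sx S ξ a * om)) * ((1 + sx S ξ b) / 2 * K)) =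
        fun ξ => ((1 / 4 * K + (1 / 4 * K) * sx S ξ b) + (1 / 4 * K * om) * sx S ξ a) +
          (1 / 4 * K * om) * (sx S ξ a * sx S ξ b) := by
      funext ξ
      ring
    rw [h1, Ex_add, Ex_add, Ex_add, Ex_const, Ex_mul_left, Ex_mul_left, Ex_mul_left, Ex_sx, Ex_sx,
      Ex_sx_mul S a b ha hb]
    ring
  have h2 : ∀ ξ : S → Bool, (∑ A, (1 / 2 + 1 / 2 * (sx S ξ (nL (κ A)) *
      (κ A * (4 : ℝ) ^ (- nL (κ A) - 1)))) *
        qd (off (NQ v κ R (fun A' => (1 + sx S ξ (nL (κ A'))) / 2))) (Qa R (v A))) =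
      ∑ A, ∑ A', (1 / 2 + 1 / 2 * (sx S ξ (nL (κ A)) * (κ A * (4 : ℝ) ^ (- nL (κ A) - 1)))) *
        ((1 + sx S ξ (nL (κ A'))) / 2 * (κ A' * ob4_s (zC v κ R A') (Qa R (v A)))) := by
    intro ξ
    refine Finset.sum_congr rfl fun A _ => ?_
    rw [ob4_qd, Finset.mul_sum]
  simp only [h2]
  rw [Ex_sum]
  have h3 : ∀ A, Ex (fun ξ : S → Bool => ∑ A', (1 / 2 + 1 / 2 * (sx S ξ (nL (κ A)) *
      (κ A * (4 : ℝ) ^ (- nL (κ A) - 1)))) *
        ((1 + sx S ξ (nL (κ A'))) / 2 * (κ A' * ob4_s (zC v κ R A') (Qa R (v A))))) =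
      ∑ A', (1 / 4 * (κ A' * ob4_s (zC v κ R A') (Qa R (v A))) + 1 / 16 *
        ((if nL (κ A) = nL (κ A') then (4 : ℝ) ^ (-nL (κ A)) else 0) *
          (κ A * κ A' * ob4_s (zC v κ R A') (zC v κ R A)))) := by
    intro A
    rw [Ex_sum]
    refine Finset.sum_congr rfl fun A' _ => ?_
    rw [hE _ _ (hS A) (hS A')]
    congr 1
    by_cases h : nL (κ A) = nL (κ A')
    · rw [if_pos h, if_pos h, ob4_same v κ R hR A A' h, zpow_sub_one₀ (by norm_num : (4 : ℝ) ≠ 0)]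
      ring
    · rw [if_neg h, if_neg h]
      ring
  rw [Finset.sum_congr rfl fun A _ => h3 A]
  simp only [Finset.sum_add_distrib, ← Finset.mul_sum]
  rw [ob4_qq]
  congr 2
  rw [ob4_TQ, Finset.sum_comm]

end BMP
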