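import Pool.Agent.BMP.MLb
import Pool.Agent.BMP.OB2
import Pool.Agent.BMP.OB3
import Pool.Agent.BMP.OB4

/-! BMP Main: the main test (section 4). Sum over `b ∉ C` of `TQ`.

Let `S` = a finite set of integers containing `nL (kA θ c C b A)` for all `b`, `A` and `nL (kp θ c C B)` for all `B`.
For `ξ : S → Bool` put `p B = 1/2 + 1/2 * (sx S ξ (nL κ) * (κ * 4^(-nL κ - 1)))`, `κ = kp θ c C B` (in [0,1] because
`κ 4^(-n-1) ≤ 1` by `lt_nL`; depends only on `B` restricted to `C` because `DD` does), `pb b A` = same with `κ = kA θ c C b A` (`kp_ins`),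
`N b = NQ (vA c b) (kA θ c C b) (R b) (fun A => (1 + sx S ξ (nL (kA θ c C b A)))/2)`, `d = 16`, `K = 64`, `η = 1/4000`,
`D = 16/4000 + 6*4096/16000000 ≤ 1/10`. `tilt`, then for every `b ∉ C`, `A`:
`pb*(ρ η qd O v + 1/2 η^2 n2 (O v)) ≥ pb * ρ η qd O (Q v) - 3 n2 (ap R v)` (`cross`, `η K ≤ 1`, pb ≤ 1), and
`∑_A pb ∑_i (∑_j O_ij^2) v_A(i)^2 ≤ ∑_i P_i ∑_j O_ij^2 ≤ 8 qq` (`D2_le` with `ω n = (1 + sx S ξ n)/2`).
Right side: for `0 ≤ x ≤ V ≤ 1`: `x log(1/x) ≤ V (1 + log(1/V))` (`x log(V/x) ≤ V - x`).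
Average over `ξ` (`first_order`): `∑_b [ρ η (TQ/4 + qq/16) - 3 ML - 64 η^2 qq] ≤ V (1 + log(1/V))`; `ρ η/16 ≥ 64 η^2`, `ML_sum`:
`∑_b TQ ≤ (4/(ρ η)) (V(1+v) + 3*76 V v) ≤ 4000000 V(1+v)` (`ρ ≥ 1 - D ≥ 0.994`). -/

namespace BMP

open Finset

variable {ι X : Type} [Fintype ι] [DecidableEq ι] [Fintype X] [DecidableEq X]

omit [DecidableEq X] in
private theorem mb_n2 (a : X → ℝ) : 0 ≤ n2 a := Finset.sum_nonneg fun _ _ => sq_nonneg _

private theorem mb_kA_pos (θ : ℝ) (hθ : 0 < θ) (c : (ι → X) → ℝ) (C : Finset ι) (b : ι)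
    (A : {j // j ≠ b} → X) : 0 < kA θ c C b A := by
  unfold kA
  apply one_div_pos.mpr
  have h : 0 ≤ ∑ A' : {j // j ≠ b} → X, if hitR C b A A' then n2 (vA c b A') else 0 :=
    Finset.sum_nonneg fun A' _ => by
      split_ifs
      · exact mb_n2 _
      · exact le_refl _
  linarith

private theorem mb_kp_pos (θ : ℝ) (hθ : 0 < θ) (c : (ι → X) → ℝ) (C : Finset ι) (B : ι → X) :
    0 < kp θ c C B := by
  unfold kp DD
  apply one_div_pos.mpr
  have h : 0 ≤ ∑ B' : ι → X, if (∃ b ∈ C, B' b = B b) then c B' ^ 2 else 0 :=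
    Finset.sum_nonneg fun B' _ => by
      split_ifs
      · exact sq_nonneg _
      · exact le_refl _
  linarith

private theorem mb_kp_congr (θ : ℝ) (c : (ι → X) → ℝ) (C : Finset ι) (B B' : ι → X)
    (h : ∀ b ∈ C, B b = B' b) : kp θ c C B = kp θ c C B' := by
  have e : DD c C B = DD c C B' := by
    unfold DD
    refine Finset.sum_congr rfl fun B'' _ => ?_
    have e1 : (∃ b ∈ C, B'' b = B b) ↔ (∃ b ∈ C, B'' b = B' b) := by
      constructor
      · rintro ⟨b, hb, hb'⟩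
        exact ⟨b, hb, hb'.trans (h b hb)⟩
      · rintro ⟨b, hb, hb'⟩
        exact ⟨b, hb, hb'.trans (h b hb).symm⟩
    by_cases h1 : ∃ b ∈ C, B'' b = B b
    · rw [if_pos h1, if_pos (e1.mp h1)]
    · rw [if_neg h1, if_neg (fun h2 => h1 (e1.mpr h2))]
  unfold kp
  rw [e]

private theorem mb_om (k : ℝ) (hk : 0 < k) :
    0 ≤ k * (4 : ℝ) ^ (-nL k - 1) ∧ k * (4 : ℝ) ^ (-nL k - 1) ≤ 1 := by
  have h1 := lt_nL k
  have h2 : (0 : ℝ) < (4 : ℝ) ^ (-nL k - 1) := zpow_pos (by norm_num) _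
  have h3 : (4 : ℝ) ^ (nL k + 1) * (4 : ℝ) ^ (-nL k - 1) = 1 := by
    rw [← zpow_add₀ (by norm_num : (4 : ℝ) ≠ 0)]
    have : nL k + 1 + (-nL k - 1) = 0 := by ring
    rw [this, zpow_zero]
  refine ⟨mul_nonneg hk.le h2.le, ?_⟩
  calc k * (4 : ℝ) ^ (-nL k - 1) ≤ (4 : ℝ) ^ (nL k + 1) * (4 : ℝ) ^ (-nL k - 1) :=
        mul_le_mul_of_nonneg_right h1.le h2.le
    _ = 1 := h3

private theorem mb_pr (S : Finset ℤ) (ξ : S → Bool) (k : ℝ) (hk : 0 < k) :
    0 ≤ 1 / 2 + 1 / 2 * (sx S ξ (nL k) * (k * (4 : ℝ) ^ (-nL k - 1))) ∧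
    1 / 2 + 1 / 2 * (sx S ξ (nL k) * (k * (4 : ℝ) ^ (-nL k - 1))) ≤ 1 := by
  obtain ⟨h1, h2⟩ := mb_om k hk
  obtain ⟨h3, h4⟩ := abs_le.mp (sx_abs S ξ (nL k))
  set o := k * (4 : ℝ) ^ (-nL k - 1)
  set s := sx S ξ (nL k)
  have h5 : 0 ≤ (1 - s) * o := mul_nonneg (by linarith) h1
  have h6 : 0 ≤ (1 + s) * o := mul_nonneg (by linarith) h1
  constructor
  · have e : (1 + s) * o = o + s * o := by ring
    linarith
  · have e : (1 - s) * o = o - s * o := by ring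
    linarith

private theorem mb_ent {x V : ℝ} (hx : 0 ≤ x) (hxV : x ≤ V) (hV : V ≤ 1) :
    x * Real.log (1 / x) ≤ V * (1 + Real.log (1 / V)) := by
  rcases hx.eq_or_lt with h | h
  · rw [← h, zero_mul]
    rcases (hx.trans hxV).eq_or_lt with h' | h'
    · rw [← h', zero_mul]
    · have h1 : 0 ≤ Real.log (1 / V) := Real.log_nonneg (by rw [le_div_iff₀ h']; linarith)
      exact mul_nonneg h'.le (by linarith)
  · have hV0 : 0 < V := h.trans_le hxV
    have h1 : 0 ≤ Real.log (1 / V) := Real.log_nonneg (by rw [le_div_iff₀ hV0]; linarith)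
    have h2 : Real.log (1 / x) = Real.log (V / x) + Real.log (1 / V) := by
      rw [← Real.log_mul (div_pos hV0 h).ne' (one_div_pos.mpr hV0).ne']
      congr 1
      field_simp
    have h3 : Real.log (V / x) ≤ V / x - 1 := Real.log_le_sub_one_of_pos (div_pos hV0 h)
    have h4 : x * Real.log (V / x) ≤ V - x := by
      have h5 := mul_le_mul_of_nonneg_left h3 h.le
      have e : x * (V / x - 1) = V - x := by field_simp
      linarith
    have h5 : x * Real.log (1 / V) ≤ V * Real.log (1 / V) := mul_le_mul_of_nonneg_right hxV h1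
    have e : V * (1 + Real.log (1 / V)) = V + V * Real.log (1 / V) := by ring
    rw [h2, mul_add, e]
    linarith

private theorem mb_block {α : Type} [Fintype α] (v : α → X → ℝ) (κ : α → ℝ) (R : Matrix X X ℝ)
    (hR : IsClean v R) (hκ : ∀ A, 0 < κ A) (ω : ℤ → ℝ) (h0 : ∀ n, 0 ≤ ω n) (h1 : ∀ n, ω n ≤ 1)
    (pb : α → ℝ) (hp0 : ∀ A, 0 ≤ pb A) (hp1 : ∀ A, pb A ≤ 1) (ρ η : ℝ) (hρ0 : 0 ≤ ρ)
    (hρ1 : ρ ≤ 1) (hη : 0 ≤ η) (hη64 : η * 64 ≤ 1) :
    ρ * η * ∑ A, pb A * qd (off (NQ v κ R (fun A => ω (nL (κ A))))) (Qa R (v A)) - 3 * ML v R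
        - 64 * η ^ 2 * qq v κ R ≤
    ∑ A, pb A * (ρ * η * qd (off (NQ v κ R (fun A => ω (nL (κ A))))) (v A) +
      (1 / 2) * η ^ 2 * n2 (ap (off (NQ v κ R (fun A => ω (nL (κ A))))) (v A))
        - 8 * η ^ 2 * ∑ i, (∑ j, off (NQ v κ R (fun A => ω (nL (κ A)))) i j ^ 2) * v A i ^ 2) := by
  set N := NQ v κ R (fun A => ω (nL (κ A))) with hN
  have hsym : ∀ i j, off N i j = off N j i := by
    intro i j
    unfold off
    by_cases h : i = j
    · subst h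
      rfl
    · rw [if_neg h, if_neg (Ne.symm h), hN]
      exact NQ_symm v κ R _ i j
  have hnorm : ∀ x : X → ℝ, n2 (ap (off N) x) ≤ 64 ^ 2 * n2 x :=
    NQ_off v κ R hR _ hκ (fun A => h0 _) (fun A => h1 _)
  have hD2 : ∑ i, PB v i * ∑ j, off N i j ^ 2 ≤ 8 * qq v κ R := D2_le v κ R hR hκ ω h0 h1
  have hterm : ∀ A, ρ * η * (pb A * qd (off N) (Qa R (v A))) - 3 * n2 (ap R (v A)) -
      8 * η ^ 2 * ∑ i, (∑ j, off N i j ^ 2) * v A i ^ 2 ≤
      pb A * (ρ * η * qd (off N) (v A) + (1 / 2) * η ^ 2 * n2 (ap (off N) (v A))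
        - 8 * η ^ 2 * ∑ i, (∑ j, off N i j ^ 2) * v A i ^ 2) := by
    intro A
    have hc := cross v R hR (off N) hsym ρ η 64 hρ0 hρ1 hη (by norm_num) hη64 hnorm (v A)
    have hn := mb_n2 (ap R (v A))
    have hs : 0 ≤ 8 * η ^ 2 * ∑ i, (∑ j, off N i j ^ 2) * v A i ^ 2 :=
      mul_nonneg (by positivity) (Finset.sum_nonneg fun i _ =>
        mul_nonneg (Finset.sum_nonneg fun j _ => sq_nonneg _) (sq_nonneg _))
    have e1 := mul_le_mul_of_nonneg_left hc (hp0 A)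
    have e2 : pb A * (3 * n2 (ap R (v A))) ≤ 1 * (3 * n2 (ap R (v A))) :=
      mul_le_mul_of_nonneg_right (hp1 A) (by linarith)
    have e3 := mul_le_mul_of_nonneg_right (hp1 A) hs
    set t := 8 * η ^ 2 * ∑ i, (∑ j, off N i j ^ 2) * v A i ^ 2
    have e4 : pb A * (ρ * η * qd (off N) (v A) + (1 / 2) * η ^ 2 * n2 (ap (off N) (v A)) - t) =
        pb A * (ρ * η * qd (off N) (v A) + (1 / 2) * η ^ 2 * n2 (ap (off N) (v A))) - pb A * t := by
      ring
    have e5 : pb A * (ρ * η * qd (off N) (Qa R (v A)) - 3 * n2 (ap R (v A))) =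
        ρ * η * (pb A * qd (off N) (Qa R (v A))) - pb A * (3 * n2 (ap R (v A))) := by ring
    rw [e4]
    linarith
  have hsum : ∑ A, ∑ i, (∑ j, off N i j ^ 2) * v A i ^ 2 = ∑ i, PB v i * ∑ j, off N i j ^ 2 := by
    rw [Finset.sum_comm]
    refine Finset.sum_congr rfl fun i _ => ?_
    rw [← Finset.mul_sum]
    unfold PB
    rw [mul_comm]
  have htot : ∑ A, (ρ * η * (pb A * qd (off N) (Qa R (v A))) - 3 * n2 (ap R (v A)) -
      8 * η ^ 2 * ∑ i, (∑ j, off N i j ^ 2) * v A i ^ 2) =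
      ρ * η * ∑ A, pb A * qd (off N) (Qa R (v A)) - 3 * ML v R -
        8 * η ^ 2 * ∑ i, PB v i * ∑ j, off N i j ^ 2 := by
    rw [Finset.sum_sub_distrib, Finset.sum_sub_distrib, ← Finset.mul_sum, ← Finset.mul_sum,
      ← Finset.mul_sum, hsum]
    rfl
  have h2 := Finset.sum_le_sum fun A (_ : A ∈ (Finset.univ : Finset α)) => hterm A
  rw [htot] at h2
  refine le_trans ?_ h2
  have h3 := mul_le_mul_of_nonneg_left hD2 (by positivity : 0 ≤ 8 * η ^ 2)
  have e6 : 8 * η ^ 2 * (8 * qq v κ R) = 64 * η ^ 2 * qq v κ R := by ring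
  linarith

theorem main_bound (c : (ι → X) → ℝ) (hc : Bdd c) (θ : ℝ) (hθ : 0 < θ) (C : Finset ι)
    (R : ι → Matrix X X ℝ) (hR : ∀ b, IsClean (vA c b) (R b)) :
    ∑ b ∈ Cᶜ, TQ (vA c b) (kA θ c C b) (R b) ≤ 4000000 * (VV c * (1 + Real.log (1 / VV c))) := by
  classical
  have hV0 := VV_nonneg c
  have hV1 := VV_le_one c hc
  set S : Finset ℤ := Finset.univ.biUnion fun b : ι =>
    Finset.univ.image fun A : {j // j ≠ b} → X => nL (kA θ c C b A) with hSdef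
  have hS : ∀ b A, nL (kA θ c C b A) ∈ S := by
    intro b A
    rw [hSdef, Finset.mem_biUnion]
    exact ⟨b, Finset.mem_univ _, Finset.mem_image.mpr ⟨A, Finset.mem_univ _, rfl⟩⟩
  set η : ℝ := 1 / 4000 with hη
  set D : ℝ := η * 16 + 6 * η ^ 2 * 64 ^ 2 with hD
  set ρ : ℝ := Real.exp (-D) with hρ
  have hDv : D = 5536 / 1000000 := by
    rw [hD, hη]
    norm_num
  have hρ0 : 0 ≤ ρ := (Real.exp_pos _).le
  have hρ1 : ρ ≤ 1 := by
    rw [hρ, Real.exp_le_one_iff, hDv]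
    norm_num
  have hρ2 : 994 / 1000 ≤ ρ := by
    have h := Real.add_one_le_exp (-D)
    rw [hDv] at h
    rw [hρ, hDv]
    linarith
  -- one sign pattern
  have hxi : ∀ ξ : S → Bool, ∑ b ∈ Cᶜ, (ρ * η * ∑ A : {j // j ≠ b} → X,
      (1 / 2 + 1 / 2 * (sx S ξ (nL (kA θ c C b A)) *
        (kA θ c C b A * (4 : ℝ) ^ (- nL (kA θ c C b A) - 1)))) *
        qd (off (NQ (vA c b) (kA θ c C b) (R b)
          (fun A' => (1 + sx S ξ (nL (kA θ c C b A'))) / 2))) (Qa (R b) (vA c b A)) -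
        3 * ML (vA c b) (R b) - 64 * η ^ 2 * qq (vA c b) (kA θ c C b) (R b)) ≤
      VV c * (1 + Real.log (1 / VV c)) := by
    intro ξ
    have hω0 : ∀ n : ℤ, 0 ≤ (1 + sx S ξ n) / 2 := fun n => by
      have := (abs_le.mp (sx_abs S ξ n)).1
      linarith
    have hω1 : ∀ n : ℤ, (1 + sx S ξ n) / 2 ≤ 1 := fun n => by
      have := (abs_le.mp (sx_abs S ξ n)).2
      linarith
    have ht := tilt c hc C
      (fun B => 1 / 2 + 1 / 2 * (sx S ξ (nL (kp θ c C B)) *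
        (kp θ c C B * (4 : ℝ) ^ (- nL (kp θ c C B) - 1))))
      (fun B => (mb_pr S ξ _ (mb_kp_pos θ hθ c C B)).1)
      (fun B => (mb_pr S ξ _ (mb_kp_pos θ hθ c C B)).2)
      (fun B B' h => by
        simp only [mb_kp_congr θ c C B B' h])
      (fun b A => 1 / 2 + 1 / 2 * (sx S ξ (nL (kA θ c C b A)) *
        (kA θ c C b A * (4 : ℝ) ^ (- nL (kA θ c C b A) - 1))))
      (fun b A => (mb_pr S ξ _ (mb_kA_pos θ hθ c C b A)).1)
      (fun b hb A i => by
        simp only [kp_ins θ c C b hb i A])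
      (fun b => NQ (vA c b) (kA θ c C b) (R b) (fun A' => (1 + sx S ξ (nL (kA θ c C b A'))) / 2))
      (fun b _ => NQ_psd _ _ _ _ (fun A => (mb_kA_pos θ hθ c C b A).le) (fun A => hω0 _))
      η 16 64 D (by rw [hη]; norm_num) (by norm_num) (by rw [hη]; norm_num) hD
      (by rw [hDv]; norm_num)
      (fun b _ i => NQ_diag _ _ _ (hR b) _ (fun A => mb_kA_pos θ hθ c C b A) (fun A => hω0 _)
        (fun A => hω1 _) i)
      (fun b _ x => NQ_off _ _ _ (hR b) _ (fun A => mb_kA_pos θ hθ c C b A) (fun A => hω0 _)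
        (fun A => hω1 _) x)
    refine le_trans (Finset.sum_le_sum fun b _ => ?_) (le_trans ht ?_)
    · exact mb_block (vA c b) (kA θ c C b) (R b) (hR b) (fun A => mb_kA_pos θ hθ c C b A)
        (fun n => (1 + sx S ξ n) / 2) hω0 hω1 _
        (fun A => (mb_pr S ξ _ (mb_kA_pos θ hθ c C b A)).1)
        (fun A => (mb_pr S ξ _ (mb_kA_pos θ hθ c C b A)).2) ρ η hρ0 hρ1
        (by rw [hη]; norm_num) (by rw [hη]; norm_num)
    · refine mb_ent ?_ ?_ hV1
      · exact Finset.sum_nonneg fun B _ =>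
          mul_nonneg (mb_pr S ξ _ (mb_kp_pos θ hθ c C B)).1 (sq_nonneg _)
      · unfold VV
        refine Finset.sum_le_sum fun B _ => ?_
        have h := mul_le_mul_of_nonneg_right (mb_pr S ξ _ (mb_kp_pos θ hθ c C B)).2
          (sq_nonneg (c B))
        rw [one_mul] at h
        exact h
  have hE := Ex_mono _ _ hxi
  rw [Ex_const, Ex_sum] at hE
  have hE2 : ∀ b ∈ Cᶜ, Ex (fun ξ : S → Bool => ρ * η * ∑ A : {j // j ≠ b} → X,
      (1 / 2 + 1 / 2 * (sx S ξ (nL (kA θ c C b A)) *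
        (kA θ c C b A * (4 : ℝ) ^ (- nL (kA θ c C b A) - 1)))) *
        qd (off (NQ (vA c b) (kA θ c C b) (R b)
          (fun A' => (1 + sx S ξ (nL (kA θ c C b A'))) / 2))) (Qa (R b) (vA c b A)) -
        3 * ML (vA c b) (R b) - 64 * η ^ 2 * qq (vA c b) (kA θ c C b) (R b)) =
      ρ * η * ((1 / 4) * TQ (vA c b) (kA θ c C b) (R b) +
        (1 / 16) * qq (vA c b) (kA θ c C b) (R b)) - 3 * ML (vA c b) (R b) -
        64 * η ^ 2 * qq (vA c b) (kA θ c C b) (R b) := by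
    intro b _
    rw [Ex_sub, Ex_sub, Ex_mul_left, Ex_const, Ex_const,
      first_order (vA c b) (kA θ c C b) (R b) (hR b) S (hS b)]
  rw [Finset.sum_congr rfl hE2] at hE
  -- lower bound of every term
  have hlow : ∑ b ∈ Cᶜ, (ρ * η / 4 * TQ (vA c b) (kA θ c C b) (R b) - 3 * ML (vA c b) (R b)) ≤
      VV c * (1 + Real.log (1 / VV c)) := by
    refine le_trans (Finset.sum_le_sum fun b _ => ?_) hE
    have hq := qq_nonneg (vA c b) (kA θ c C b) (R b)
    have h1 : 0 ≤ (ρ * η / 16 - 64 * η ^ 2) * qq (vA c b) (kA θ c C b) (R b) := by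
      refine mul_nonneg ?_ hq
      rw [hη]
      nlinarith
    nlinarith
  rw [Finset.sum_sub_distrib, ← Finset.mul_sum, ← Finset.mul_sum] at hlow
  have hML : ∑ b ∈ Cᶜ, ML (vA c b) (R b) ≤ ∑ b, ML (vA c b) (R b) :=
    Finset.sum_le_univ_sum_of_nonneg fun b => Finset.sum_nonneg fun A _ => mb_n2 _
  have hML2 := ML_sum c hc R hR
  have hL : 0 ≤ VV c * Real.log (1 / VV c) := by
    rcases hV0.eq_or_lt with h | h
    · rw [← h, zero_mul]
    · exact mul_nonneg hV0 (Real.log_nonneg (by rw [le_div_iff₀ h]; linarith))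
  have e1 : VV c * (1 + Real.log (1 / VV c)) = VV c + VV c * Real.log (1 / VV c) := by ring
  set T := ∑ b ∈ Cᶜ, TQ (vA c b) (kA θ c C b) (R b)
  set W := VV c * (1 + Real.log (1 / VV c))
  have h1 : ρ * η / 4 * T ≤ 229 * W := by linarith
  have hW : 0 ≤ W := by linarith
  by_cases hT : T ≤ 0
  · linarith
  · have hT' : 0 < T := not_le.mp hT
    have h2 : 994 / 1000 / 16000 * T ≤ ρ * η / 4 * T := by
      refine mul_le_mul_of_nonneg_right ?_ hT'.le
      rw [hη]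
      linarith
    linarith

end BMP
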