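import Pool.Agent.BMP.Key
import Pool.Agent.BMP.Facts

/-! BMP OneDrift: inequality (1.2) of the paper proof, for one block.

For every `A` apply `drift_one` with `K = α`, `g A' = if hit A A' then v A' else 0`, `z = zC v κ R A`,
`y = v A - z = (hot part of v A) + ap R (uC v κ A)`. Then with `U i = ∑ A', if hit then 0 else v A' i ^ 2`:
(1) `∑_{hit} (⟨z,v_A'⟩^2 - ∑ z_i^2 v_A'(i)^2) ≤ ∑_{A'} (⟨z,v_A'⟩^2 - ∑ z_i^2 v_A'(i)^2) + ∑ z_i^2 U i` (drop `⟨z,v_A'⟩^2 ≥ 0`);
(2) `⟨z, v_A'⟩ = ⟨z, Q v_A'⟩` (z = Q z) and `∑_A' v_A'(i)^2 = P_i ≥ ∑_A' (Q v_A')(i)^2` (F3), so the first sum is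
   `≤ qd (off ΓQ) z`, `ΓQ i j = ∑ A', Qa R (v A') i * Qa R (v A') j`;
(3) `n2 y = n2 (hot part) + n2 (ap R (uC A))` (R does not mix levels: `ap_trunc`, supports disjoint), `n2 (ap R (uC A)) ≤ n2 (ap R (v A))`;
(4) cold coordinates: `κ P_i < 4^(n+1) 4^(-m) ≤ 16`, and `U i ≤ P_i`, so `κ U ≤ 16 min(1, κ U)` and
   `2 κ z_i^2 U ≤ 4 κ U u_i^2 + 4 κ U (R u)_i^2 ≤ 64 u_i^2 min(1,κ U) + 64 (R u)_i^2`  (z = u - R u, everything on cold coordinates);
(5) hot coordinates (`m + 2 ≤ n`) with `P_i > 0`: `κ P_i > 4^n 4^(-m-1) ≥ 4`, `κ ∑_{hit} v_A'(i)^2 ≤ κ ∑_{hit} n2 (v A') ≤ 1`, so `κ U ≥ 3` and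
   `9 v_A(i)^2 = 9 v_A(i)^2 min(1, κ U)`; if `P_i = 0` then `v_A(i) = 0`.
Total constants: `9 + 64 = 73` for `n2 (ap R (v A))`, `64` for the E-type terms. -/

namespace BMP

open Finset

variable {α X : Type} [Fintype α] [Fintype X] [DecidableEq X]

/-- the per-`A` algebra -/
private theorem qd_off (Γ : Matrix X X ℝ) (z : X → ℝ) :
    qd (off Γ) z = (∑ i, ∑ j, z i * Γ i j * z j) - ∑ i, z i ^ 2 * Γ i i := by
  unfold qd
  rw [← Finset.sum_sub_distrib]
  refine Finset.sum_congr rfl fun i _ => ?_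
  have h1 : ∀ j, z i * off Γ i j * z j = z i * Γ i j * z j - (if j = i then z i ^ 2 * Γ i i else 0) := by
    intro j
    by_cases h : i = j
    · subst h; simp [off]; ring
    · have h' : ¬ j = i := fun e => h e.symm
      simp [off, h, h']
  rw [Finset.sum_congr rfl fun j _ => h1 j, Finset.sum_sub_distrib]
  simp

private theorem gram_expand (w : α → X → ℝ) (z : X → ℝ) :
    ∑ i, ∑ j, z i * (∑ A', w A' i * w A' j) * z j = ∑ A', (∑ i, z i * w A' i) ^ 2 := by
  have h2 : ∀ A', (∑ i, z i * w A' i) ^ 2 = ∑ i, ∑ j, (z i * w A' i) * (z j * w A' j) := by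
    intro A
    rw [sq, Finset.sum_mul_sum]
  calc ∑ i, ∑ j, z i * (∑ A', w A' i * w A' j) * z j
      = ∑ i : X, ∑ j : X, ∑ A' : α, (z i * w A' i) * (z j * w A' j) := by
        refine Finset.sum_congr rfl fun i _ => Finset.sum_congr rfl fun j _ => ?_
        rw [Finset.mul_sum, Finset.sum_mul]
        refine Finset.sum_congr rfl fun A _ => by ring
    _ = ∑ i : X, ∑ A' : α, ∑ j : X, (z i * w A' i) * (z j * w A' j) :=
        Finset.sum_congr rfl fun i _ => Finset.sum_comm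
    _ = ∑ A' : α, ∑ i : X, ∑ j : X, (z i * w A' i) * (z j * w A' j) := Finset.sum_comm
    _ = ∑ A' : α, (∑ i, z i * w A' i) ^ 2 := Finset.sum_congr rfl fun A' _ => (h2 A').symm

private theorem per_A (v : α → X → ℝ) (hit : α → α → Prop) [∀ A A', Decidable (hit A A')]
    (θ : ℝ) (hθ : 0 < θ) (κ : α → ℝ)
    (hκ : ∀ A, κ A = 1 / (θ + ∑ A', if hit A A' then n2 (v A') else 0))
    (R : Matrix X X ℝ) (hR : IsClean v R) (A : α) :
    Ex (fun s => dt (v A) s ^ 2 *
        Real.log (κ A * (θ + ∑ A', if hit A A' then dt (v A') s ^ 2 else 0))) ≤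
      2 * (κ A * qd (off (fun i j => ∑ A', Qa R (v A') i * Qa R (v A') j)) (zC v κ R A)) +
        73 * n2 (ap R (v A)) +
        64 * ∑ i, v A i ^ 2 * min 1 (κ A * ∑ A', if hit A A' then 0 else v A' i ^ 2) := by
  have hs0 : 0 ≤ ∑ A', (if hit A A' then n2 (v A') else 0) := by
    refine Finset.sum_nonneg fun A' _ => ?_
    split_ifs
    · exact Finset.sum_nonneg fun i _ => sq_nonneg _
    · exact le_rfl
  have hden : 0 < θ + ∑ A', (if hit A A' then n2 (v A') else 0) := by linarith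
  have hκ0 : 0 < κ A := by rw [hκ]; positivity
  have hκ1 : κ A * ∑ A', (if hit A A' then n2 (v A') else 0) ≤ 1 := by
    rw [hκ, one_div, inv_mul_le_iff₀ hden]; linarith
  -- the family g
  obtain ⟨g, hg⟩ : ∃ g : α → X → ℝ, g = fun A' i => if hit A A' then v A' i else 0 := ⟨_, rfl⟩
  have hn : ∀ A', n2 (g A') = if hit A A' then n2 (v A') else 0 := by
    intro A'; rw [hg]; by_cases h : hit A A' <;> simp [h, n2]
  have hd : ∀ A' s, dt (g A') s ^ 2 = if hit A A' then dt (v A') s ^ 2 else 0 := by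
    intro A' s; rw [hg]; by_cases h : hit A A' <;> simp [h, dt]
  obtain ⟨z, hz⟩ : ∃ z : X → ℝ, z = zC v κ R A := ⟨_, rfl⟩
  have D := drift_one g θ hθ (v A) z (fun i => v A i - z i) (fun i => by ring)
  simp only [hn, hd] at D
  rw [← hκ A] at D
  refine D.trans ?_
  rw [← hz]
  -- U
  obtain ⟨U, hU⟩ : ∃ U : X → ℝ, U = fun i => ∑ A', if hit A A' then 0 else v A' i ^ 2 := ⟨_, rfl⟩
  have hU0 : ∀ i, 0 ≤ U i := by
    intro i; rw [hU]
    refine Finset.sum_nonneg fun A' _ => ?_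
    split_ifs
    · exact le_rfl
    · exact sq_nonneg _
  have hUP : ∀ i, PB v i = (∑ A', if hit A A' then v A' i ^ 2 else 0) + U i := by
    intro i
    rw [hU]
    unfold PB
    rw [← Finset.sum_add_distrib]
    refine Finset.sum_congr rfl fun A' _ => ?_
    by_cases h : hit A A' <;> simp [h]
  have hH0 : ∀ i, 0 ≤ ∑ A', (if hit A A' then v A' i ^ 2 else 0) := by
    intro i
    refine Finset.sum_nonneg fun A' _ => ?_
    split_ifs
    · exact sq_nonneg _
    · exact le_rfl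
  have hH1 : ∀ i, κ A * ∑ A', (if hit A A' then v A' i ^ 2 else 0) ≤ 1 := by
    intro i
    refine le_trans (mul_le_mul_of_nonneg_left ?_ hκ0.le) hκ1
    refine Finset.sum_le_sum fun A' _ => ?_
    split_ifs
    · exact Finset.single_le_sum (f := fun j => v A' j ^ 2) (fun j _ => sq_nonneg _) (Finset.mem_univ i)
    · exact le_rfl
  -- z
  have hzi : ∀ i, z i = if nL (κ A) ≤ mL v i + 1 then Qa R (v A) i else 0 := by
    intro i; rw [hz]; exact zC_eq v R hR κ A i
  have hzQ : Qa R z = z := by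
    rw [hz]; unfold zC; exact Qa_idem v R hR _
  have hzv : ∀ A', ∑ i, z i * v A' i = ∑ i, z i * Qa R (v A') i := by
    intro A'
    rw [Qa_symm v R hR, hzQ]
  -- step 1
  have s1 : ∑ A', ((∑ i, z i * g A' i) ^ 2 - ∑ i, z i ^ 2 * g A' i ^ 2) ≤
      (∑ A', ((∑ i, z i * v A' i) ^ 2 - ∑ i, z i ^ 2 * v A' i ^ 2)) + ∑ i, z i ^ 2 * U i := by
    have e : ∑ i, z i ^ 2 * U i = ∑ A', (if hit A A' then 0 else ∑ i, z i ^ 2 * v A' i ^ 2) := by
      have : ∀ i, z i ^ 2 * U i = ∑ A', (if hit A A' then 0 else z i ^ 2 * v A' i ^ 2) := by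
        intro i
        rw [hU, Finset.mul_sum]
        refine Finset.sum_congr rfl fun A' _ => ?_
        by_cases h : hit A A' <;> simp [h]
      rw [Finset.sum_congr rfl fun i _ => this i, Finset.sum_comm]
      refine Finset.sum_congr rfl fun A' _ => ?_
      by_cases h : hit A A' <;> simp [h]
    rw [e, ← Finset.sum_add_distrib]
    refine Finset.sum_le_sum fun A' _ => ?_
    by_cases h : hit A A'
    · simp [hg, h]
    · simp only [hg, h, if_false]
      simp only [mul_zero, Finset.sum_const_zero]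
      have := sq_nonneg (∑ i, z i * v A' i)
      norm_num
      exact this
  -- step 2
  have s2 : (∑ A', ((∑ i, z i * v A' i) ^ 2 - ∑ i, z i ^ 2 * v A' i ^ 2)) ≤
      qd (off (fun i j => ∑ A', Qa R (v A') i * Qa R (v A') j)) z := by
    rw [qd_off (fun i j => ∑ A', Qa R (v A') i * Qa R (v A') j) z, gram_expand (fun A' => Qa R (v A')) z,
      Finset.sum_sub_distrib]
    have e1 : ∑ A', (∑ i, z i * v A' i) ^ 2 = ∑ A', (∑ i, z i * Qa R (v A') i) ^ 2 :=
      Finset.sum_congr rfl fun A' _ => by rw [hzv A']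
    rw [e1]
    have e2 : ∑ i, z i ^ 2 * ∑ A', Qa R (v A') i * Qa R (v A') i ≤ ∑ A', ∑ i, z i ^ 2 * v A' i ^ 2 := by
      rw [Finset.sum_comm (s := (Finset.univ : Finset α))]
      refine Finset.sum_le_sum fun i _ => ?_
      rw [← Finset.mul_sum]
      refine mul_le_mul_of_nonneg_left ?_ (sq_nonneg _)
      have := F3 v R hR i
      unfold PB at this
      refine le_trans (le_of_eq ?_) this
      exact Finset.sum_congr rfl fun A' _ => by ring
    linarith
  -- pointwise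
  have s3 : ∀ i, 2 * κ A * (z i ^ 2 * U i) + 9 * (v A i - z i) ^ 2 ≤
      73 * ap R (v A) i ^ 2 + 64 * (v A i ^ 2 * min 1 (κ A * U i)) := by
    intro i
    have hU' := hU0 i
    have hr2 : 0 ≤ ap R (v A) i ^ 2 := sq_nonneg _
    have hv2 : 0 ≤ v A i ^ 2 := sq_nonneg _
    by_cases hc : nL (κ A) ≤ mL v i + 1
    · have hz1 : z i = v A i - ap R (v A) i := by rw [hzi, if_pos hc]; rfl
      have k1 : κ A < (4 : ℝ) ^ (mL v i + 2) := by
        refine (lt_nL (κ A)).trans_le ?_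
        exact zpow_le_zpow_right₀ (by norm_num) (by omega)
      have k2 : PB v i ≤ (4 : ℝ) ^ (- mL v i) := PB_le v i
      have k3 : U i ≤ PB v i := by rw [hUP i]; linarith [hH0 i]
      have k4 : κ A * U i ≤ 16 := by
        have a1 : κ A * U i ≤ (4 : ℝ) ^ (mL v i + 2) * (4 : ℝ) ^ (- mL v i) := by
          apply mul_le_mul k1.le (k3.trans k2) hU' (by positivity)
        rw [← zpow_add₀ (by norm_num : (4 : ℝ) ≠ 0)] at a1
        have : mL v i + 2 + - mL v i = 2 := by ring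
        rw [this] at a1
        norm_num at a1
        exact a1
      have k5 : κ A * U i ≤ 16 * min 1 (κ A * U i) := by
        have k6 : 0 ≤ κ A * U i := mul_nonneg hκ0.le hU'
        rcases le_total 1 (κ A * U i) with h | h
        · rw [min_eq_left h]; linarith
        · rw [min_eq_right h]; linarith
      have k6 : 0 ≤ κ A * U i := mul_nonneg hκ0.le hU'
      have k7 : z i ^ 2 ≤ 2 * v A i ^ 2 + 2 * ap R (v A) i ^ 2 := by
        rw [hz1]; nlinarith [sq_nonneg (v A i + ap R (v A) i)]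
      have k8 : v A i - z i = ap R (v A) i := by rw [hz1]; ring
      rw [k8]
      have k9 : 2 * κ A * (z i ^ 2 * U i) ≤ 4 * (κ A * U i) * v A i ^ 2 + 4 * (κ A * U i) * ap R (v A) i ^ 2 := by
        have := mul_le_mul_of_nonneg_left k7 k6
        nlinarith
      have k10 : (κ A * U i) * v A i ^ 2 ≤ 16 * min 1 (κ A * U i) * v A i ^ 2 :=
        mul_le_mul_of_nonneg_right k5 hv2
      have k11 : (κ A * U i) * ap R (v A) i ^ 2 ≤ 16 * ap R (v A) i ^ 2 :=
        mul_le_mul_of_nonneg_right k4 hr2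
      nlinarith
    · have hz1 : z i = 0 := by rw [hzi, if_neg hc]
      rw [hz1]
      by_cases hP : 0 < PB v i
      · have k1 : (4 : ℝ) ^ (nL (κ A)) ≤ κ A := nL_le (κ A) hκ0
        have k2 := PB_gt v i hP
        have k3 : 4 ≤ κ A * PB v i := by
          have a1 : (4 : ℝ) ^ (nL (κ A)) * (4 : ℝ) ^ (- mL v i - 1) ≤ κ A * PB v i :=
            mul_le_mul k1 k2.le (by positivity) hκ0.le
          rw [← zpow_add₀ (by norm_num : (4 : ℝ) ≠ 0)] at a1
          have a2 : (4 : ℝ) ^ (1 : ℤ) ≤ (4 : ℝ) ^ (nL (κ A) + (- mL v i - 1)) :=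
            zpow_le_zpow_right₀ (by norm_num) (by omega)
          norm_num at a2
          have : (4 : ℝ) ^ (nL (κ A) + (- mL v i - 1)) ≤ κ A * PB v i := a1
          linarith
        have k4 : 1 ≤ κ A * U i := by
          have h1 := hH1 i
          rw [hUP i, mul_add] at k3
          linarith
        rw [min_eq_left k4]
        nlinarith
      · have hv0 : v A i = 0 := by
          have h1 : v A i ^ 2 ≤ PB v i :=
            Finset.single_le_sum (f := fun A' => v A' i ^ 2) (fun j _ => sq_nonneg _) (Finset.mem_univ A)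
          have h2 : v A i ^ 2 ≤ 0 := by linarith
          exact pow_eq_zero_iff (two_ne_zero) |>.mp (le_antisymm h2 (sq_nonneg _))
        rw [hv0]
        nlinarith
  -- conclusion
  have s4 : 2 * κ A * (∑ i, z i ^ 2 * U i) + 9 * n2 (fun i => v A i - z i) ≤
      73 * n2 (ap R (v A)) + 64 * ∑ i, v A i ^ 2 * min 1 (κ A * U i) := by
    unfold n2
    rw [Finset.mul_sum, Finset.mul_sum, Finset.mul_sum, Finset.mul_sum, ← Finset.sum_add_distrib,
      ← Finset.sum_add_distrib]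
    exact Finset.sum_le_sum fun i _ => s3 i
  have s5 : 2 * κ A * (∑ A', ((∑ i, z i * g A' i) ^ 2 - ∑ i, z i ^ 2 * g A' i ^ 2)) ≤
      2 * κ A * (qd (off (fun i j => ∑ A', Qa R (v A') i * Qa R (v A') j)) z + ∑ i, z i ^ 2 * U i) :=
    mul_le_mul_of_nonneg_left (s1.trans (by linarith)) (by positivity)
  have hUi : ∀ i, U i = ∑ A', if hit A A' then 0 else v A' i ^ 2 := fun i => by rw [hU]
  simp only [← hUi]
  nlinarith

theorem one_drift (v : α → X → ℝ) (hit : α → α → Prop) [∀ A A', Decidable (hit A A')]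
    (θ : ℝ) (hθ : 0 < θ) (κ : α → ℝ)
    (hκ : ∀ A, κ A = 1 / (θ + ∑ A', if hit A A' then n2 (v A') else 0))
    (R : Matrix X X ℝ) (hR : IsClean v R) :
    ∑ A, Ex (fun s => dt (v A) s ^ 2 *
        Real.log (κ A * (θ + ∑ A', if hit A A' then dt (v A') s ^ 2 else 0))) ≤
      2 * TQ v κ R + 73 * ML v R +
        64 * ∑ A, ∑ i, v A i ^ 2 * min 1 (κ A * ∑ A', if hit A A' then 0 else v A' i ^ 2) := by
  refine (Finset.sum_le_sum fun A _ => per_A v hit θ hθ κ hκ R hR A).trans (le_of_eq ?_)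
  rw [Finset.sum_add_distrib, Finset.sum_add_distrib]
  unfold TQ ML
  rw [Finset.mul_sum, Finset.mul_sum, Finset.mul_sum]

end BMP
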