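import Pool.Agent.BMP.Defs

/-! BMP Pol: the second order computation for one block (pure linear algebra in `ℝ^X`).

`O = off N` (symmetric), `M i j = ∑ k, O i k * O k j` (so `M i i = ∑ k, O i k ^ 2`, `⟨x, M x⟩ = |O x|^2`, `|M x|^2 ≤ K^2 |O x|^2`,
`M i i ≤ K^2` and `∑ j, M i j ^ 2 = |O (O e_i)|^2 ≤ K^2 M i i`), `n = η N + 6 η^2 M` is PSD with diagonal `≤ D ≤ 1/10`, so `|n i j| ≤ D`.
`rho = exp(-D) ≥ 9/10`, `S = 1 + rho off(sinh[n])`, `Y = S - 1 = rho (η O + 6 η^2 (M - diag M) + E)`,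
`E i j = sinh (n i j) - n i j` for `i ≠ j`: `|E i j| ≤ |n i j|^3/5 ≤ (D/5)(2 η^2 O_ij^2 + 72 η^4 M_ij^2)`
(for `i ≠ j`, `n i j = η O_ij + 6 η^2 M_ij`), hence `∑_j |E i j| ≤ (D/5)(2 η^2 + 72 η^4 K^2) M_ii ≤ η^2 M_ii ≤ η^2 K^2 ≤ 1/441`.
`|⟨x,E x⟩| ≤ ∑_i x_i^2 ∑_j |E_ij| ≤ η^2 ∑ M_ii x_i^2`, `|E x|^2 ≤ (1/441) ∑_i x_i^2 ∑_j |E_ij| ≤ η^2 ∑ M_ii x_i^2`.
`|Y x|^2 ≤ 2 η^2 |O x|^2 + 6 (36 η^4 |M x|^2 + 36 η^4 ∑ M_ii^2 x_i^2 + |E x|^2)`; all terms `≤ |x|^2/4` in total, which is (1). (2):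
`⟨x,Yx⟩ - |Yx|^2 ≥ rho η ⟨x,Ox⟩ + η^2 |Ox|^2 (6 rho - 2 - 216 η^2 K^2) - η^2 ∑ M_ii x_i^2 (6 + 216 η^2 K^2 + ...)`,
`216/441 < 1/2`, `6 rho - 2 ≥ 3`; the last bracket is `≤ 8` (`6 + 0.49 + 1 + 6/441`; use the sharper `∑_j |E_ij| ≤ (1/10) η^2 M_ii` if wanted). -/

namespace BMP

open Finset

variable {X : Type} [Fintype X] [DecidableEq X]

/-- the matrix `n = η N + 6 η^2 O^2` -/
noncomputable def nM (η : ℝ) (N : Matrix X X ℝ) : Matrix X X ℝ :=
  fun i j => η * N i j + 6 * η ^ 2 * ∑ k, off N i k * off N k j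

/-- the tilt -/
noncomputable def SM (η D : ℝ) (N : Matrix X X ℝ) : Matrix X X ℝ :=
  fun i j => if i = j then (1 : ℝ) else Real.exp (-D) * Real.sinh (nM η N i j)

private theorem po_symm {N : Matrix X X ℝ} (hN : N.PosSemidef) (i j : X) : N i j = N j i := by
  have h := hN.1.apply i j
  simpa using h.symm

private theorem po_off_symm {N : Matrix X X ℝ} (hN : N.PosSemidef) (i j : X) :
    off N i j = off N j i := by
  unfold off
  by_cases h : i = j
  · rw [if_pos h, if_pos h.symm]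
  · rw [if_neg h, if_neg (Ne.symm h), po_symm hN]

/-- the square of the off-diagonal part -/
private noncomputable def MM (N : Matrix X X ℝ) (i j : X) : ℝ := ∑ k, off N i k * off N k j

private theorem po_MM_symm {N : Matrix X X ℝ} (hN : N.PosSemidef) (i j : X) : MM N i j = MM N j i := by
  unfold MM
  refine Finset.sum_congr rfl fun k _ => ?_
  rw [po_off_symm hN i k, po_off_symm hN k j]
  ring

private theorem po_MM_self {N : Matrix X X ℝ} (hN : N.PosSemidef) (i : X) :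
    MM N i i = ∑ j, off N i j ^ 2 := by
  unfold MM
  refine Finset.sum_congr rfl fun k _ => ?_
  rw [po_off_symm hN k i]
  ring

private theorem po_MM_nonneg {N : Matrix X X ℝ} (hN : N.PosSemidef) (i : X) : 0 ≤ MM N i i := by
  rw [po_MM_self hN]
  exact Finset.sum_nonneg fun j _ => sq_nonneg _

private theorem po_ap_ap (N : Matrix X X ℝ) (x : X → ℝ) (i : X) :
    ap (off N) (ap (off N) x) i = ∑ j, MM N i j * x j := by
  unfold ap MM
  simp only [Finset.mul_sum, Finset.sum_mul]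
  rw [Finset.sum_comm]
  refine Finset.sum_congr rfl fun j _ => Finset.sum_congr rfl fun k _ => ?_
  ring

private theorem po_inner {N : Matrix X X ℝ} (hN : N.PosSemidef) (x : X → ℝ) :
    ∑ i, x i * ap (off N) (ap (off N) x) i = n2 (ap (off N) x) := by
  unfold n2
  have h1 : ∀ i, x i * ap (off N) (ap (off N) x) i = ∑ j, x i * (off N i j * ap (off N) x j) := by
    intro i
    conv_lhs => unfold ap
    rw [Finset.mul_sum]
    rfl
  simp only [h1]
  rw [Finset.sum_comm]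
  refine Finset.sum_congr rfl fun j _ => ?_
  have h2 : ap (off N) x j = ∑ i, off N i j * x i := by
    unfold ap
    exact Finset.sum_congr rfl fun i _ => by rw [po_off_symm hN]
  calc ∑ i, x i * (off N i j * ap (off N) x j)
      = (∑ i, off N i j * x i) * ap (off N) x j := by
        rw [Finset.sum_mul]
        exact Finset.sum_congr rfl fun i _ => by ring
    _ = ap (off N) x j ^ 2 := by rw [← h2]; ring

private theorem po_row {N : Matrix X X ℝ} (hN : N.PosSemidef) {K : ℝ}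
    (hK : ∀ x : X → ℝ, n2 (ap (off N) x) ≤ K ^ 2 * n2 x) (i : X) :
    ∑ j, MM N i j ^ 2 ≤ K ^ 2 * MM N i i := by
  have h := hK (fun k => off N i k)
  have h1 : n2 (ap (off N) fun k => off N i k) = ∑ j, MM N i j ^ 2 := by
    unfold n2
    refine Finset.sum_congr rfl fun j _ => ?_
    congr 1
    unfold ap MM
    refine Finset.sum_congr rfl fun k _ => ?_
    rw [po_off_symm hN j k]
    ring
  have h2 : n2 (fun k => off N i k) = MM N i i := by
    rw [po_MM_self hN]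
    rfl
  rw [h1, h2] at h
  exact h

private theorem po_MM_le {N : Matrix X X ℝ} (hN : N.PosSemidef) {K : ℝ}
    (hK : ∀ x : X → ℝ, n2 (ap (off N) x) ≤ K ^ 2 * n2 x) (i : X) : MM N i i ≤ K ^ 2 := by
  have h := hK (Pi.single i 1)
  have h1 : n2 (Pi.single i (1 : ℝ)) = 1 := by
    unfold n2
    rw [Finset.sum_eq_single i]
    · simp
    · intro j _ hj
      rw [Pi.single_eq_of_ne hj]
      ring
    · intro hi
      exact absurd (Finset.mem_univ i) hi
  have h2 : n2 (ap (off N) (Pi.single i (1 : ℝ))) = MM N i i := by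
    rw [po_MM_self hN]
    unfold n2
    refine Finset.sum_congr rfl fun j _ => ?_
    congr 1
    unfold ap
    rw [Finset.sum_eq_single i]
    · rw [Pi.single_eq_same, mul_one, po_off_symm hN]
    · intro k _ hk
      rw [Pi.single_eq_of_ne hk, mul_zero]
    · intro hi
      exact absurd (Finset.mem_univ i) hi
  rw [h1, h2, mul_one] at h
  exact h

private theorem nM_eq (η : ℝ) (N : Matrix X X ℝ) (i j : X) :
    nM η N i j = η * N i j + 6 * η ^ 2 * MM N i j := rfl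

theorem nM_psd (η : ℝ) (hη : 0 < η) (N : Matrix X X ℝ) (hN : N.PosSemidef) : (nM η N).PosSemidef := by
  let O : Matrix X X ℝ := off N
  have hO : O.conjTranspose = O := by
    ext i j
    rw [Matrix.conjTranspose_apply]
    exact po_off_symm hN j i
  have h1 : (O * O).PosSemidef := by
    have h := Matrix.posSemidef_conjTranspose_mul_self O
    rwa [hO] at h
  have h2 : nM η N = η • N + (6 * η ^ 2) • (O * O) := by
    ext i j
    rw [nM_eq, Matrix.add_apply, Matrix.smul_apply, Matrix.smul_apply, Matrix.mul_apply]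
    rfl
  rw [h2]
  exact (hN.smul hη.le).add (h1.smul (by positivity))

theorem nM_diag (η d K : ℝ) (hη : 0 < η) (N : Matrix X X ℝ) (hN : N.PosSemidef) (hd : ∀ i, N i i ≤ d)
    (hK : ∀ x : X → ℝ, n2 (ap (off N) x) ≤ K ^ 2 * n2 x) (i : X) :
    nM η N i i ≤ η * d + 6 * η ^ 2 * K ^ 2 := by
  rw [nM_eq]
  have h1 := mul_le_mul_of_nonneg_left (hd i) hη.le
  have h2 := mul_le_mul_of_nonneg_left (po_MM_le hN hK i) (show 0 ≤ 6 * η ^ 2 by positivity)
  linarith

private theorem nM_symm {η : ℝ} {N : Matrix X X ℝ} (hN : N.PosSemidef) (i j : X) :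
    nM η N i j = nM η N j i := by
  rw [nM_eq, nM_eq, po_symm hN i j, po_MM_symm hN i j]

theorem SM_symm (η D : ℝ) (N : Matrix X X ℝ) (hN : N.PosSemidef) (i j : X) :
    SM η D N i j = SM η D N j i := by
  unfold SM
  by_cases h : i = j
  · rw [if_pos h, if_pos h.symm]
  · rw [if_neg h, if_neg (Ne.symm h), nM_symm hN]

private theorem psd_entry {A : Matrix X X ℝ} (hA : A.PosSemidef) {D : ℝ} (hD : ∀ i, A i i ≤ D) {i j : X}
    (hij : i ≠ j) : |A i j| ≤ D := by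
  have hq : ∀ x : X → ℝ, 0 ≤ ∑ a, ∑ c, x a * A a c * x c := by
    intro x
    have h := hA.dotProduct_mulVec_nonneg x
    have h2 : star x ⬝ᵥ A.mulVec x = ∑ a, ∑ c, x a * A a c * x c := by
      unfold dotProduct Matrix.mulVec dotProduct
      refine Finset.sum_congr rfl fun a _ => ?_
      rw [Finset.mul_sum]
      refine Finset.sum_congr rfl fun c _ => ?_
      simp only [Pi.star_apply, star_trivial]
      ring
    rw [h2] at h
    exact h
  have hval : ∀ t : ℝ, ∑ a, ∑ c, (Pi.single i (1 : ℝ) + Pi.single j t : X → ℝ) a * A a c *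
      (Pi.single i (1 : ℝ) + Pi.single j t : X → ℝ) c = A i i + 2 * t * A i j + t ^ 2 * A j j := by
    intro t
    have h1 : ∀ (F : X → ℝ), ∑ a, (Pi.single i (1 : ℝ) + Pi.single j t : X → ℝ) a * F a = F i + t * F j := by
      intro F
      simp only [Pi.add_apply, add_mul, Finset.sum_add_distrib, Pi.single_apply, ite_mul, one_mul,
        zero_mul, Finset.sum_ite_eq', Finset.mem_univ, if_true]
    have h2 : ∀ a, ∑ c, (Pi.single i (1 : ℝ) + Pi.single j t : X → ℝ) a * A a c *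
      (Pi.single i (1 : ℝ) + Pi.single j t : X → ℝ) c =
      (Pi.single i (1 : ℝ) + Pi.single j t : X → ℝ) a * (A a i + t * A a j) := by
      intro a
      rw [← h1 (fun c => A a c), Finset.mul_sum]
      exact Finset.sum_congr rfl fun c _ => by ring
    simp only [h2]
    rw [h1 (fun a => A a i + t * A a j), po_symm hA j i]
    ring
  have h1 := hq (Pi.single i (1 : ℝ) + Pi.single j (1 : ℝ))
  have h2 := hq (Pi.single i (1 : ℝ) + Pi.single j (-1 : ℝ))
  rw [hval] at h1 h2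
  have h3 := hD i
  have h4 := hD j
  rw [abs_le]
  constructor <;> linarith

private theorem sinh_bound {t : ℝ} (ht : |t| ≤ 1 / 10) : |Real.sinh t - t| ≤ |t| ^ 3 / 5 := by
  have h1 := Real.exp_bound (x := t) (by linarith) (n := 5) (by norm_num)
  have h2 := Real.exp_bound (x := -t) (by rw [abs_neg]; linarith) (n := 5) (by norm_num)
  rw [abs_neg] at h2
  simp only [Finset.sum_range_succ, Finset.sum_range_zero, Nat.factorial] at h1 h2
  norm_num at h1 h2
  have h3 : |Real.sinh t - t - t ^ 3 / 6| ≤ |t| ^ 5 * (1 / 100) := by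
    rw [Real.sinh_eq]
    rw [abs_le] at h1 h2 ⊢
    constructor <;> nlinarith [h1.1, h1.2, h2.1, h2.2]
  have h4 : |t| ^ 5 ≤ |t| ^ 3 * (1 / 100) := by
    have h5 : |t| ^ 2 ≤ 1 / 100 := by
      have := pow_le_pow_left₀ (abs_nonneg t) ht 2
      linarith
    calc |t| ^ 5 = |t| ^ 3 * |t| ^ 2 := by ring
      _ ≤ |t| ^ 3 * (1 / 100) := mul_le_mul_of_nonneg_left h5 (by positivity)
  have h6 : |t ^ 3 / 6| = |t| ^ 3 / 6 := by
    rw [abs_div, abs_pow]
    norm_num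
  have h7 : |Real.sinh t - t| ≤ |Real.sinh t - t - t ^ 3 / 6| + |t ^ 3 / 6| := by
    have := abs_add_le (Real.sinh t - t - t ^ 3 / 6) (t ^ 3 / 6)
    simpa using this
  rw [h6] at h7
  have h8 : 0 ≤ |t| ^ 3 := by positivity
  linarith

/-- the error matrix -/
private noncomputable def EE (η : ℝ) (N : Matrix X X ℝ) (i j : X) : ℝ :=
  if i = j then 0 else Real.sinh (nM η N i j) - nM η N i j

private theorem EE_symm {η : ℝ} {N : Matrix X X ℝ} (hN : N.PosSemidef) (i j : X) :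
    EE η N i j = EE η N j i := by
  unfold EE
  by_cases h : i = j
  · rw [if_pos h, if_pos h.symm]
  · rw [if_neg h, if_neg (Ne.symm h), nM_symm hN]

private theorem EE_row {η d K D : ℝ} (hη : 0 < η) (hK0 : 0 ≤ K) (hηK : η * K ≤ 1 / 21)
    (hDdef : D = η * d + 6 * η ^ 2 * K ^ 2) (hD : D ≤ 1 / 10)
    {N : Matrix X X ℝ} (hN : N.PosSemidef) (hd : ∀ i, N i i ≤ d)
    (hK : ∀ x : X → ℝ, n2 (ap (off N) x) ≤ K ^ 2 * n2 x) (i : X) :
    ∑ j, |EE η N i j| ≤ (1 / 10) * η ^ 2 * MM N i i := by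
  have hdiag : ∀ i, nM η N i i ≤ D := fun i => by
    rw [hDdef]; exact nM_diag η d K hη N hN hd hK i
  have hK2 : η ^ 2 * K ^ 2 ≤ 1 / 441 := by
    have h0 : 0 ≤ η * K := by positivity
    have := pow_le_pow_left₀ h0 hηK 2
    rw [mul_pow] at this
    norm_num at this
    linarith
  have h1 : ∀ j, |EE η N i j| ≤ (1 / 50) * (2 * η ^ 2 * off N i j ^ 2 + 72 * η ^ 4 * MM N i j ^ 2) := by
    intro j
    unfold EE
    by_cases h : i = j
    · rw [if_pos h, abs_zero]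
      positivity
    · rw [if_neg h]
      have h2 := psd_entry (nM_psd η hη N hN) hdiag h
      have h3 : |nM η N i j| ≤ 1 / 10 := h2.trans hD
      have h4 := sinh_bound h3
      have h5 : nM η N i j = η * off N i j + 6 * η ^ 2 * MM N i j := by
        rw [nM_eq]
        unfold off
        rw [if_neg h]
      have h6 : |nM η N i j| ^ 3 ≤ (1 / 10) * (nM η N i j) ^ 2 := by
        have : |nM η N i j| ^ 3 = |nM η N i j| * (nM η N i j) ^ 2 := by
          rw [← sq_abs (nM η N i j)]; ring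
        rw [this]
        exact mul_le_mul_of_nonneg_right h3 (sq_nonneg _)
      have h7 : (nM η N i j) ^ 2 ≤ 2 * η ^ 2 * off N i j ^ 2 + 72 * η ^ 4 * MM N i j ^ 2 := by
        rw [h5]
        nlinarith [sq_nonneg (η * off N i j - 6 * η ^ 2 * MM N i j)]
      linarith
  have h2 : ∑ j, |EE η N i j| ≤ (1 / 50) * (2 * η ^ 2 * ∑ j, off N i j ^ 2 + 72 * η ^ 4 * ∑ j, MM N i j ^ 2) := by
    refine (Finset.sum_le_sum fun j _ => h1 j).trans (le_of_eq ?_)
    rw [← Finset.mul_sum, Finset.sum_add_distrib, ← Finset.mul_sum, ← Finset.mul_sum]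
  rw [← po_MM_self hN] at h2
  have h3 := po_row hN hK i
  have h4 := po_MM_nonneg hN i
  have h5 : 72 * η ^ 4 * ∑ j, MM N i j ^ 2 ≤ 72 * η ^ 4 * (K ^ 2 * MM N i i) :=
    mul_le_mul_of_nonneg_left h3 (by positivity)
  have h6 : 72 * η ^ 4 * (K ^ 2 * MM N i i) = 72 * (η ^ 2 * K ^ 2) * (η ^ 2 * MM N i i) := by ring
  have h7 : 72 * (η ^ 2 * K ^ 2) * (η ^ 2 * MM N i i) ≤ 72 * (1 / 441) * (η ^ 2 * MM N i i) := by
    have : 0 ≤ η ^ 2 * MM N i i := by positivity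
    nlinarith
  have h8 : 0 ≤ η ^ 2 * MM N i i := by positivity
  nlinarith

/-- the decomposition of `S - 1` applied to a vector -/
private theorem po_decomp (η D : ℝ) (N : Matrix X X ℝ) (x : X → ℝ) (i : X) :
    ap (SM η D N - 1) x i = Real.exp (-D) * (η * ap (off N) x i +
      6 * η ^ 2 * ap (off N) (ap (off N) x) i - 6 * η ^ 2 * (MM N i i * x i) + ∑ j, EE η N i j * x j) := by
  rw [po_ap_ap]
  have h0 : MM N i i * x i = ∑ j, (if i = j then MM N i j else 0) * x j := by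
    rw [Finset.sum_eq_single i]
    · rw [if_pos rfl]
    · intro j _ hj
      rw [if_neg (Ne.symm hj), zero_mul]
    · intro hi
      exact absurd (Finset.mem_univ i) hi
  rw [h0]
  unfold ap
  simp only [Finset.mul_sum]
  rw [← Finset.sum_add_distrib, ← Finset.sum_sub_distrib, ← Finset.sum_add_distrib, Finset.mul_sum]
  refine Finset.sum_congr rfl fun j _ => ?_
  rw [Matrix.sub_apply]
  unfold SM EE
  by_cases h : i = j
  · subst h
    rw [if_pos rfl, if_pos rfl, if_pos rfl, Matrix.one_apply_eq]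
    have : off N i i = 0 := by unfold off; rw [if_pos rfl]
    rw [this]
    ring
  · rw [if_neg h, if_neg h, if_neg h, Matrix.one_apply_ne h]
    have : off N i j = N i j := by unfold off; rw [if_neg h]
    rw [this, nM_eq]
    ring

private theorem po_cs {c : X → ℝ} {x : X → ℝ} : (∑ j, c j * x j) ^ 2 ≤ (∑ j, |c j|) * ∑ j, |c j| * x j ^ 2 := by
  have h := Finset.sum_mul_sq_le_sq_mul_sq Finset.univ (fun j => √|c j|) (fun j => √|c j| * |x j|)
  have h1 : ∑ j, √|c j| * (√|c j| * |x j|) = ∑ j, |c j| * |x j| := by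
    refine Finset.sum_congr rfl fun j _ => ?_
    rw [← mul_assoc, Real.mul_self_sqrt (abs_nonneg _)]
  have h2 : ∑ j, √|c j| ^ 2 = ∑ j, |c j| := by
    refine Finset.sum_congr rfl fun j _ => ?_
    rw [Real.sq_sqrt (abs_nonneg _)]
  have h3 : ∑ j, (√|c j| * |x j|) ^ 2 = ∑ j, |c j| * x j ^ 2 := by
    refine Finset.sum_congr rfl fun j _ => ?_
    rw [mul_pow, Real.sq_sqrt (abs_nonneg _), sq_abs]
  rw [h1, h2, h3] at h
  refine le_trans ?_ h
  rw [← sq_abs (∑ j, c j * x j)]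
  refine pow_le_pow_left₀ (abs_nonneg _) ?_ 2
  refine (Finset.abs_sum_le_sum_abs _ _).trans (le_of_eq ?_)
  exact Finset.sum_congr rfl fun j _ => abs_mul _ _

/-- all the estimates -/
private theorem po_est {η d K D : ℝ} (hη : 0 < η) (hK0 : 0 ≤ K) (hηK : η * K ≤ 1 / 21)
    (hDdef : D = η * d + 6 * η ^ 2 * K ^ 2) (hD : D ≤ 1 / 10)
    {N : Matrix X X ℝ} (hN : N.PosSemidef) (hd : ∀ i, N i i ≤ d)
    (hK : ∀ x : X → ℝ, n2 (ap (off N) x) ≤ K ^ 2 * n2 x) (x : X → ℝ) :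
    let s := ∑ i, MM N i i * x i ^ 2
    0 ≤ s ∧ s ≤ K ^ 2 * n2 x ∧
    |∑ i, x i * ∑ j, EE η N i j * x j| ≤ (1 / 10) * η ^ 2 * s ∧
    ∑ i, (∑ j, EE η N i j * x j) ^ 2 ≤ (1 / 100) * η ^ 4 * K ^ 2 * s ∧
    ∑ i, (MM N i i * x i) ^ 2 ≤ K ^ 2 * s := by
  intro s
  have hrow := EE_row hη hK0 hηK hDdef hD hN hd hK
  have hM0 := po_MM_nonneg hN
  have hMK := po_MM_le hN hK
  have hcol : ∑ i, ∑ j, |EE η N i j| * x j ^ 2 ≤ (1 / 10) * η ^ 2 * s := by
    rw [Finset.sum_comm]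
    have : (1 / 10) * η ^ 2 * s = ∑ j, ((1 / 10) * η ^ 2 * MM N j j) * x j ^ 2 := by
      rw [Finset.mul_sum]
      exact Finset.sum_congr rfl fun j _ => by ring
    rw [this]
    refine Finset.sum_le_sum fun j _ => ?_
    rw [← Finset.sum_mul]
    refine mul_le_mul_of_nonneg_right ?_ (sq_nonneg _)
    have h2 : ∑ i, |EE η N i j| = ∑ i, |EE η N j i| :=
      Finset.sum_congr rfl fun i _ => by rw [EE_symm hN]
    rw [h2]
    exact hrow j
  have hrow2 : ∑ i, ∑ j, |EE η N i j| * x i ^ 2 ≤ (1 / 10) * η ^ 2 * s := by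
    have : (1 / 10) * η ^ 2 * s = ∑ j, ((1 / 10) * η ^ 2 * MM N j j) * x j ^ 2 := by
      rw [Finset.mul_sum]
      exact Finset.sum_congr rfl fun j _ => by ring
    rw [this]
    refine Finset.sum_le_sum fun i _ => ?_
    rw [← Finset.sum_mul]
    exact mul_le_mul_of_nonneg_right (hrow i) (sq_nonneg _)
  refine ⟨Finset.sum_nonneg fun i _ => mul_nonneg (hM0 i) (sq_nonneg _), ?_, ?_, ?_, ?_⟩
  · unfold n2
    rw [Finset.mul_sum]
    exact Finset.sum_le_sum fun i _ => mul_le_mul_of_nonneg_right (hMK i) (sq_nonneg _)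
  · have h1 : |∑ i, x i * ∑ j, EE η N i j * x j| ≤
        ∑ i, ∑ j, (|EE η N i j| * x i ^ 2 + |EE η N i j| * x j ^ 2) / 2 := by
      refine (Finset.abs_sum_le_sum_abs _ _).trans (Finset.sum_le_sum fun i _ => ?_)
      rw [Finset.mul_sum]
      refine (Finset.abs_sum_le_sum_abs _ _).trans (Finset.sum_le_sum fun j _ => ?_)
      rw [abs_mul, abs_mul]
      have h2 : |x i| * |x j| ≤ (x i ^ 2 + x j ^ 2) / 2 := by
        have := sq_nonneg (|x i| - |x j|)
        have h3 := sq_abs (x i)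
        have h4 := sq_abs (x j)
        nlinarith
      have h3 := mul_le_mul_of_nonneg_left h2 (abs_nonneg (EE η N i j))
      linarith
    have h2 : ∑ i, ∑ j, (|EE η N i j| * x i ^ 2 + |EE η N i j| * x j ^ 2) / 2 =
        ((∑ i, ∑ j, |EE η N i j| * x i ^ 2) + ∑ i, ∑ j, |EE η N i j| * x j ^ 2) / 2 := by
      rw [← Finset.sum_add_distrib, Finset.sum_div]
      refine Finset.sum_congr rfl fun i _ => ?_
      rw [← Finset.sum_add_distrib, Finset.sum_div]
    rw [h2] at h1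
    linarith
  · have h1 : ∀ i, (∑ j, EE η N i j * x j) ^ 2 ≤
        ((1 / 10) * η ^ 2 * K ^ 2) * ∑ j, |EE η N i j| * x j ^ 2 := by
      intro i
      refine (po_cs (c := fun j => EE η N i j) (x := x)).trans ?_
      refine mul_le_mul_of_nonneg_right ?_ (Finset.sum_nonneg fun j _ => by positivity)
      refine (hrow i).trans ?_
      exact mul_le_mul_of_nonneg_left (hMK i) (by positivity)
    refine (Finset.sum_le_sum fun i _ => h1 i).trans ?_
    rw [← Finset.mul_sum]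
    have h2 := mul_le_mul_of_nonneg_left hcol (show 0 ≤ (1 / 10) * η ^ 2 * K ^ 2 by positivity)
    refine h2.trans (le_of_eq ?_)
    ring
  · rw [Finset.mul_sum]
    refine Finset.sum_le_sum fun i _ => ?_
    have h1 : (MM N i i * x i) ^ 2 = MM N i i * (MM N i i * x i ^ 2) := by ring
    rw [h1]
    exact mul_le_mul_of_nonneg_right (hMK i) (mul_nonneg (hM0 i) (sq_nonneg _))

private theorem po_Y2 {η d K D : ℝ} (hη : 0 < η) (hK0 : 0 ≤ K) (hηK : η * K ≤ 1 / 21)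
    (hDdef : D = η * d + 6 * η ^ 2 * K ^ 2) (hD : D ≤ 1 / 10) (hD0 : 0 ≤ D)
    {N : Matrix X X ℝ} (hN : N.PosSemidef) (hd : ∀ i, N i i ≤ d)
    (hK : ∀ x : X → ℝ, n2 (ap (off N) x) ≤ K ^ 2 * n2 x) (x : X → ℝ) :
    n2 (ap (SM η D N - 1) x) ≤ (2 + 216 / 441) * η ^ 2 * n2 (ap (off N) x) +
      (217 / 441) * η ^ 2 * ∑ i, MM N i i * x i ^ 2 := by
  obtain ⟨hs0, hs1, hs2, hs3, hs4⟩ := po_est hη hK0 hηK hDdef hD hN hd hK x
  set s := ∑ i, MM N i i * x i ^ 2 with hs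
  have hK2 : η ^ 2 * K ^ 2 ≤ 1 / 441 := by
    have h0 : 0 ≤ η * K := by positivity
    have := pow_le_pow_left₀ h0 hηK 2
    rw [mul_pow] at this
    norm_num at this
    linarith
  have hr1 : Real.exp (-D) ≤ 1 := Real.exp_le_one_iff.2 (by linarith)
  have hr0 : 0 ≤ Real.exp (-D) := (Real.exp_pos _).le
  have hb := hK (ap (off N) x)
  set A := n2 (ap (off N) x) with hA
  set B := n2 (ap (off N) (ap (off N) x)) with hB
  have hA0 : 0 ≤ A := Finset.sum_nonneg fun i _ => sq_nonneg _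
  have h1 : n2 (ap (SM η D N - 1) x) ≤ 2 * η ^ 2 * A + 6 * (36 * η ^ 4 * B +
      36 * η ^ 4 * ∑ i, (MM N i i * x i) ^ 2 + ∑ i, (∑ j, EE η N i j * x j) ^ 2) := by
    have h2 : 2 * η ^ 2 * A + 6 * (36 * η ^ 4 * B +
      36 * η ^ 4 * ∑ i, (MM N i i * x i) ^ 2 + ∑ i, (∑ j, EE η N i j * x j) ^ 2) =
      ∑ i, (2 * η ^ 2 * ap (off N) x i ^ 2 + 6 * (36 * η ^ 4 * ap (off N) (ap (off N) x) i ^ 2 +
      36 * η ^ 4 * (MM N i i * x i) ^ 2 + (∑ j, EE η N i j * x j) ^ 2)) := by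
      rw [Finset.sum_add_distrib, ← Finset.mul_sum, ← Finset.mul_sum, Finset.sum_add_distrib,
        Finset.sum_add_distrib, ← Finset.mul_sum, ← Finset.mul_sum]
      rfl
    rw [h2]
    unfold n2
    refine Finset.sum_le_sum fun i _ => ?_
    rw [po_decomp, mul_pow]
    have h3 : Real.exp (-D) ^ 2 ≤ 1 := pow_le_one₀ hr0 hr1
    refine (mul_le_of_le_one_left (sq_nonneg _) h3).trans ?_
    generalize ap (off N) x i = u
    generalize ap (off N) (ap (off N) x) i = v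
    generalize MM N i i * x i = w
    generalize ∑ j, EE η N i j * x j = e
    nlinarith [sq_nonneg (η * u - (6 * η ^ 2 * v - 6 * η ^ 2 * w + e)),
      sq_nonneg (6 * η ^ 2 * v + 6 * η ^ 2 * w), sq_nonneg (6 * η ^ 2 * v - e),
      sq_nonneg (6 * η ^ 2 * w + e)]
  have h2 : 36 * η ^ 4 * B ≤ 36 / 441 * η ^ 2 * A := by
    have h3 : 36 * η ^ 4 * B ≤ 36 * η ^ 4 * (K ^ 2 * A) := mul_le_mul_of_nonneg_left hb (by positivity)
    have h4 : 36 * η ^ 4 * (K ^ 2 * A) = (η ^ 2 * K ^ 2) * (36 * (η ^ 2 * A)) := by ring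
    have h5 : (η ^ 2 * K ^ 2) * (36 * (η ^ 2 * A)) ≤ (1 / 441) * (36 * (η ^ 2 * A)) :=
      mul_le_mul_of_nonneg_right hK2 (by positivity)
    linarith
  have h3 : 36 * η ^ 4 * ∑ i, (MM N i i * x i) ^ 2 ≤ 36 / 441 * η ^ 2 * s := by
    have h3 : 36 * η ^ 4 * ∑ i, (MM N i i * x i) ^ 2 ≤ 36 * η ^ 4 * (K ^ 2 * s) :=
      mul_le_mul_of_nonneg_left hs4 (by positivity)
    have h4 : 36 * η ^ 4 * (K ^ 2 * s) = (η ^ 2 * K ^ 2) * (36 * (η ^ 2 * s)) := by ring
    have h5 : (η ^ 2 * K ^ 2) * (36 * (η ^ 2 * s)) ≤ (1 / 441) * (36 * (η ^ 2 * s)) :=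
      mul_le_mul_of_nonneg_right hK2 (by positivity)
    linarith
  have h4 : ∑ i, (∑ j, EE η N i j * x j) ^ 2 ≤ (1 / 100) / 441 * η ^ 2 * s := by
    refine hs3.trans ?_
    have h4 : (1 / 100) * η ^ 4 * K ^ 2 * s = (η ^ 2 * K ^ 2) * ((1 / 100) * (η ^ 2 * s)) := by ring
    have h5 : (η ^ 2 * K ^ 2) * ((1 / 100) * (η ^ 2 * s)) ≤ (1 / 441) * ((1 / 100) * (η ^ 2 * s)) :=
      mul_le_mul_of_nonneg_right hK2 (by positivity)
    linarith
  have h5 : 0 ≤ η ^ 2 * s := by positivity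
  have h6 : 0 ≤ η ^ 2 * A := by positivity
  linarith

private theorem po_D0 {η d K D : ℝ} (hη : 0 < η) 
    (hDdef : D = η * d + 6 * η ^ 2 * K ^ 2)
    {N : Matrix X X ℝ} (hN : N.PosSemidef) (hd : ∀ i, N i i ≤ d)
    (hK : ∀ x : X → ℝ, n2 (ap (off N) x) ≤ K ^ 2 * n2 x) (i : X) : 0 ≤ D := by
  have h1 := nM_diag η d K hη N hN hd hK i
  have h2 : 0 ≤ nM η N i i := (nM_psd η hη N hN).diag_nonneg
  linarith

theorem pol_small (η d K D : ℝ) (hη : 0 < η) (hK0 : 0 ≤ K) (hηK : η * K ≤ 1 / 21)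
    (hDdef : D = η * d + 6 * η ^ 2 * K ^ 2) (hD : D ≤ 1 / 10)
    (N : Matrix X X ℝ) (hN : N.PosSemidef) (hd : ∀ i, N i i ≤ d)
    (hK : ∀ x : X → ℝ, n2 (ap (off N) x) ≤ K ^ 2 * n2 x) (x : X → ℝ) :
    n2 (ap (SM η D N - 1) x) ≤ (1 / 4) * n2 x := by
  rcases isEmpty_or_nonempty X with hX | ⟨⟨i0⟩⟩
  · unfold n2
    simp
  have hD0 := po_D0 hη hDdef hN hd hK i0
  have h1 := po_Y2 hη hK0 hηK hDdef hD hD0 hN hd hK x
  obtain ⟨hs0, hs1, -, -, -⟩ := po_est hη hK0 hηK hDdef hD hN hd hK x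
  have h2 := hK x
  have hK2 : η ^ 2 * K ^ 2 ≤ 1 / 441 := by
    have h0 : 0 ≤ η * K := by positivity
    have := pow_le_pow_left₀ h0 hηK 2
    rw [mul_pow] at this
    norm_num at this
    linarith
  have hx0 : 0 ≤ n2 x := Finset.sum_nonneg fun i _ => sq_nonneg _
  have h3 : η ^ 2 * n2 (ap (off N) x) ≤ 1 / 441 * n2 x := by
    have h4 := mul_le_mul_of_nonneg_left h2 (show 0 ≤ η ^ 2 by positivity)
    have h5 := mul_le_mul_of_nonneg_right hK2 hx0
    nlinarith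
  have h4 : η ^ 2 * ∑ i, MM N i i * x i ^ 2 ≤ 1 / 441 * n2 x := by
    have h4 := mul_le_mul_of_nonneg_left hs1 (show 0 ≤ η ^ 2 by positivity)
    have h5 := mul_le_mul_of_nonneg_right hK2 hx0
    nlinarith
  linarith

theorem pol (η d K D : ℝ) (hη : 0 < η) (hK0 : 0 ≤ K) (hηK : η * K ≤ 1 / 21)
    (hDdef : D = η * d + 6 * η ^ 2 * K ^ 2) (hD : D ≤ 1 / 10)
    (N : Matrix X X ℝ) (hN : N.PosSemidef) (hd : ∀ i, N i i ≤ d)
    (hK : ∀ x : X → ℝ, n2 (ap (off N) x) ≤ K ^ 2 * n2 x) (x : X → ℝ) :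
    Real.exp (-D) * η * qd (off N) x + (1 / 2) * η ^ 2 * n2 (ap (off N) x)
        - 8 * η ^ 2 * ∑ i, (∑ j, off N i j ^ 2) * x i ^ 2 ≤
      qd (SM η D N - 1) x - n2 (ap (SM η D N - 1) x) := by
  rcases isEmpty_or_nonempty X with hX | ⟨⟨i0⟩⟩
  · unfold n2 qd
    simp
  have hD0 := po_D0 hη hDdef hN hd hK i0
  have h1 := po_Y2 hη hK0 hηK hDdef hD hD0 hN hd hK x
  obtain ⟨hs0, hs1, hs2, -, -⟩ := po_est hη hK0 hηK hDdef hD hN hd hK x
  have hs : ∑ i, (∑ j, off N i j ^ 2) * x i ^ 2 = ∑ i, MM N i i * x i ^ 2 :=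
    Finset.sum_congr rfl fun i _ => by rw [po_MM_self hN]
  rw [hs]
  have hqd : ∀ M : Matrix X X ℝ, qd M x = ∑ i, x i * ap M x i := by
    intro M
    unfold qd ap
    refine Finset.sum_congr rfl fun i _ => ?_
    rw [Finset.mul_sum]
    exact Finset.sum_congr rfl fun j _ => by ring
  have hin := po_inner hN x
  have h2 : qd (SM η D N - 1) x = Real.exp (-D) * (η * qd (off N) x + 6 * η ^ 2 * n2 (ap (off N) x) -
      6 * η ^ 2 * (∑ i, MM N i i * x i ^ 2) + ∑ i, x i * ∑ j, EE η N i j * x j) := by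
    rw [hqd, hqd, ← hin]
    simp only [Finset.mul_sum (f := fun i => x i * ap (off N) x i),
      Finset.mul_sum (f := fun i => x i * ap (off N) (ap (off N) x) i),
      Finset.mul_sum (f := fun i => MM N i i * x i ^ 2)]
    rw [← Finset.sum_add_distrib, ← Finset.sum_sub_distrib, ← Finset.sum_add_distrib, Finset.mul_sum]
    refine Finset.sum_congr rfl fun i _ => ?_
    rw [po_decomp]
    ring
  rw [h2]
  set s := ∑ i, MM N i i * x i ^ 2
  set A := n2 (ap (off N) x)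
  set e := ∑ i, x i * ∑ j, EE η N i j * x j
  have hA0 : 0 ≤ A := Finset.sum_nonneg fun i _ => sq_nonneg _
  have hr1 : Real.exp (-D) ≤ 1 := Real.exp_le_one_iff.2 (by linarith)
  have hr0 : 0 ≤ Real.exp (-D) := (Real.exp_pos _).le
  have hr9 : 9 / 10 ≤ Real.exp (-D) := by
    have := Real.add_one_le_exp (-D)
    linarith
  have hsn : 0 ≤ η ^ 2 * s := mul_nonneg (by positivity) hs0
  have hAn : 0 ≤ η ^ 2 * A := mul_nonneg (by positivity) hA0
  rw [abs_le] at hs2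
  have h3 : -(Real.exp (-D) * e) ≤ (1 / 10) * η ^ 2 * s := by
    have h4 : -(Real.exp (-D) * e) = Real.exp (-D) * (-e) := by ring
    rw [h4]
    have h5 : -e ≤ (1 / 10) * η ^ 2 * s := by linarith [hs2.1]
    refine (mul_le_mul_of_nonneg_left h5 hr0).trans ?_
    have h6 : 0 ≤ (1 / 10) * η ^ 2 * s := by linarith
    exact mul_le_of_le_one_left h6 hr1
  have h4 : Real.exp (-D) * (η ^ 2 * s) ≤ η ^ 2 * s := mul_le_of_le_one_left hsn hr1
  have h5 : 9 / 10 * (η ^ 2 * A) ≤ Real.exp (-D) * (η ^ 2 * A) := mul_le_mul_of_nonneg_right hr9 hAn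
  nlinarith

end BMP
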