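import Pool.Agent.BMP.Defs

/-! BMP Spec: existence of the projection `R` on the large directions.

`spec`: let `G` be a real PSD matrix with `G i j = 0` unless `m i = m j`. `R` := spectral projection of `G` on the eigenvalues `> 2`
(spectral theorem `Matrix.IsHermitian.spectral_theorem`; `R i j = ∑ k, U i k * [s k > 2] * U j k`). Then `R` is symmetric, idempotent,
`⟨Rx, G Rx⟩ = ∑_{s_k>2} s_k xh_k^2 ≥ 2 |Rx|^2`, `⟨Qx, G Qx⟩ = ∑_{s_k ≤ 2} s_k xh_k^2 ≤ 2 |x|^2` and `≤ ⟨x,Gx⟩` (`s_k ≥ 0`).
`R i j = 0` for `m i ≠ m j`: the diagonal matrix `E_l = diag [m i = l]` commutes with `G`, so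
`(U^T E_l U)_{kk'} (s_k - s_k') = 0`, hence `E_l` commutes with `R`, i.e. `[m i = l] R i j = R i j [m j = l]`; take `l = m i`.
`exists_clean`: apply it to `G = Gh v`, `m = mL v`: `Gh v` is PSD: `⟨x, Gh x⟩ = ∑_l 4^l ∑_A (∑_{i : m i = l} x_i v_A(i))^2`. -/

namespace BMP

open Finset

variable {α X : Type} [Fintype α] [Fintype X] [DecidableEq X]

private theorem sp_qd (G : Matrix X X ℝ) (x : X → ℝ) : qd G x = x ⬝ᵥ G.mulVec x := by
  unfold qd dotProduct Matrix.mulVec dotProduct
  refine Finset.sum_congr rfl fun i _ => ?_
  rw [Finset.mul_sum]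
  exact Finset.sum_congr rfl fun j _ => by ring

private theorem sp_ap (G : Matrix X X ℝ) (x : X → ℝ) : ap G x = G.mulVec x := rfl

private theorem sp_n2 (x : X → ℝ) : n2 x = x ⬝ᵥ x := by
  unfold n2 dotProduct
  exact Finset.sum_congr rfl fun i _ => by ring

theorem spec (G : Matrix X X ℝ) (hG : G.PosSemidef) (m : X → ℤ) (hm : ∀ i j, m i ≠ m j → G i j = 0) :
    ∃ R : Matrix X X ℝ, (∀ i j, R i j = R j i) ∧ (∀ i j, ∑ k, R i k * R k j = R i j) ∧
      (∀ i j, m i ≠ m j → R i j = 0) ∧
      (∀ x : X → ℝ, 2 * n2 (ap R x) ≤ qd G (ap R x)) ∧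
      (∀ x : X → ℝ, qd G (Qa R x) ≤ 2 * n2 x) ∧ (∀ x : X → ℝ, qd G (Qa R x) ≤ qd G x) := by
  classical
  have hH : G.IsHermitian := hG.1
  obtain ⟨U, s, hU1, hU2, hGU, hs0⟩ : ∃ (U : Matrix X X ℝ) (s : X → ℝ), U.transpose * U = 1 ∧
      U * U.transpose = 1 ∧ G = U * Matrix.diagonal s * U.transpose ∧ ∀ k, 0 ≤ s k := by
    refine ⟨(hH.eigenvectorUnitary : Matrix X X ℝ), hH.eigenvalues, ?_, ?_, ?_, hG.eigenvalues_nonneg⟩
    · have h := Unitary.coe_star_mul_self hH.eigenvectorUnitary
      rw [Matrix.star_eq_conjTranspose, Matrix.conjTranspose_eq_transpose_of_trivial] at h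
      exact h
    · have h := Unitary.coe_mul_star_self hH.eigenvectorUnitary
      rw [Unitary.coe_star, Matrix.star_eq_conjTranspose,
        Matrix.conjTranspose_eq_transpose_of_trivial] at h
      exact h
    · have h := hH.spectral_theorem
      rw [Unitary.conjStarAlgAut_apply] at h
      rw [Matrix.star_eq_conjTranspose, Matrix.conjTranspose_eq_transpose_of_trivial] at h
      exact h
  let e : X → ℝ := fun k => if 2 < s k then 1 else 0
  let R : Matrix X X ℝ := U * Matrix.diagonal e * U.transpose
  have hRt : R.transpose = R := by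
    simp only [R, Matrix.transpose_mul, Matrix.transpose_transpose, Matrix.diagonal_transpose, Matrix.mul_assoc]
  have hdiagmul : ∀ a c : X → ℝ, (U * Matrix.diagonal a * U.transpose) * (U * Matrix.diagonal c * U.transpose) =
      U * Matrix.diagonal (fun k => a k * c k) * U.transpose := by
    intro a c
    calc (U * Matrix.diagonal a * U.transpose) * (U * Matrix.diagonal c * U.transpose)
        = U * Matrix.diagonal a * (U.transpose * U) * Matrix.diagonal c * U.transpose := by
          simp only [Matrix.mul_assoc]
      _ = U * (Matrix.diagonal a * Matrix.diagonal c) * U.transpose := by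
          rw [hU1, Matrix.mul_one, Matrix.mul_assoc U]
      _ = _ := by rw [Matrix.diagonal_mul_diagonal]
  have hRR : R * R = R := by
    simp only [R]
    rw [hdiagmul]
    congr 3
    funext k
    simp only [e]
    split_ifs <;> norm_num
  -- quadratic forms
  have hquad : ∀ (c : X → ℝ) (x : X → ℝ), x ⬝ᵥ (U * Matrix.diagonal c * U.transpose).mulVec x =
      ∑ k, c k * (U.transpose.mulVec x) k ^ 2 := by
    intro c x
    have h1 : (U * Matrix.diagonal c * U.transpose).mulVec x =
        U.mulVec ((Matrix.diagonal c).mulVec (U.transpose.mulVec x)) := by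
      rw [Matrix.mulVec_mulVec, Matrix.mulVec_mulVec]
    rw [h1, Matrix.dotProduct_mulVec, ← Matrix.mulVec_transpose]
    unfold dotProduct
    refine Finset.sum_congr rfl fun k _ => ?_
    rw [Matrix.mulVec_diagonal]
    ring
  have hnorm : ∀ x : X → ℝ, n2 x = ∑ k, (U.transpose.mulVec x) k ^ 2 := by
    intro x
    have h1 := hquad (fun _ => 1) x
    rw [Matrix.diagonal_one, Matrix.mul_one, hU2, Matrix.one_mulVec] at h1
    rw [sp_n2, h1]
    simp
  have hGq : ∀ x : X → ℝ, qd G x = ∑ k, s k * (U.transpose.mulVec x) k ^ 2 := by
    intro x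
    rw [sp_qd, ← hquad, ← hGU]
  have hRx : ∀ x : X → ℝ, ∀ k, (U.transpose.mulVec (ap R x)) k = e k * (U.transpose.mulVec x) k := by
    intro x k
    rw [sp_ap]
    have h1 : U.transpose.mulVec (R.mulVec x) = (Matrix.diagonal e).mulVec (U.transpose.mulVec x) := by
      rw [Matrix.mulVec_mulVec, Matrix.mulVec_mulVec]
      congr 1
      simp only [R]
      rw [← Matrix.mul_assoc, ← Matrix.mul_assoc, hU1, Matrix.one_mul]
    rw [h1, Matrix.mulVec_diagonal]
  have hQx : ∀ x : X → ℝ, ∀ k, (U.transpose.mulVec (Qa R x)) k = (1 - e k) * (U.transpose.mulVec x) k := by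
    intro x k
    have h1 : Qa R x = x - ap R x := rfl
    rw [h1, Matrix.mulVec_sub, Pi.sub_apply, hRx]
    ring
  refine ⟨R, ?_, ?_, ?_, ?_, ?_, ?_⟩
  · intro i j
    have := congrFun (congrFun hRt j) i
    rw [Matrix.transpose_apply] at this
    exact this
  · intro i j
    rw [← Matrix.mul_apply, hRR]
  · intro i j hij
    -- diag [m · = m i] commutes with G, hence with R
    let E : Matrix X X ℝ := Matrix.diagonal (fun a => if m a = m i then 1 else 0)
    have hEG : E * G = G * E := by
      ext a c
      simp only [E]
      rw [Matrix.diagonal_mul, Matrix.mul_diagonal]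
      by_cases hac : m a = m c
      · rw [hac]
        ring
      · rw [hm a c hac]
        ring
    let F : Matrix X X ℝ := U.transpose * E * U
    have hE : E = U * F * U.transpose := by
      simp only [F]
      calc E = (U * U.transpose) * E * (U * U.transpose) := by rw [hU2, Matrix.one_mul, Matrix.mul_one]
        _ = _ := by simp only [Matrix.mul_assoc]
    have hFs : F * Matrix.diagonal s = Matrix.diagonal s * F := by
      have h1 : U.transpose * (E * G) * U = U.transpose * (G * E) * U := by rw [hEG]
      have h2 : U.transpose * (E * G) * U = F * Matrix.diagonal s := by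
        simp only [F]
        rw [hGU]
        calc U.transpose * (E * (U * Matrix.diagonal s * U.transpose)) * U
            = U.transpose * E * U * Matrix.diagonal s * (U.transpose * U) := by
              simp only [Matrix.mul_assoc]
          _ = _ := by rw [hU1, Matrix.mul_one]
      have h3 : U.transpose * (G * E) * U = Matrix.diagonal s * F := by
        simp only [F]
        rw [hGU]
        calc U.transpose * (U * Matrix.diagonal s * U.transpose * E) * U
            = (U.transpose * U) * Matrix.diagonal s * (U.transpose * E * U) := by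
              simp only [Matrix.mul_assoc]
          _ = _ := by rw [hU1, Matrix.one_mul]
      rw [← h2, ← h3, h1]
    have hFe : F * Matrix.diagonal e = Matrix.diagonal e * F := by
      ext a c
      have h1 := congrFun (congrFun hFs a) c
      rw [Matrix.mul_diagonal, Matrix.diagonal_mul] at h1 ⊢
      by_cases hac : s a = s c
      · have : e a = e c := by simp only [e, hac]
        rw [this]
        ring
      · have h2 : F a c = 0 := by
          have h3 : (s a - s c) * F a c = 0 := by linarith
          rcases mul_eq_zero.1 h3 with h4 | h4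
          · exact absurd (sub_eq_zero.1 h4) hac
          · exact h4
        rw [h2]
        ring
    have hER : E * R = R * E := by
      have h1 : E * R = U * (F * Matrix.diagonal e) * U.transpose := by
        rw [hE]
        simp only [R]
        calc U * F * U.transpose * (U * Matrix.diagonal e * U.transpose)
            = U * F * (U.transpose * U) * Matrix.diagonal e * U.transpose := by
              simp only [Matrix.mul_assoc]
          _ = _ := by rw [hU1, Matrix.mul_one]; simp only [Matrix.mul_assoc]
      have h2 : R * E = U * (Matrix.diagonal e * F) * U.transpose := by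
        rw [hE]
        simp only [R]
        calc U * Matrix.diagonal e * U.transpose * (U * F * U.transpose)
            = U * Matrix.diagonal e * (U.transpose * U) * F * U.transpose := by
              simp only [Matrix.mul_assoc]
          _ = _ := by rw [hU1, Matrix.mul_one]; simp only [Matrix.mul_assoc]
      rw [h1, h2, hFe]
    have h5 := congrFun (congrFun hER i) j
    simp only [E] at h5
    rw [Matrix.diagonal_mul, Matrix.mul_diagonal, if_pos rfl, if_neg (Ne.symm hij), one_mul, mul_zero] at h5
    exact h5
  · intro x
    rw [hGq, hnorm, Finset.mul_sum]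
    refine Finset.sum_le_sum fun k _ => ?_
    rw [hRx]
    simp only [e]
    split_ifs with h
    · exact mul_le_mul_of_nonneg_right h.le (sq_nonneg _)
    · rw [zero_mul]
      norm_num
  · intro x
    rw [hGq, hnorm, Finset.mul_sum]
    refine Finset.sum_le_sum fun k _ => ?_
    rw [hQx]
    simp only [e]
    split_ifs with h
    · rw [sub_self, zero_mul]
      have := sq_nonneg ((U.transpose.mulVec x) k)
      simp
      positivity
    · rw [sub_zero, one_mul]
      exact mul_le_mul_of_nonneg_right (not_lt.1 h) (sq_nonneg _)
  · intro x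
    rw [hGq, hGq]
    refine Finset.sum_le_sum fun k _ => ?_
    rw [hQx]
    simp only [e]
    have h1 : 0 ≤ s k * (U.transpose.mulVec x) k ^ 2 := mul_nonneg (hs0 k) (sq_nonneg _)
    split_ifs with h
    · rw [sub_self, zero_mul]
      simpa using h1
    · rw [sub_zero, one_mul]

theorem Gh_psd (v : α → X → ℝ) : (Gh v).PosSemidef := by
  classical
  have hsymm : ∀ i j, Gh v i j = Gh v j i := by
    intro i j
    unfold Gh
    by_cases h : mL v i = mL v j
    · rw [if_pos h, if_pos h.symm, h]
      congr 1
      unfold Gm
      exact Finset.sum_congr rfl fun A _ => by ring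
    · rw [if_neg h, if_neg (Ne.symm h)]
  refine Matrix.PosSemidef.of_dotProduct_mulVec_nonneg ?_ ?_
  · ext i j
    rw [Matrix.conjTranspose_apply, star_trivial]
    exact hsymm j i
  · intro x
    have h1 : star x = x := by
      funext i
      simp
    rw [h1, ← sp_qd]
    have h2 : qd (Gh v) x = ∑ l ∈ Finset.univ.image (mL v), (4 : ℝ) ^ l * ∑ A, (∑ i, if mL v i = l then x i * v A i else 0) ^ 2 := by
      have h3 : ∀ l, ∑ A, (∑ i, if mL v i = l then x i * v A i else 0) ^ 2 =
          ∑ i, ∑ j, if mL v i = l ∧ mL v j = l then x i * Gm v i j * x j else 0 := by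
        intro l
        have h4 : ∀ A, (∑ i, if mL v i = l then x i * v A i else 0) ^ 2 =
            ∑ i, ∑ j, if mL v i = l ∧ mL v j = l then x i * (v A i * v A j) * x j else 0 := by
          intro A
          rw [sq, Finset.sum_mul_sum]
          refine Finset.sum_congr rfl fun i _ => Finset.sum_congr rfl fun j _ => ?_
          by_cases hi : mL v i = l
          · by_cases hj : mL v j = l
            · rw [if_pos hi, if_pos hj, if_pos ⟨hi, hj⟩]
              ring
            · rw [if_neg hj, mul_zero, if_neg]
              exact fun h => hj h.2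
          · rw [if_neg hi, zero_mul, if_neg]
            exact fun h => hi h.1
        simp only [h4]
        rw [Finset.sum_comm]
        refine Finset.sum_congr rfl fun i _ => ?_
        rw [Finset.sum_comm]
        refine Finset.sum_congr rfl fun j _ => ?_
        by_cases h : mL v i = l ∧ mL v j = l
        · simp only [if_pos h]
          unfold Gm
          rw [Finset.mul_sum, Finset.sum_mul]
        · simp only [if_neg h, Finset.sum_const_zero]
      simp only [h3, Finset.mul_sum]
      rw [Finset.sum_comm]
      unfold qd
      refine Finset.sum_congr rfl fun i _ => ?_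
      rw [Finset.sum_comm]
      refine Finset.sum_congr rfl fun j _ => ?_
      rw [Finset.sum_eq_single (mL v i)]
      · unfold Gh
        by_cases h : mL v i = mL v j
        · rw [if_pos h, if_pos ⟨rfl, h.symm⟩]
          ring
        · rw [if_neg h, if_neg (fun h' => h h'.2.symm)]
          ring
      · intro l _ hl
        rw [if_neg (fun h' => hl h'.1.symm), mul_zero]
      · intro h
        exact absurd (Finset.mem_image_of_mem _ (Finset.mem_univ i)) h
    rw [h2]
    refine Finset.sum_nonneg fun l _ => mul_nonneg (zpow_nonneg (by norm_num) _) ?_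
    exact Finset.sum_nonneg fun A _ => sq_nonneg _

theorem exists_clean (v : α → X → ℝ) : ∃ R : Matrix X X ℝ, IsClean v R := by
  obtain ⟨R, h1, h2, h3, h4, h5, h6⟩ := spec (Gh v) (Gh_psd v) (mL v) (fun i j h => by
    unfold Gh
    rw [if_neg h])
  exact ⟨R, ⟨h1, h2, h3, h4, h5, h6⟩⟩

end BMP
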