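import Pool.Agent.BMP.Main
import Pool.Agent.BMP.LLD
import Pool.Agent.BMP.OneDrift
import Pool.Agent.BMP.Spec

/-! BMP Prop2: the drift of the potential `LL` (section 1). `V = VV c`, `v = log (1/V)`.

Sum `LL_drift` over `b`, exchange the sums over `b` and `C`; for `C` and `b ∉ C` use `one_drift` (with `exists_clean` from `Spec`,
`v = vA c b`, `hit = hitR C b`, `κ = kA θ c C b`); the E-type term: by `UU_ins`, `kp_ins`, `sum_ins`
`∑_A ∑_i v_A(i)^2 min 1 (κ_A U) = ∑_B c_B^2 min 1 (kp θ c C B * UU c C b B)`; sum over `b ∉ C` and over `C` with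
`main_bound`, `ML_sum` (`ML ≥ 0`), `etype` (`UU/(θ+DD) = kp * UU`).
Result: `2 (2*4000000 V(1+v) + 73*76 V v) + 2*64*2 V ≤ 20000000 V(1+v)`. (`0 ≤ V ≤ 1` by `VV_nonneg`, `VV_le_one`, so `V v ≥ 0`.) -/

namespace BMP

open Finset

variable {ι X : Type} [Fintype ι] [DecidableEq ι] [Fintype X] [DecidableEq X]

/-- the E-type term of block `b` -/
private theorem p2_E (c : (ι → X) → ℝ) (θ : ℝ) (C : Finset ι) (b : ι) (hb : b ∉ C) :
    ∑ A : {j // j ≠ b} → X, ∑ i, vA c b A i ^ 2 *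
        min 1 (kA θ c C b A * ∑ A' : {j // j ≠ b} → X, if hitR C b A A' then 0 else vA c b A' i ^ 2) =
      ∑ B : ι → X, c B ^ 2 * min 1 (UU c C b B / (θ + DD c C B)) := by
  rw [sum_ins b]
  refine Finset.sum_congr rfl fun A _ => Finset.sum_congr rfl fun i _ => ?_
  rw [UU_ins c C b hb i A, ← kp_ins θ c C b hb i A]
  unfold kp vA
  congr 2
  rw [one_div, div_eq_inv_mul]

private theorem p2_swap (f : ι → Finset ι → ℝ) :
    ∑ b, ∑ C ∈ (univ : Finset (Finset ι)).filter (fun C => b ∉ C), f b C =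
      ∑ C : Finset ι, ∑ b ∈ Cᶜ, f b C := by
  refine Finset.sum_comm' fun b C => ?_
  simp

theorem prop2 (c : (ι → X) → ℝ) (hc : Bdd c) (θ : ℝ) (hθ : 0 < θ) :
    ∑ b, (Ex (fun s => LL θ (rev c b s)) - LL θ c) ≤ 20000000 * (VV c * (1 + Real.log (1 / VV c))) := by
  classical
  have hV0 := VV_nonneg c
  have hV1 := VV_le_one c hc
  have hv0 : 0 ≤ Real.log (1 / VV c) := by
    rcases hV0.eq_or_lt with h | h
    · rw [← h]; simp
    · exact Real.log_nonneg (by rw [le_div_iff₀ h]; linarith)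
  choose R hR using fun b => exists_clean (vA c b)
  obtain ⟨n, hn⟩ : ∃ n : ℝ, n = 2 ^ (Fintype.card ι) := ⟨_, rfl⟩
  have hn0 : 0 < n := by rw [hn]; positivity
  -- one block
  have h1 : ∀ b : ι, Ex (fun s => LL θ (rev c b s)) - LL θ c ≤ (2 / n) *
      ∑ C ∈ (univ : Finset (Finset ι)).filter (fun C => b ∉ C),
        (2 * TQ (vA c b) (kA θ c C b) (R b) + 73 * ML (vA c b) (R b) +
          64 * ∑ B : ι → X, c B ^ 2 * min 1 (UU c C b B / (θ + DD c C B))) := by
    intro b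
    have h2 := LL_drift c θ hθ b
    rw [← hn] at h2
    refine h2.trans (mul_le_mul_of_nonneg_left (Finset.sum_le_sum fun C hC => ?_) (by positivity))
    have hb : b ∉ C := (Finset.mem_filter.1 hC).2
    rw [← p2_E c θ C b hb]
    exact one_drift (vA c b) (hitR C b) θ hθ (kA θ c C b) (fun A => rfl) (R b) (hR b)
  have h3 : ∑ b, (Ex (fun s => LL θ (rev c b s)) - LL θ c) ≤ (2 / n) *
      ∑ C : Finset ι, ∑ b ∈ Cᶜ,
        (2 * TQ (vA c b) (kA θ c C b) (R b) + 73 * ML (vA c b) (R b) +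
          64 * ∑ B : ι → X, c B ^ 2 * min 1 (UU c C b B / (θ + DD c C B))) := by
    refine (Finset.sum_le_sum fun b _ => h1 b).trans (le_of_eq ?_)
    rw [← Finset.mul_sum, p2_swap]
  -- the three sums
  have hTQ : ∀ C : Finset ι, ∑ b ∈ Cᶜ, TQ (vA c b) (kA θ c C b) (R b) ≤
      4000000 * (VV c * (1 + Real.log (1 / VV c))) := fun C => main_bound c hc θ hθ C R hR
  have hML : ∀ C : Finset ι, ∑ b ∈ Cᶜ, ML (vA c b) (R b) ≤ 76 * (VV c * Real.log (1 / VV c)) := by
    intro C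
    refine (Finset.sum_le_sum_of_subset_of_nonneg (Finset.subset_univ _) fun b _ _ => ?_).trans
      (ML_sum c hc R hR)
    unfold ML n2
    exact Finset.sum_nonneg fun _ _ => Finset.sum_nonneg fun _ _ => sq_nonneg _
  have hE : ∑ C : Finset ι, ∑ b ∈ Cᶜ,
      (∑ B : ι → X, c B ^ 2 * min 1 (UU c C b B / (θ + DD c C B))) ≤ VV c * (2 * n) := by
    have e1 : ∑ C : Finset ι, ∑ b ∈ Cᶜ,
        (∑ B : ι → X, c B ^ 2 * min 1 (UU c C b B / (θ + DD c C B))) =
        ∑ B : ι → X, c B ^ 2 * ∑ C : Finset ι, ∑ b ∈ Cᶜ, min 1 (UU c C b B / (θ + DD c C B)) := by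
      have e2 : ∀ C : Finset ι, ∑ b ∈ Cᶜ,
          (∑ B : ι → X, c B ^ 2 * min 1 (UU c C b B / (θ + DD c C B))) =
          ∑ B : ι → X, c B ^ 2 * ∑ b ∈ Cᶜ, min 1 (UU c C b B / (θ + DD c C B)) := by
        intro C
        rw [Finset.sum_comm]
        exact Finset.sum_congr rfl fun B _ => (Finset.mul_sum _ _ _).symm
      rw [Finset.sum_congr rfl fun C _ => e2 C, Finset.sum_comm]
      exact Finset.sum_congr rfl fun B _ => (Finset.mul_sum _ _ _).symm
    rw [e1]
    unfold VV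
    rw [Finset.sum_mul]
    refine Finset.sum_le_sum fun B _ => mul_le_mul_of_nonneg_left ?_ (sq_nonneg _)
    rw [hn]
    exact etype θ hθ c B
  have h4 : ∑ C : Finset ι, ∑ b ∈ Cᶜ,
        (2 * TQ (vA c b) (kA θ c C b) (R b) + 73 * ML (vA c b) (R b) +
          64 * ∑ B : ι → X, c B ^ 2 * min 1 (UU c C b B / (θ + DD c C B))) ≤
      n * (2 * (4000000 * (VV c * (1 + Real.log (1 / VV c)))) +
        73 * (76 * (VV c * Real.log (1 / VV c)))) + 64 * (VV c * (2 * n)) := by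
    have e3 : ∑ C : Finset ι, ∑ b ∈ Cᶜ,
        (2 * TQ (vA c b) (kA θ c C b) (R b) + 73 * ML (vA c b) (R b) +
          64 * ∑ B : ι → X, c B ^ 2 * min 1 (UU c C b B / (θ + DD c C B))) =
        ∑ C : Finset ι, (2 * (∑ b ∈ Cᶜ, TQ (vA c b) (kA θ c C b) (R b)) +
          73 * ∑ b ∈ Cᶜ, ML (vA c b) (R b)) + 64 * ∑ C : Finset ι, ∑ b ∈ Cᶜ,
          (∑ B : ι → X, c B ^ 2 * min 1 (UU c C b B / (θ + DD c C B))) := by
      rw [Finset.mul_sum, ← Finset.sum_add_distrib]
      refine Finset.sum_congr rfl fun C _ => ?_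
      rw [Finset.sum_add_distrib, Finset.sum_add_distrib, ← Finset.mul_sum, ← Finset.mul_sum,
        ← Finset.mul_sum]
    rw [e3]
    have e4 : ∑ C : Finset ι, (2 * (∑ b ∈ Cᶜ, TQ (vA c b) (kA θ c C b) (R b)) +
          73 * ∑ b ∈ Cᶜ, ML (vA c b) (R b)) ≤
        ∑ _C : Finset ι, (2 * (4000000 * (VV c * (1 + Real.log (1 / VV c)))) +
        73 * (76 * (VV c * Real.log (1 / VV c)))) :=
      Finset.sum_le_sum fun C _ => by
        have a1 := hTQ C
        have a2 := hML C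
        linarith
    have e5 : ∑ _C : Finset ι, (2 * (4000000 * (VV c * (1 + Real.log (1 / VV c)))) +
        73 * (76 * (VV c * Real.log (1 / VV c)))) =
        n * (2 * (4000000 * (VV c * (1 + Real.log (1 / VV c)))) +
        73 * (76 * (VV c * Real.log (1 / VV c)))) := by
      rw [Finset.sum_const, nsmul_eq_mul, Finset.card_univ, Fintype.card_finset, hn]
      push_cast
      ring
    rw [e5] at e4
    linarith
  refine h3.trans ((mul_le_mul_of_nonneg_left h4 (by positivity)).trans ?_)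
  have e6 : (2 / n) * (n * (2 * (4000000 * (VV c * (1 + Real.log (1 / VV c)))) +
        73 * (76 * (VV c * Real.log (1 / VV c)))) + 64 * (VV c * (2 * n))) =
      2 * (2 * (4000000 * (VV c * (1 + Real.log (1 / VV c)))) +
        73 * (76 * (VV c * Real.log (1 / VV c)))) + 256 * VV c := by
    field_simp
    ring
  rw [e6]
  have hVv : 0 ≤ VV c * Real.log (1 / VV c) := mul_nonneg hV0 hv0
  nlinarith

end BMP
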