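import Pool.Agent.BMP.Avg

/-! BMP QQ: product laws. `QQ S (sqrt p * c) ≤ 1`.

Step 1: if every `S b` is a correlation matrix (`IsCorr`, weights `w b`), then expanding the product of sums over
`s : ι → X → Bool` (`Finset.prod_univ_sum` / `Fintype.piFinset_univ`):
`QQ S u = ∑_s (∏_b w_b(s_b)) * (ev u s)^2`, hence `0 ≤ QQ S u` for every `u`, and `QQ S c ≤ 1` for bounded `c` (the weights sum to 1).
Step 2: passing to the limit (`QQ` is continuous in the entries of `S`): the same for `IsCorrLim`.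
The identity matrix is a correlation matrix (uniform weights, `Ex_sg_mul`).
Step 3: since `S b = 1` for `b ∈ C`, the product `∏_b S_b(B_b,B'_b)` vanishes unless `B = B'` on `C`, and then `p B = p B'`, so
`QQ S (sqrt p c) + QQ S (sqrt(1-p) c) = QQ S c`; the second term is `≥ 0`. -/

namespace BMP

open Finset

variable {ι X : Type} [Fintype ι] [DecidableEq ι] [Fintype X] [DecidableEq X]

/-- expansion of the product law -/
private theorem QQ_expand (S : ι → Matrix X X ℝ) (hS : ∀ b, IsCorr (S b)) :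
    ∃ W : (ι → X → Bool) → ℝ, (∀ s, 0 ≤ W s) ∧ ∑ s, W s = 1 ∧
      ∀ u : (ι → X) → ℝ, QQ S u = ∑ s, W s * ev u s ^ 2 := by
  choose w hw0 hw1 hw using hS
  refine ⟨fun s => ∏ b, w b (s b), fun s => prod_nonneg fun b _ => hw0 b _, ?_, ?_⟩
  · have h := Finset.prod_univ_sum (fun _ : ι => (univ : Finset (X → Bool))) (fun b s => w b s)
    rw [Fintype.piFinset_univ] at h
    rw [← h]
    exact prod_eq_one fun b _ => hw1 b
  · intro u
    have hprod : ∀ B B' : ι → X, ∏ b, S b (B b) (B' b) = ∑ s : ι → X → Bool,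
        (∏ b, w b (s b)) * ((∏ b, sg (s b (B b))) * (∏ b, sg (s b (B' b)))) := by
      intro B B'
      have h := Finset.prod_univ_sum (fun _ : ι => (univ : Finset (X → Bool)))
        (fun b s => w b s * (sg (s (B b)) * sg (s (B' b))))
      rw [Fintype.piFinset_univ] at h
      have e : ∏ b, S b (B b) (B' b) =
          ∏ b, ∑ s : X → Bool, w b s * (sg (s (B b)) * sg (s (B' b))) :=
        prod_congr rfl fun b _ => hw b _ _
      rw [e, h]
      refine sum_congr rfl fun s _ => ?_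
      rw [prod_mul_distrib, prod_mul_distrib]
    unfold QQ
    simp_rw [hprod, mul_sum]
    have e1 : ∀ B : ι → X, ∑ B' : ι → X, ∑ s : ι → X → Bool, u B * u B' *
        ((∏ b, w b (s b)) * ((∏ b, sg (s b (B b))) * (∏ b, sg (s b (B' b))))) =
        ∑ s : ι → X → Bool, ∑ B' : ι → X, u B * u B' *
        ((∏ b, w b (s b)) * ((∏ b, sg (s b (B b))) * (∏ b, sg (s b (B' b))))) :=
      fun B => sum_comm
    simp_rw [e1]
    rw [sum_comm]
    refine sum_congr rfl fun s _ => ?_
    unfold ev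
    rw [sq, sum_mul_sum, mul_sum]
    refine sum_congr rfl fun B _ => ?_
    rw [mul_sum]
    refine sum_congr rfl fun B' _ => ?_
    ring

private theorem QQ_tendsto (S : ι → Matrix X X ℝ) (Sm : ι → ℕ → Matrix X X ℝ)
    (h : ∀ b i j, Filter.Tendsto (fun m => Sm b m i j) Filter.atTop (nhds (S b i j)))
    (u : (ι → X) → ℝ) :
    Filter.Tendsto (fun m => QQ (fun b => Sm b m) u) Filter.atTop (nhds (QQ S u)) := by
  unfold QQ
  refine tendsto_finset_sum _ fun B _ => tendsto_finset_sum _ fun B' _ => ?_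
  exact (tendsto_finset_prod _ fun b _ => h b _ _).const_mul _

private theorem QQ_nonneg (S : ι → Matrix X X ℝ) (hS : ∀ b, IsCorrLim (S b))
    (u : (ι → X) → ℝ) : 0 ≤ QQ S u := by
  choose Sm h1 h2 using hS
  refine ge_of_tendsto' (QQ_tendsto S Sm h2 u) fun m => ?_
  obtain ⟨W, hW0, hW1, hW⟩ := QQ_expand (fun b => Sm b m) fun b => h1 b m
  rw [hW]
  exact sum_nonneg fun s _ => mul_nonneg (hW0 s) (sq_nonneg _)

private theorem QQ_bdd (S : ι → Matrix X X ℝ) (hS : ∀ b, IsCorrLim (S b))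
    (c : (ι → X) → ℝ) (hc : Bdd c) : QQ S c ≤ 1 := by
  choose Sm h1 h2 using hS
  refine le_of_tendsto' (QQ_tendsto S Sm h2 c) fun m => ?_
  obtain ⟨W, hW0, hW1, hW⟩ := QQ_expand (fun b => Sm b m) fun b => h1 b m
  rw [hW, ← hW1]
  refine sum_le_sum fun s _ => ?_
  have h3 : ev c s ^ 2 ≤ 1 := by
    rw [← sq_abs]
    exact pow_le_one₀ (abs_nonneg _) (hc s)
  have h4 := mul_le_mul_of_nonneg_left h3 (hW0 s)
  rwa [mul_one] at h4

private theorem corr_one : IsCorr (1 : Matrix X X ℝ) := by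
  refine ⟨fun _ => 1 / 2 ^ (Fintype.card X), fun _ => by positivity, ?_, ?_⟩
  · rw [sum_const, nsmul_eq_mul]
    have h : ((univ : Finset (X → Bool)).card : ℝ) = 2 ^ (Fintype.card X) := by
      rw [Finset.card_univ, Fintype.card_fun, Fintype.card_bool]
      push_cast
      rfl
    rw [h]
    field_simp
  · intro i j
    have h := Ex_sg_mul i j
    unfold Ex at h
    rw [Matrix.one_apply, ← h, sum_div]
    refine sum_congr rfl fun s _ => ?_
    ring

private theorem corrLim_one : IsCorrLim (1 : Matrix X X ℝ) :=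
  ⟨fun _ => 1, fun _ => corr_one, fun _ _ => tendsto_const_nhds⟩

theorem QQ_le_one (c : (ι → X) → ℝ) (hc : Bdd c) (C : Finset ι) (S : ι → Matrix X X ℝ)
    (hS : ∀ b, b ∉ C → IsCorrLim (S b)) (hC : ∀ b ∈ C, S b = 1) (p : (ι → X) → ℝ)
    (hp0 : ∀ B, 0 ≤ p B) (hp1 : ∀ B, p B ≤ 1)
    (hp : ∀ B B' : ι → X, (∀ b ∈ C, B b = B' b) → p B = p B') :
    QQ S (fun B => Real.sqrt (p B) * c B) ≤ 1 := by
  have hS' : ∀ b, IsCorrLim (S b) := by
    intro b
    by_cases hb : b ∈ C
    · rw [hC b hb]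
      exact corrLim_one
    · exact hS b hb
  have key : QQ S (fun B => Real.sqrt (p B) * c B) + QQ S (fun B => Real.sqrt (1 - p B) * c B) =
      QQ S c := by
    unfold QQ
    rw [← sum_add_distrib]
    refine sum_congr rfl fun B _ => ?_
    rw [← sum_add_distrib]
    refine sum_congr rfl fun B' _ => ?_
    by_cases h : ∀ b ∈ C, B b = B' b
    · beta_reduce
      rw [← hp B B' h]
      have e1 : Real.sqrt (p B) * Real.sqrt (p B) = p B := Real.mul_self_sqrt (hp0 B)
      have e2 : Real.sqrt (1 - p B) * Real.sqrt (1 - p B) = 1 - p B :=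
        Real.mul_self_sqrt (by linarith [hp1 B])
      linear_combination (c B * c B' * ∏ b, S b (B b) (B' b)) * e1 +
        (c B * c B' * ∏ b, S b (B b) (B' b)) * e2
    · push Not at h
      obtain ⟨b, hb, hne⟩ := h
      have h0 : ∏ b, S b (B b) (B' b) = 0 := by
        apply prod_eq_zero (mem_univ b)
        rw [hC b hb, Matrix.one_apply_ne hne]
      rw [h0]
      ring
  have h1 := QQ_nonneg S hS' (fun B => Real.sqrt (1 - p B) * c B)
  have h2 := QQ_bdd S hS' c hc
  linarith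

theorem QQ_one (c : (ι → X) → ℝ) : QQ (fun _ => (1 : Matrix X X ℝ)) c = VV c := by
  unfold QQ VV
  refine sum_congr rfl fun B _ => ?_
  rw [sum_eq_single B]
  · rw [prod_eq_one fun b _ => Matrix.one_apply_eq _]
    ring
  · intro B' _ hne
    obtain ⟨b, hb⟩ := Function.ne_iff.1 hne
    have h0 : ∏ b, (1 : Matrix X X ℝ) (B b) (B' b) = 0 :=
      prod_eq_zero (mem_univ b) (Matrix.one_apply_ne (Ne.symm hb))
    rw [h0, mul_zero]
  · intro h
    exact absurd (mem_univ B) h

theorem VV_le_one (c : (ι → X) → ℝ) (hc : Bdd c) : VV c ≤ 1 := by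
  rw [← QQ_one]
  exact QQ_bdd _ (fun _ => corrLim_one) c hc

theorem VV_nonneg (c : (ι → X) → ℝ) : 0 ≤ VV c :=
  sum_nonneg fun _ _ => sq_nonneg _

end BMP
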