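import Pool.Agent.BMP.RoundA

/-! BMP Round: rounding. For a positive semidefinite matrix `n` with diagonal `≤ D` the matrix with diagonal `1` and
off-diagonal entries `e^(-D) sinh(n_ij)` is a limit of correlation matrices of random sign vectors.

Proof. `n = G^T G`, i.e. `n i j = ∑ r, g r i * g r j` with a finite index set (`Matrix.posSemidef_iff_eq_conjTranspose_mul_self`).
Add the private coordinates `r = k : X`, `g k i = if i = k then sqrt (D - n k k) else 0`: now `n i i = D`, and the
off-diagonal entries are unchanged; the new index set is `R := X ⊕ X`. For `m ≥ 1` let the index set be `R × Fin m` with vectors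
`g r / sqrt m`. For `ε : R × Fin m → Bool` put `p_i(ε) = sin(∑_{(r,l)} ε_(r,l) g r i / sqrt m)`, `|p_i| ≤ 1`.
`Sm := ` correlation matrix of the law `w s = Ex_ε ∏_i (1 + sg (s i) p_i(ε))/2` (this is `≥ 0`, sums to `1`), so for `i ≠ j`:
`Sm i j = Ex_ε (p_i p_j)`, and diagonal `1`. With `sin a sin b = (cos(a-b) - cos(a+b))/2` and
`Ex_ε cos(∑ ε_q t_q) = ∏ cos t_q` (induction / product formula; also `Ex sin = 0`):
`Sm i j = (1/2) [∏_r cos((g r i - g r j)/sqrt m)^m - ∏_r cos((g r i + g r j)/sqrt m)^m]`
`→ (1/2) [exp(-∑_r (g r i - g r j)^2/2) - exp(-∑_r (g r i + g r j)^2/2)] = (1/2)[exp(-(D - n_ij)) - exp(-(D + n_ij))] = e^(-D) sinh(n_ij)`,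
using `cos(t/sqrt m)^m → exp(-t^2/2)` (e.g. `Real.tendsto_one_add_pow_exp_of_tendsto`-type lemma with
`m (cos(t/sqrt m) - 1) → -t^2/2`; or squeeze with `1 - x^2/2 ≤ cos x ≤ 1 - x^2/2 + x^4/24`). -/

namespace BMP

open Finset

variable {X : Type} [Fintype X] [DecidableEq X]

/-- the product formula for the averages of products of two sines -/
private lemma ex_sin_sin {T : Type} [Fintype T] [DecidableEq T] (u v : T → ℝ) :
    Ex (fun e : T → Bool => Real.sin (dt u e) * Real.sin (dt v e)) =
      (∏ q, Real.cos (u q - v q) - ∏ q, Real.cos (u q + v q)) / 2 := by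
  have h1 : ∀ e : T → Bool, Real.sin (dt u e) * Real.sin (dt v e) =
      (Real.cos (dt (fun q => u q - v q) e) - Real.cos (dt (fun q => u q + v q) e)) / 2 := by
    intro e
    have e1 : dt (fun q => u q - v q) e = dt u e - dt v e := by
      unfold dt
      rw [← Finset.sum_sub_distrib]
      exact Finset.sum_congr rfl fun q _ => by ring
    have e2 : dt (fun q => u q + v q) e = dt u e + dt v e := by
      unfold dt
      rw [← Finset.sum_add_distrib]
      exact Finset.sum_congr rfl fun q _ => by ring
    rw [e1, e2, Real.cos_sub, Real.cos_add]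
    ring
  rw [← Ex_cos (fun q => u q - v q), ← Ex_cos (fun q => u q + v q)]
  unfold Ex
  simp only [h1]
  rw [← Finset.sum_div, Finset.sum_sub_distrib]
  ring

open scoped MatrixOrder in
/-- a positive semidefinite real matrix is a Gram matrix -/
private lemma psd_gram (n : Matrix X X ℝ) (hn : n.PosSemidef) :
    ∃ B : Matrix X X ℝ, ∀ i j, n i j = ∑ r, B r i * B r j := by
  obtain ⟨B, hB⟩ := CStarAlgebra.nonneg_iff_eq_star_mul_self.mp hn.nonneg
  refine ⟨B, fun i j => ?_⟩
  rw [hB, Matrix.mul_apply]
  rfl

theorem round (n : Matrix X X ℝ) (hn : n.PosSemidef) (D : ℝ) (hD : ∀ i, n i i ≤ D) :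
    IsCorrLim (fun i j : X => if i = j then (1 : ℝ) else Real.exp (-D) * Real.sinh (n i j)) := by
  obtain ⟨B, hnB⟩ := psd_gram n hn
  -- the vectors
  obtain ⟨g, hg1, hg2⟩ : ∃ g : X ⊕ X → X → ℝ, (∀ r i, g (Sum.inl r) i = B r i) ∧
      ∀ k i, g (Sum.inr k) i = if i = k then Real.sqrt (D - n k k) else 0 :=
    ⟨fun r i => Sum.elim (fun r => B r i) (fun k => if i = k then Real.sqrt (D - n k k) else 0) r,
      fun _ _ => rfl, fun _ _ => rfl⟩
  have hgg : ∀ i j, ∑ r, g r i * g r j = if i = j then D else n i j := by
    intro i j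
    rw [Fintype.sum_sum_type]
    simp only [hg1, hg2]
    rw [← hnB]
    by_cases hij : i = j
    · subst hij
      rw [if_pos rfl, Finset.sum_eq_single i]
      · rw [if_pos rfl, Real.mul_self_sqrt (by linarith [hD i])]
        ring
      · intro k _ hk
        rw [if_neg (Ne.symm hk), mul_zero]
      · intro h
        exact absurd (Finset.mem_univ i) h
    · rw [if_neg hij, Finset.sum_eq_zero, add_zero]
      intro k _
      by_cases hik : i = k
      · have hjk : ¬ j = k := fun h => hij (hik.trans h.symm)
        rw [if_neg hjk, mul_zero]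
      · rw [if_neg hik, zero_mul]
  -- the approximations
  refine ⟨fun m i j => if i = j then (1 : ℝ) else Ex (fun e : (X ⊕ X) × Fin m → Bool =>
    Real.sin (dt (fun q : (X ⊕ X) × Fin m => g q.1 i / Real.sqrt m) e) *
    Real.sin (dt (fun q : (X ⊕ X) × Fin m => g q.1 j / Real.sqrt m) e)), ?_, ?_⟩
  · intro m
    exact corr_of_avg (fun (e : (X ⊕ X) × Fin m → Bool) (i : X) =>
      Real.sin (dt (fun q : (X ⊕ X) × Fin m => g q.1 i / Real.sqrt m) e))
      (fun e i => Real.abs_sin_le_one _)
  · intro i j
    by_cases hij : i = j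
    · simp only [if_pos hij]
      exact tendsto_const_nhds
    · simp only [if_neg hij]
      have h1 : ∀ m : ℕ, Ex (fun e : (X ⊕ X) × Fin m → Bool =>
          Real.sin (dt (fun q : (X ⊕ X) × Fin m => g q.1 i / Real.sqrt m) e) *
          Real.sin (dt (fun q : (X ⊕ X) × Fin m => g q.1 j / Real.sqrt m) e)) =
          (∏ r, Real.cos ((g r i - g r j) / Real.sqrt m) ^ m -
            ∏ r, Real.cos ((g r i + g r j) / Real.sqrt m) ^ m) / 2 := by
        intro m
        rw [ex_sin_sin]
        congr 2
        · rw [Fintype.prod_prod_type]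
          refine Finset.prod_congr rfl fun r _ => ?_
          show (∏ _y : Fin m, Real.cos (g r i / Real.sqrt m - g r j / Real.sqrt m)) = _
          rw [Finset.prod_const, Finset.card_univ, Fintype.card_fin, sub_div]
        · rw [Fintype.prod_prod_type]
          refine Finset.prod_congr rfl fun r _ => ?_
          show (∏ _y : Fin m, Real.cos (g r i / Real.sqrt m + g r j / Real.sqrt m)) = _
          rw [Finset.prod_const, Finset.card_univ, Fintype.card_fin, add_div]
      have h2 : Filter.Tendsto (fun m : ℕ => (∏ r, Real.cos ((g r i - g r j) / Real.sqrt m) ^ m -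
            ∏ r, Real.cos ((g r i + g r j) / Real.sqrt m) ^ m) / 2) Filter.atTop
          (nhds ((∏ r, Real.exp (-((g r i - g r j) ^ 2 / 2)) -
            ∏ r, Real.exp (-((g r i + g r j) ^ 2 / 2))) / 2)) :=
        ((tendsto_finsetProd _ fun r _ => cos_pow_tendsto _).sub
          (tendsto_finsetProd _ fun r _ => cos_pow_tendsto _)).div_const 2
      have hii := hgg i i
      have hjj := hgg j j
      have hij2 := hgg i j
      rw [if_pos rfl] at hii hjj
      rw [if_neg hij] at hij2
      have e1 : ∑ r, -((g r i - g r j) ^ 2 / 2) = -(D - n i j) := by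
        have h3 : ∀ r, -((g r i - g r j) ^ 2 / 2) =
            -(1 / 2) * (g r i * g r i) - 1 / 2 * (g r j * g r j) + g r i * g r j := by
          intro r
          ring
        simp only [h3]
        rw [Finset.sum_add_distrib, Finset.sum_sub_distrib, ← Finset.mul_sum, ← Finset.mul_sum,
          hii, hjj, hij2]
        ring
      have e2 : ∑ r, -((g r i + g r j) ^ 2 / 2) = -(D + n i j) := by
        have h3 : ∀ r, -((g r i + g r j) ^ 2 / 2) =
            -(1 / 2) * (g r i * g r i) - 1 / 2 * (g r j * g r j) - g r i * g r j := by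
          intro r
          ring
        simp only [h3]
        rw [Finset.sum_sub_distrib, Finset.sum_sub_distrib, ← Finset.mul_sum, ← Finset.mul_sum,
          hii, hjj, hij2]
        ring
      rw [← Real.exp_sum, ← Real.exp_sum, e1, e2] at h2
      have h4 : (Real.exp (-(D - n i j)) - Real.exp (-(D + n i j))) / 2 =
          Real.exp (-D) * Real.sinh (n i j) := by
        rw [Real.sinh_eq, show -(D - n i j) = -D + n i j by ring,
          show -(D + n i j) = -D + -n i j by ring, Real.exp_add, Real.exp_add]
        ring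
      rw [← h4]
      refine h2.congr fun m => ?_
      rw [h1]

end BMP
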