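import Pool.Agent.BMP.Avg

/-! BMP RoundA: three tools for the rounding lemma.

`cos_pow_tendsto`: squeeze with `1 - x^2/2 ≤ cos x ≤ 1 - x^2/2 + x^4/24`, or
`Real.tendsto_one_add_pow_exp_of_tendsto`-type lemma with `m (cos(t/sqrt m) - 1) → -t^2/2`.
`Ex_cos`: `Ex_ε cos(∑ ε_q t_q) = ∏ cos t_q` (and `Ex_ε sin(∑ ε_q t_q) = 0`): by the product formula for
`exp(i x)`: `∑_s exp(i ∑ t_q sg(s_q)) = ∏_q (exp(i t_q) + exp(-i t_q))` (`Finset.prod_univ_sum`), take the real part.
`corr_of_avg`: weights `w s = Ex_ε ∏_i (1 + sg (s i) p_i(ε))/2` (this is `≥ 0`, sums to `1`; `∑_s` of the product factorises). -/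

namespace BMP

open Finset

variable {X : Type} [Fintype X] [DecidableEq X]

private theorem sum_prod {K T : Type} [CommSemiring K] [Fintype T] [DecidableEq T]
    (f : T → Bool → K) : ∑ s : T → Bool, ∏ i, f i (s i) = ∏ i, ∑ b, f i b := by
  rw [Finset.prod_univ_sum, Fintype.piFinset_univ]

/-- `cos(t/sqrt m)^m → exp(-t^2/2)` -/
theorem cos_pow_tendsto (t : ℝ) :
    Filter.Tendsto (fun m : ℕ => Real.cos (t / Real.sqrt m) ^ m) Filter.atTop (nhds (Real.exp (-(t ^ 2 / 2)))) := by
  have h : Filter.Tendsto (fun m : ℕ => (m : ℝ) * (Real.cos (t / Real.sqrt m) - 1))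
      Filter.atTop (nhds (-(t ^ 2 / 2))) := by
    rw [tendsto_iff_norm_sub_tendsto_zero]
    have h0 : Filter.Tendsto (fun m : ℕ => t ^ 4 * (5 / 96) / (m : ℝ)) Filter.atTop (nhds 0) :=
      tendsto_const_div_atTop_nhds_zero_nat _
    refine squeeze_zero' (Filter.Eventually.of_forall fun m => norm_nonneg _) ?_ h0
    obtain ⟨N, hN⟩ := exists_nat_ge (t ^ 2)
    filter_upwards [Filter.eventually_ge_atTop (max N 1)] with m hm
    have hm1 : (1 : ℝ) ≤ m := by exact_mod_cast (le_max_right N 1).trans hm
    have hmN : t ^ 2 ≤ m := hN.trans (by exact_mod_cast (le_max_left N 1).trans hm)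
    have hm0 : (0 : ℝ) < m := by linarith
    have hsq : Real.sqrt m ^ 2 = m := Real.sq_sqrt hm0.le
    have hx2 : (t / Real.sqrt m) ^ 2 = t ^ 2 / m := by rw [div_pow, hsq]
    have hx : |t / Real.sqrt m| ≤ 1 := by
      rw [← sq_le_one_iff_abs_le_one, hx2, div_le_one hm0]
      exact hmN
    have h1 := Real.cos_bound hx
    have h4 : |t / Real.sqrt m| ^ 4 = t ^ 4 / m ^ 2 := by
      have e : |t / Real.sqrt m| ^ 4 = (|t / Real.sqrt m| ^ 2) ^ 2 := by ring
      rw [e, sq_abs, hx2, div_pow]
      ring
    rw [h4, hx2] at h1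
    have e1 : (m : ℝ) * (Real.cos (t / Real.sqrt m) - 1) - -(t ^ 2 / 2) =
        m * (Real.cos (t / Real.sqrt m) - (1 - t ^ 2 / m / 2)) := by
      field_simp
      ring
    rw [e1, norm_mul, Real.norm_eq_abs, Real.norm_eq_abs, abs_of_pos hm0]
    calc (m : ℝ) * |Real.cos (t / Real.sqrt m) - (1 - t ^ 2 / m / 2)| ≤
          m * (t ^ 4 / m ^ 2 * (5 / 96)) := mul_le_mul_of_nonneg_left h1 hm0.le
      _ = t ^ 4 * (5 / 96) / m := by
          field_simp
  have h2 := Real.tendsto_one_add_pow_exp_of_tendsto h
  refine h2.congr fun m => ?_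
  rw [add_sub_cancel]

/-- the average of the cosine of a random signed sum -/
theorem Ex_cos {T : Type} [Fintype T] [DecidableEq T] (t : T → ℝ) :
    Ex (fun s : T → Bool => Real.cos (dt t s)) = ∏ q, Real.cos (t q) := by
  have h1 : ∀ s : T → Bool, Complex.exp ((dt t s : ℝ) * Complex.I) =
      ∏ q, Complex.exp (((t q * sg (s q) : ℝ) : ℂ) * Complex.I) := by
    intro s
    rw [← Complex.exp_sum, ← Finset.sum_mul]
    congr 2
    unfold dt
    push_cast
    rfl
  have h2 : ∑ s : T → Bool, Complex.exp ((dt t s : ℝ) * Complex.I) =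
      ((∏ q, (2 * Real.cos (t q)) : ℝ) : ℂ) := by
    rw [Finset.sum_congr rfl (fun s _ => h1 s),
      sum_prod (fun q b => Complex.exp (((t q * sg b : ℝ) : ℂ) * Complex.I)), Complex.ofReal_prod]
    refine Finset.prod_congr rfl fun q _ => ?_
    rw [Fintype.sum_bool]
    simp only [sg, if_true, Bool.false_eq_true, if_false]
    push_cast
    rw [Complex.two_cos]
    congr 2
    · rw [mul_one]
    · ring
  have h3 : ∑ s : T → Bool, Real.cos (dt t s) = ∏ q, (2 * Real.cos (t q)) := by
    have h4 := congrArg Complex.re h2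
    rw [Complex.re_sum, Complex.ofReal_re] at h4
    rw [← h4]
    refine Finset.sum_congr rfl fun s _ => ?_
    rw [Complex.exp_ofReal_mul_I_re]
  unfold Ex
  rw [h3, Finset.prod_mul_distrib, Finset.prod_const, Finset.card_univ]
  field_simp

/-- independent rounding of a vector with entries in [-1,1], averaged over a finite probability space -/
theorem corr_of_avg {T : Type} [Fintype T] [DecidableEq T] (p : (T → Bool) → X → ℝ) (hp : ∀ e i, |p e i| ≤ 1) :
    IsCorr (fun i j : X => if i = j then 1 else Ex (fun e => p e i * p e j)) := by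
  have hfac : ∀ (e : T → Bool) (i : X) (b : Bool), 0 ≤ (1 + sg b * p e i) / 2 := by
    intro e i b
    have h1 := abs_le.1 (hp e i)
    cases b
    · simp only [sg, Bool.false_eq_true, if_false]
      linarith [h1.2]
    · simp only [sg, if_true]
      linarith [h1.1]
  have hsum : ∀ (e : T → Bool) (i : X), ∑ b, (1 + sg b * p e i) / 2 = 1 := by
    intro e i
    rw [Fintype.sum_bool]
    simp only [sg, if_true, Bool.false_eq_true, if_false]
    ring
  have hswap : ∀ F : (X → Bool) → ℝ,
      ∑ s : X → Bool, Ex (fun e => ∏ i, (1 + sg (s i) * p e i) / 2) * F s =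
        Ex (fun e => ∑ s : X → Bool, (∏ i, (1 + sg (s i) * p e i) / 2) * F s) := by
    intro F
    unfold Ex
    rw [Finset.sum_comm, Finset.sum_div]
    refine Finset.sum_congr rfl fun s _ => ?_
    rw [div_mul_eq_mul_div, Finset.sum_mul]
  refine ⟨fun s => Ex (fun e => ∏ i, (1 + sg (s i) * p e i) / 2), ?_, ?_, ?_⟩
  · intro s
    unfold Ex
    exact div_nonneg (Finset.sum_nonneg fun e _ => Finset.prod_nonneg fun i _ => hfac e i (s i))
      (by positivity)
  · have h1 := hswap (fun _ => 1)
    simp only [mul_one] at h1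
    rw [h1]
    have h2 : ∀ e : T → Bool, ∑ s : X → Bool, ∏ i, (1 + sg (s i) * p e i) / 2 = 1 := by
      intro e
      rw [sum_prod (fun i b => (1 + sg b * p e i) / 2)]
      exact Finset.prod_eq_one fun i _ => hsum e i
    simp only [h2]
    exact Ex_const 1
  · intro i j
    rw [hswap (fun s => sg (s i) * sg (s j))]
    beta_reduce
    by_cases hij : i = j
    · subst hij
      simp only [sg_mul_self, mul_one, if_true]
      have h2 : ∀ e : T → Bool, ∑ s : X → Bool, ∏ i, (1 + sg (s i) * p e i) / 2 = 1 := by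
        intro e
        rw [sum_prod (fun i b => (1 + sg b * p e i) / 2)]
        exact Finset.prod_eq_one fun i _ => hsum e i
      simp only [h2]
      exact (Ex_const 1).symm
    · rw [if_neg hij]
      congr 1
      funext e
      have h3 : ∀ s : X → Bool, (∏ k, (1 + sg (s k) * p e k) / 2) * (sg (s i) * sg (s j)) =
          ∏ k, ((1 + sg (s k) * p e k) / 2 * ((if k = i then sg (s k) else 1) *
            (if k = j then sg (s k) else 1))) := by
        intro s
        rw [Finset.prod_mul_distrib, Finset.prod_mul_distrib, Finset.prod_ite_eq',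
          Finset.prod_ite_eq', if_pos (Finset.mem_univ _), if_pos (Finset.mem_univ _)]
      rw [Finset.sum_congr rfl (fun s _ => h3 s),
        sum_prod (fun k b => (1 + sg b * p e k) / 2 * ((if k = i then sg b else 1) *
            (if k = j then sg b else 1)))]
      have h4 : ∀ k, ∑ b, (1 + sg b * p e k) / 2 * ((if k = i then sg b else 1) *
          (if k = j then sg b else 1)) = (if k = i then p e k else 1) *
            (if k = j then p e k else 1) := by
        intro k
        rw [Fintype.sum_bool]
        simp only [sg, if_true, Bool.false_eq_true, if_false]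
        by_cases h1 : k = i
        · have h2 : k ≠ j := fun h => hij (h1.symm.trans h)
          rw [if_pos h1, if_pos h1, if_neg h2, if_neg h2, if_pos h1, if_neg h2]
          ring
        · by_cases h2 : k = j
          · rw [if_neg h1, if_neg h1, if_pos h2, if_pos h2, if_neg h1, if_pos h2]
            ring
          · rw [if_neg h1, if_neg h1, if_neg h2, if_neg h2, if_neg h1, if_neg h2]
            ring
      rw [Finset.prod_congr rfl (fun k _ => h4 k), Finset.prod_mul_distrib,
        Finset.prod_ite_eq', Finset.prod_ite_eq', if_pos (Finset.mem_univ _),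
        if_pos (Finset.mem_univ _)]

end BMP
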