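import Pool.Agent.BMP.Round
import Pool.Agent.BMP.QQ
import Pool.Agent.BMP.Jen
import Pool.Agent.BMP.Pol

/-! BMP Tilt: the tilt lemma (section 2 of the paper proof).

`S b = SM η D (N b)` for `b ∉ C` (`round` with `n = nM η (N b)`, `nM_psd`, `nM_diag`: it is `IsCorrLim`), `S b = 1` for `b ∈ C`.
`QQ_le_one` gives `QQ S (sqrt p * c) ≤ 1`; `jensen` with `u = sqrt p * c` (`pol_small`, `SM_symm`; for `b ∈ C` the terms vanish).
For `b ∉ C`: `vA u b A i = sqrt (p (ins b i A)) c(ins b i A) = sqrt (pb b A) * vA c b A i`, so `qd`, `n2 (ap ..)` get the factor `pb b A`.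
Then `pol` for every vector `vA c b A`. `VV u = ∑ p B * c B ^ 2`. -/

namespace BMP

open Finset

variable {ι X : Type} [Fintype ι] [DecidableEq ι] [Fintype X] [DecidableEq X]

private theorem qd_zero (x : X → ℝ) : qd ((1 : Matrix X X ℝ) - 1) x = 0 := by
  unfold qd
  simp

private theorem n2_ap_zero (x : X → ℝ) : n2 (ap ((1 : Matrix X X ℝ) - 1) x) = 0 := by
  unfold n2 ap
  simp

private theorem qd_smul (M : Matrix X X ℝ) (t : ℝ) (x : X → ℝ) :
    qd M (fun i => t * x i) = t ^ 2 * qd M x := by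
  unfold qd
  rw [Finset.mul_sum]
  refine Finset.sum_congr rfl fun i _ => ?_
  rw [Finset.mul_sum]
  exact Finset.sum_congr rfl fun j _ => by ring

private theorem n2_ap_smul (M : Matrix X X ℝ) (t : ℝ) (x : X → ℝ) :
    n2 (ap M (fun i => t * x i)) = t ^ 2 * n2 (ap M x) := by
  have h : ap M (fun i => t * x i) = fun i => t * ap M x i := by
    funext i
    unfold ap
    rw [Finset.mul_sum]
    exact Finset.sum_congr rfl fun j _ => by ring
  rw [h]
  unfold n2
  rw [Finset.mul_sum]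
  exact Finset.sum_congr rfl fun j _ => by ring

theorem tilt (c : (ι → X) → ℝ) (hc : Bdd c) (C : Finset ι) (p : (ι → X) → ℝ)
    (hp0 : ∀ B, 0 ≤ p B) (hp1 : ∀ B, p B ≤ 1)
    (hp : ∀ B B' : ι → X, (∀ b ∈ C, B b = B' b) → p B = p B')
    (pb : (b : ι) → ({j // j ≠ b} → X) → ℝ) (hpb0 : ∀ b A, 0 ≤ pb b A)
    (hpb : ∀ b, b ∉ C → ∀ A i, p (ins b i A) = pb b A)
    (N : ι → Matrix X X ℝ) (hN : ∀ b, b ∉ C → (N b).PosSemidef)
    (η d K D : ℝ) (hη : 0 < η) (hK0 : 0 ≤ K) (hηK : η * K ≤ 1 / 21)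
    (hDdef : D = η * d + 6 * η ^ 2 * K ^ 2) (hD : D ≤ 1 / 10)
    (hd : ∀ b, b ∉ C → ∀ i, N b i i ≤ d)
    (hK : ∀ b, b ∉ C → ∀ x : X → ℝ, n2 (ap (off (N b)) x) ≤ K ^ 2 * n2 x) :
    ∑ b ∈ Cᶜ, ∑ A : {j // j ≠ b} → X, pb b A *
        (Real.exp (-D) * η * qd (off (N b)) (vA c b A) + (1 / 2) * η ^ 2 * n2 (ap (off (N b)) (vA c b A))
          - 8 * η ^ 2 * ∑ i, (∑ j, off (N b) i j ^ 2) * vA c b A i ^ 2) ≤
      (∑ B, p B * c B ^ 2) * Real.log (1 / (∑ B, p B * c B ^ 2)) := by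
  set S : ι → Matrix X X ℝ := fun b => if b ∈ C then 1 else SM η D (N b) with hS
  have hSC : ∀ b ∈ C, S b = 1 := fun b hb => by simp [hS, hb]
  have hSN : ∀ b, b ∉ C → S b = SM η D (N b) := fun b hb => by simp [hS, hb]
  have hcl : ∀ b, b ∉ C → IsCorrLim (S b) := by
    intro b hb
    rw [hSN b hb]
    have h := round (nM η (N b)) (nM_psd η hη (N b) (hN b hb)) D
      (fun i => by rw [hDdef]; exact nM_diag η d K hη (N b) (hN b hb) (hd b hb) (hK b hb) i)
    exact h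
  set u : (ι → X) → ℝ := fun B => Real.sqrt (p B) * c B with hu
  have hQ : QQ S u ≤ 1 := QQ_le_one c hc C S hcl hSC p hp0 hp1 hp
  have hsym : ∀ b i j, S b i j = S b j i := by
    intro b i j
    by_cases hb : b ∈ C
    · rw [hSC b hb]
      simp only [Matrix.one_apply, eq_comm]
    · rw [hSN b hb]
      exact SM_symm η D (N b) (hN b hb) i j
  have hY : ∀ b (x : X → ℝ), n2 (ap (S b - 1) x) ≤ (1 / 4) * n2 x := by
    intro b x
    by_cases hb : b ∈ C
    · rw [hSC b hb, n2_ap_zero]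
      have : 0 ≤ n2 x := Finset.sum_nonneg fun i _ => sq_nonneg _
      positivity
    · rw [hSN b hb]
      exact pol_small η d K D hη hK0 hηK hDdef hD (N b) (hN b hb) (hd b hb) (hK b hb) x
  have hJ := jensen S hsym hY u hQ
  have hV : VV u = ∑ B, p B * c B ^ 2 := by
    unfold VV
    refine Finset.sum_congr rfl fun B _ => ?_
    rw [hu]
    simp only
    rw [mul_pow, Real.sq_sqrt (hp0 B)]
  rw [hV] at hJ
  refine le_trans ?_ hJ
  rw [← Finset.sum_compl_add_sum C]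
  have hzero : ∑ b ∈ C, ∑ A : {j // j ≠ b} → X, (qd (S b - 1) (vA u b A) - n2 (ap (S b - 1) (vA u b A))) = 0 := by
    refine Finset.sum_eq_zero fun b hb => Finset.sum_eq_zero fun A _ => ?_
    rw [hSC b hb, qd_zero, n2_ap_zero, sub_zero]
  rw [hzero, add_zero]
  refine Finset.sum_le_sum fun b hb => Finset.sum_le_sum fun A _ => ?_
  have hbC : b ∉ C := Finset.mem_compl.1 hb
  have hv : vA u b A = fun i => Real.sqrt (pb b A) * vA c b A i := by
    funext i
    unfold vA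
    rw [hu]
    simp only
    rw [hpb b hbC A i]
  rw [hv, qd_smul, n2_ap_smul, Real.sq_sqrt (hpb0 b A), ← mul_sub, hSN b hbC]
  exact mul_le_mul_of_nonneg_left
    (pol η d K D hη hK0 hηK hDdef hD (N b) (hN b hbC) (hd b hbC) (hK b hbC) (vA c b A)) (hpb0 b A)

end BMP
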