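import Pool.Agent.BMP.Ind
import Pool.Agent.Helper11.AADefs

/-! BMP ToCube: from functions on the cube to tensors, and the theorem for functions on the cube. -/

namespace BMP

open Finset Pool.Agent.Helper11.AA Pool.Agent.Helper11.Cube

/-- the coefficient tensor of `f` for the partition `β` of the variables into blocks -/
noncomputable def tensor {n k : ℕ} (f : Cube n → ℝ) (β : Fin n → Fin k) : (Fin k → Fin n) → ℝ :=
  fun B => if ∀ b, β (B b) = b then coef f (univ.image B) else 0

theorem sum_oneper {n k : ℕ} (β : Fin n → Fin k) (h : Finset (Fin n) → ℝ) :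
    ∑ B ∈ univ.filter (fun B : Fin k → Fin n => ∀ b, β (B b) = b), h (univ.image B) =
    ∑ S ∈ univ.filter (fun S : Finset (Fin n) => ∀ b, (S.filter (fun i => β i = b)).card = 1), h S := by
  refine Finset.sum_bij (fun B _ => univ.image B) ?_ ?_ ?_ ?_
  · intro B hB
    rw [mem_filter] at hB ⊢
    refine ⟨mem_univ _, fun b => ?_⟩
    rw [card_eq_one]
    refine ⟨B b, ?_⟩
    ext i
    simp only [mem_filter, mem_image, mem_univ, true_and, mem_singleton]
    constructor
    · rintro ⟨⟨c, rfl⟩, hc⟩
      rw [hB.2 c] at hc
      rw [hc]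
    · rintro rfl
      exact ⟨⟨b, rfl⟩, hB.2 b⟩
  · intro B hB B' hB' h
    rw [mem_filter] at hB hB'
    funext b
    have h1 : B b ∈ univ.image B' := by
      rw [← h]; exact mem_image_of_mem _ (mem_univ _)
    rw [mem_image] at h1
    obtain ⟨c, _, hc⟩ := h1
    have h2 : c = b := by
      rw [← hB'.2 c, hc, hB.2 b]
    rw [← hc, h2]
  · intro S hS
    rw [mem_filter] at hS
    have h1 : ∀ b, ∃ i, S.filter (fun i => β i = b) = {i} := fun b => card_eq_one.mp (hS.2 b)
    choose B hB using h1
    have h2 : ∀ b, B b ∈ S ∧ β (B b) = b := by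
      intro b
      have : B b ∈ S.filter (fun i => β i = b) := by rw [hB b]; exact mem_singleton_self _
      exact ⟨(mem_filter.mp this).1, (mem_filter.mp this).2⟩
    refine ⟨B, ?_, ?_⟩
    · rw [mem_filter]
      exact ⟨mem_univ _, fun b => (h2 b).2⟩
    · ext i
      rw [mem_image]
      constructor
      · rintro ⟨b, _, rfl⟩
        exact (h2 b).1
      · intro hi
        refine ⟨β i, mem_univ _, ?_⟩
        have : i ∈ S.filter (fun j => β j = β i) := mem_filter.mpr ⟨hi, rfl⟩
        rw [hB (β i), mem_singleton] at this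
        exact this.symm
  · intro B _
    rfl

variable {n k : ℕ} {f : Cube n → ℝ} {β : Fin n → Fin k}

theorem tensor_Bdd (hf : ∀ S, coef f S ≠ 0 → ∀ b, (S.filter (fun i => β i = b)).card = 1)
    (h1 : ∀ x, |f x| ≤ 1) : Bdd (tensor f β) := by
  intro s
  set y : Cube n := fun i => if s (β i) i then 1 else -1 with hy
  have hev : ev (tensor f β) s = f y := by
    unfold ev tensor
    have h2 : ∀ B : Fin k → Fin n, (if ∀ b, β (B b) = b then coef f (univ.image B) else 0) *
        ∏ b, sg (s b (B b)) = if ∀ b, β (B b) = b then coef f (univ.image B) * chi (univ.image B) y else 0 := by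
      intro B
      split_ifs with hB
      · congr 1
        unfold chi
        have hinj : Function.Injective B := by
          intro a b hab
          rw [← hB a, hab, hB b]
        rw [prod_image (fun a _ b _ h => hinj h)]
        refine prod_congr rfl fun b _ => ?_
        rw [hy]
        simp only [hB b]
        unfold sg
        split_ifs <;> simp
      · rw [zero_mul]
    simp_rw [h2]
    rw [← Finset.sum_filter, sum_oneper β (fun S => coef f S * chi S y), inversion f y, Finset.sum_filter]
    refine sum_congr rfl fun S _ => ?_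
    split_ifs with hS
    · rfl
    · have : coef f S = 0 := by
        by_contra h0
        exact hS (hf S h0)
      rw [this, zero_mul]
  rw [hev]
  exact h1 y

theorem tensor_VV (hk : 1 ≤ k) (hf : ∀ S, coef f S ≠ 0 → ∀ b, (S.filter (fun i => β i = b)).card = 1) :
    VV (tensor f β) = variance f := by
  unfold VV tensor
  have h2 : ∀ B : Fin k → Fin n, (if ∀ b, β (B b) = b then coef f (univ.image B) else 0) ^ 2 =
      if ∀ b, β (B b) = b then coef f (univ.image B) ^ 2 else 0 := by
    intro B
    split_ifs <;> simp
  simp_rw [h2]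
  rw [← Finset.sum_filter, sum_oneper β (fun S => coef f S ^ 2), variance_eq_sum, Finset.sum_filter]
  have h3 : ∀ S : Finset (Fin n), (if ∀ b, (S.filter (fun i => β i = b)).card = 1 then coef f S ^ 2 else 0) =
      coef f S ^ 2 := by
    intro S
    split_ifs with hS
    · rfl
    · have : coef f S = 0 := by
        by_contra h0
        exact hS (hf S h0)
      rw [this]; simp
  simp_rw [h3]
  rw [← Finset.add_sum_erase _ _ (Finset.mem_univ (∅ : Finset (Fin n)))]
  have h4 : coef f ∅ = 0 := by
    by_contra h0
    have := hf ∅ h0 ⟨0, hk⟩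
    simp at this
  rw [h4]; simp

theorem tensor_infl (b : Fin k) (i : Fin n) :
    infl (tensor f β) b i ≤ ex (fun x => discreteDeriv i f x ^ 2) := by
  rw [ex_deriv_sq]
  unfold infl tensor
  have h2 : ∀ B : Fin k → Fin n, (if B b = i then (if ∀ b, β (B b) = b then coef f (univ.image B) else 0) ^ 2 else 0) ≤
      if ∀ b, β (B b) = b then (if i ∈ univ.image B then coef f (univ.image B) ^ 2 else 0) else 0 := by
    intro B
    by_cases h1 : B b = i
    · have : i ∈ univ.image B := by rw [← h1]; exact mem_image_of_mem _ (mem_univ _)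
      rw [if_pos h1, if_pos this]
      split_ifs <;> simp
    · rw [if_neg h1]
      split_ifs <;> positivity
  refine le_trans (sum_le_sum fun B _ => h2 B) ?_
  rw [← Finset.sum_filter, sum_oneper β (fun S => if i ∈ S then coef f S ^ 2 else 0), Finset.sum_filter,
    Finset.sum_filter]
  refine sum_le_sum fun S _ => ?_
  split_ifs <;> first | exact le_rfl | positivity

theorem HH_le_log (t : ℕ) (ht : 1 ≤ t) : HH t ≤ Real.log t := by
  induction t, ht using Nat.le_induction with
  | base => simp [HH]
  | succ m hm ih =>
    have hm0 : (0 : ℝ) < m := by exact_mod_cast hm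
    have h1 : HH (m + 1) = HH m + 1 / ((m : ℝ) + 1) := by
      unfold HH
      rw [Finset.sum_Icc_succ_top (by omega)]
      push_cast
      ring
    have h2 : 1 / ((m : ℝ) + 1) ≤ Real.log ((m + 1 : ℕ) : ℝ) - Real.log m := by
      rw [← Real.log_div (by positivity) (by positivity)]
      have h3 := Real.one_sub_inv_le_log_of_pos (x := ((m + 1 : ℕ) : ℝ) / m) (by positivity)
      refine le_trans (le_of_eq ?_) h3
      push_cast
      field_simp
      ring
    rw [h1]
    linarith

/-- polynomial Aaronson-Ambainis bound for block-multilinear functions of constant variance -/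
theorem bm_influence (hk : 1 ≤ k) (hf : ∀ S, coef f S ≠ 0 → ∀ b, (S.filter (fun i => β i = b)).card = 1)
    (h1 : ∀ x, |f x| ≤ 1) (hV : 0 < variance f) :
    ∃ j : Fin n, variance f ^ 2 / (4 * k) *
      (k : ℝ) ^ (-(40000000 * (1 + Real.log (1 / variance f)))) ≤ ex (fun x => discreteDeriv j f x ^ 2) := by
  have hn : (univ : Finset (Fin n)).Nonempty := by
    by_contra h0
    rw [not_nonempty_iff_eq_empty] at h0
    have h3 := poincare f
    rw [h0, sum_empty] at h3
    linarith
  obtain ⟨j, _, hj⟩ := exists_max_image univ (fun j => ex (fun x => discreteDeriv j f x ^ 2)) hn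
  refine ⟨j, ?_⟩
  set M := ex (fun x => discreteDeriv j f x ^ 2) with hM
  have hM0 : 0 < M := by
    by_contra h0
    push_neg at h0
    have h3 := poincare f
    have h4 : ∑ i, ex (fun x => discreteDeriv i f x ^ 2) ≤ ∑ i : Fin n, (0 : ℝ) :=
      sum_le_sum fun i _ => le_trans (hj i (mem_univ _)) h0
    rw [sum_const_zero] at h4
    linarith
  have hVV := tensor_VV hk hf
  have hkpos : 0 < Fintype.card (Fin k) := by rw [Fintype.card_fin]; exact hk
  have hmain := corollary (Fin k) (Fin n) hkpos (tensor f β) (tensor_Bdd hf h1) (by rw [hVV]; exact hV) M hM0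
    (fun b i => le_trans (tensor_infl b i) (hj i (mem_univ _)))
  rw [hVV, Fintype.card_fin] at hmain
  have hV1 : variance f ≤ 1 := by
    rw [← hVV]; exact VV_le_one _ (tensor_Bdd hf h1)
  have hk0 : (0 : ℝ) < k := by exact_mod_cast hk
  have hlogV : 0 ≤ Real.log (1 / variance f) := Real.log_nonneg (by rw [le_div_iff₀ hV]; linarith)
  have hHH := HH_le_log k hk
  set V := variance f with hVdef
  have h5 : Real.log (V ^ 2 / (4 * k) * (k : ℝ) ^ (-(40000000 * (1 + Real.log (1 / V))))) ≤ Real.log M := by
    rw [Real.log_mul (by positivity) (by positivity), Real.log_div (by positivity) (by positivity),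
      Real.log_pow, Real.log_mul (by norm_num) (by positivity), Real.log_rpow hk0]
    have h6 : Real.log 4 = 2 * Real.log 2 := by
      rw [show (4 : ℝ) = 2 ^ 2 by norm_num, Real.log_pow]; norm_num
    have h7 : Real.log (1 / M) = - Real.log M := by rw [one_div, Real.log_inv]
    have h8 : Real.log (1 / V) = - Real.log V := by rw [one_div, Real.log_inv]
    rw [h7] at hmain
    have h9 : 40000000 * HH k * (1 + Real.log (1 / V)) ≤ 40000000 * Real.log k * (1 + Real.log (1 / V)) := by
      apply mul_le_mul_of_nonneg_right _ (by linarith)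
      linarith
    rw [h6]
    rw [h8] at hmain h9 ⊢
    push_cast
    nlinarith
  exact (Real.log_le_log_iff (by positivity) hM0).mp h5

end BMP
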